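import Mathlib

/-!
# Universal length coverings

For a subset `U` of a real normed space `V` and a base point `x₀ : U` we define the universal
covering `Cov U x₀` of `U` (homotopy classes, relative to the end points, of paths in `U` issuing
from `x₀`) together with its length (pseudo)metric: the distance between two points is the infimum
of the lengths (measured in `V`) of the paths in `U` which lift to a path between them.
-/

open Set Metric unitInterval Topology
open scoped ENNReal NNReal

set_option linter.unusedSectionVars false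

noncomputable section

namespace Pool.Agent.BR49

variable {V : Type*} [NormedAddCommGroup V] [NormedSpace ℝ V] {U : Set V}

/-- The length of a path in `U`, measured with the norm of `V`. -/
def plen {x y : U} (c : Path x y) : ℝ≥0∞ :=
  eVariationOn (fun t : I => ((c t : U) : V)) univ

lemma plen_refl (x : U) : plen (Path.refl x) = 0 := by
  unfold plen
  apply eVariationOn.constant_on
  rintro _ ⟨a, _, rfl⟩ _ ⟨b, _, rfl⟩
  rfl

lemma plen_symm_le {x y : U} (c : Path x y) : plen c.symm ≤ plen c := by
  unfold plen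
  have : (fun t : I => ((c.symm t : U) : V)) = (fun t : I => ((c t : U) : V)) ∘ σ := by
    ext t; rfl
  rw [this]
  apply eVariationOn.comp_le_of_antitoneOn
  · intro a _ b _ hab
    exact unitInterval.symm_le_symm.2 hab
  · intro a _; trivial

lemma plen_symm {x y : U} (c : Path x y) : plen c.symm = plen c :=
  le_antisymm (plen_symm_le c) (by simpa using plen_symm_le c.symm)

lemma plen_trans_le {x y z : U} (c : Path x y) (d : Path y z) :
    plen (c.trans d) ≤ plen c + plen d := by
  unfold plen
  have hhalf : (1/2 : ℝ) ∈ I := ⟨by norm_num, by norm_num⟩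
  set m : I := ⟨1/2, hhalf⟩ with hm
  have huniv : (univ : Set I) = Iic m ∪ Ici m := by
    ext t; simp
  have hsplit : ∀ f : I → V, eVariationOn f univ =
      eVariationOn f (Iic m) + eVariationOn f (Ici m) := by
    intro f
    rw [huniv]
    exact eVariationOn.union f (x := m) ⟨mem_Iic.2 le_rfl, fun a ha => ha⟩
      ⟨mem_Ici.2 le_rfl, fun a ha => ha⟩
  rw [hsplit]
  apply add_le_add
  · set φ : I → I := fun t => Set.projIcc (0:ℝ) 1 zero_le_one (2 * t) with hφ
    have h1 : EqOn (fun t : I => (((c.trans d) t : U) : V))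
        ((fun t : I => ((c t : U) : V)) ∘ φ) (Iic m) := by
      intro t ht
      have ht' : (t : ℝ) ≤ 1/2 := ht
      have h2 : (2 * (t:ℝ)) ∈ Icc (0:ℝ) 1 := ⟨by linarith [t.2.1], by linarith⟩
      simp only [Function.comp, hφ]
      rw [Path.trans_apply, dif_pos ht', Set.projIcc_of_mem zero_le_one h2]
    rw [eVariationOn.congr h1]
    refine (eVariationOn.comp_le_of_monotoneOn _ φ ?_ (fun _ _ => mem_univ _))
    intro a _ b _ hab
    apply Set.monotone_projIcc
    have : (a:ℝ) ≤ b := hab
    simpa using this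
  · set φ : I → I := fun t => Set.projIcc (0:ℝ) 1 zero_le_one (2 * t - 1) with hφ
    have h1 : EqOn (fun t : I => (((c.trans d) t : U) : V))
        ((fun t : I => ((d t : U) : V)) ∘ φ) (Ici m) := by
      intro t ht
      have ht' : (1/2:ℝ) ≤ t := ht
      have h2 : (2 * (t:ℝ) - 1) ∈ Icc (0:ℝ) 1 := ⟨by linarith, by linarith [t.2.2]⟩
      simp only [Function.comp, hφ]
      rw [Path.trans_apply]
      split_ifs with h3
      · have h4 : (t:ℝ) = 1/2 := le_antisymm h3 ht'
        rw [Set.projIcc_of_mem zero_le_one h2]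
        have e1 : (⟨2 * (t:ℝ), (unitInterval.mul_pos_mem_iff zero_lt_two).2
            ⟨t.2.1, h3⟩⟩ : I) = 1 := by
          ext; simp [h4]
        have e2 : (⟨2 * (t:ℝ) - 1, h2⟩ : I) = 0 := by
          ext; simp [h4]
        rw [e1, e2]; simp
      · rw [Set.projIcc_of_mem zero_le_one h2]
    rw [eVariationOn.congr h1]
    refine (eVariationOn.comp_le_of_monotoneOn _ φ ?_ (fun _ _ => mem_univ _))
    intro a _ b _ hab
    apply Set.monotone_projIcc
    have : (a:ℝ) ≤ b := hab
    linarith

/-- The straight path between two points of `U` whose segment lies in `U`. -/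
def seg {x y : U} (h : segment ℝ (x:V) y ⊆ U) : Path x y where
  toFun t := ⟨AffineMap.lineMap (x:V) (y:V) (t:ℝ), h (by
    rw [segment_eq_image_lineMap]; exact ⟨t, t.2, rfl⟩)⟩
  continuous_toFun := by
    refine Continuous.subtype_mk ?_ _
    exact AffineMap.lineMap_continuous.comp continuous_subtype_val
  source' := by ext; simp
  target' := by ext; simp

@[simp] lemma seg_apply {x y : U} (h : segment ℝ (x:V) y ⊆ U) (t : I) :
    ((seg h t : U) : V) = AffineMap.lineMap (x:V) (y:V) (t:ℝ) := rfl

lemma eVariationOn_le_of_lipschitz {f : I → V} {K : ℝ≥0} (hf : ∀ s t : I, s ≤ t →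
    edist (f s) (f t) ≤ K * edist (s:ℝ) (t:ℝ)) : eVariationOn f univ ≤ K := by
  unfold eVariationOn
  apply iSup_le
  rintro ⟨n, ⟨u, hu, _⟩⟩
  have hmono : ∀ i, u i ≤ u (i+1) := fun i => hu (Nat.le_succ i)
  calc ∑ i ∈ Finset.range n, edist (f (u (i + 1))) (f (u i))
      ≤ ∑ i ∈ Finset.range n, (K:ℝ≥0∞) * ENNReal.ofReal ((u (i+1) : ℝ) - (u i : ℝ)) := by
        apply Finset.sum_le_sum
        intro i _
        rw [edist_comm]
        refine (hf _ _ (hmono i)).trans (le_of_eq ?_)
        congr 1
        rw [edist_comm, edist_dist, Real.dist_eq, abs_of_nonneg]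
        have : (u i : ℝ) ≤ u (i+1) := hmono i
        linarith
    _ = (K:ℝ≥0∞) * ∑ i ∈ Finset.range n, ENNReal.ofReal ((u (i+1) : ℝ) - (u i : ℝ)) := by
        rw [Finset.mul_sum]
    _ ≤ (K:ℝ≥0∞) * 1 := by
        gcongr
        rw [← ENNReal.ofReal_sum_of_nonneg]
        · rw [Finset.sum_range_sub (fun i => ((u i : I) : ℝ))]
          rw [← ENNReal.ofReal_one]
          apply ENNReal.ofReal_le_ofReal
          linarith [(u n).2.2, (u 0).2.1]
        · intro i _
          have : (u i : ℝ) ≤ u (i+1) := hmono i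
          linarith
    _ = K := mul_one _

lemma plen_seg_le {x y : U} (h : segment ℝ (x:V) y ⊆ U) :
    plen (seg h) ≤ edist (x:V) y := by
  unfold plen
  rw [edist_nndist]
  apply eVariationOn_le_of_lipschitz
  intro s t _
  rw [seg_apply, seg_apply, edist_nndist, edist_nndist, ← ENNReal.coe_mul, ENNReal.coe_le_coe]
  rw [← NNReal.coe_le_coe]
  simp only [coe_nndist, NNReal.coe_mul]
  rw [dist_lineMap_lineMap, mul_comm]

/-- Two paths joined by straight segments in `U` are homotopic. -/
lemma homotopic_of_segment {x y : U} (c d : Path x y)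
    (h : ∀ t, segment ℝ (c t : V) (d t) ⊆ U) : Path.Homotopic c d := by
  refine ⟨⟨⟨⟨fun st => ⟨AffineMap.lineMap (c st.2 : V) (d st.2 : V) (st.1:ℝ), h st.2 (by
    rw [segment_eq_image_lineMap]; exact ⟨st.1, st.1.2, rfl⟩)⟩, ?_⟩, ?_, ?_⟩, ?_⟩⟩
  · refine Continuous.subtype_mk ?_ _
    simp only [AffineMap.lineMap_apply, vsub_eq_sub, vadd_eq_add]
    fun_prop
  · intro t; ext; simp
  · intro t; ext; simp
  · intro t s hs
    rcases hs with rfl | hs
    · ext; simp
    · rw [Set.mem_singleton_iff] at hs
      subst hs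
      ext; simp

variable (U) in
/-- The universal covering space of `U` with base point `x₀`: homotopy classes (relative to end
points) of paths in `U` starting at `x₀`. -/
structure Cov (x₀ : U) where
  /-- the end point -/
  pt : U
  /-- the homotopy class -/
  cls : Path.Homotopic.Quotient x₀ pt

variable {x₀ : U}

/-- The length distance on the universal covering. -/
instance : EDist (Cov U x₀) :=
  ⟨fun p q => ⨅ (c : Path p.pt q.pt) (_ : p.cls.trans (.mk c) = q.cls), plen c⟩

lemma edist_def (p q : Cov U x₀) : edist p q =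
    ⨅ (c : Path p.pt q.pt) (_ : p.cls.trans (.mk c) = q.cls), plen c := rfl

lemma edist_le_plen {p q : Cov U x₀} (c : Path p.pt q.pt)
    (h : p.cls.trans (.mk c) = q.cls) : edist p q ≤ plen c :=
  iInf₂_le c h

lemma exists_path_of_edist_lt {p q : Cov U x₀} {L : ℝ≥0∞} (h : edist p q < L) :
    ∃ c : Path p.pt q.pt, p.cls.trans (.mk c) = q.cls ∧ plen c < L := by
  rw [edist_def, iInf_lt_iff] at h
  obtain ⟨c, hc⟩ := h
  rw [iInf_lt_iff] at hc
  obtain ⟨h1, h2⟩ := hc
  exact ⟨c, h1, h2⟩

lemma quot_mk_refl (x : U) : (Path.Homotopic.Quotient.mk (Path.refl x)) =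
    Path.Homotopic.Quotient.refl x := rfl

lemma edist_self' (p : Cov U x₀) : edist p p = 0 := by
  apply le_antisymm _ bot_le
  have := edist_le_plen (p := p) (q := p) (Path.refl _)
    (by rw [quot_mk_refl, Path.Homotopic.Quotient.trans_refl])
  rwa [plen_refl] at this

lemma edist_comm_le (p q : Cov U x₀) : edist p q ≤ edist q p := by
  rw [edist_def q p]
  refine le_iInf₂ fun c hc => ?_
  rw [← plen_symm]
  apply edist_le_plen
  rw [← hc, Path.Homotopic.Quotient.mk_symm, Path.Homotopic.Quotient.trans_assoc,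
    Path.Homotopic.Quotient.trans_symm, Path.Homotopic.Quotient.trans_refl]

lemma edist_triangle' (p q r : Cov U x₀) : edist p r ≤ edist p q + edist q r := by
  refine ENNReal.le_of_forall_pos_le_add ?_
  intro ε hε hfin
  have h1 : edist p q < edist p q + (ε/2 : ℝ≥0) := by
    apply ENNReal.lt_add_right
    · exact (lt_of_le_of_lt le_self_add hfin).ne
    · simp [hε.ne']
  have h2 : edist q r < edist q r + (ε/2 : ℝ≥0) := by
    apply ENNReal.lt_add_right
    · exact (lt_of_le_of_lt le_add_self hfin).ne
    · simp [hε.ne']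
  obtain ⟨c, hc, hcl⟩ := exists_path_of_edist_lt h1
  obtain ⟨d, hd, hdl⟩ := exists_path_of_edist_lt h2
  have h3 : edist p r ≤ plen (c.trans d) := by
    apply edist_le_plen
    rw [Path.Homotopic.Quotient.mk_trans, ← Path.Homotopic.Quotient.trans_assoc, hc, hd]
  calc edist p r ≤ plen (c.trans d) := h3
    _ ≤ plen c + plen d := plen_trans_le c d
    _ ≤ (edist p q + (ε/2 : ℝ≥0)) + (edist q r + (ε/2 : ℝ≥0)) := add_le_add hcl.le hdl.le
    _ = edist p q + edist q r + ε := by
      have : ((ε/2 : ℝ≥0) : ℝ≥0∞) + (ε/2 : ℝ≥0) = ε := by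
        rw [← ENNReal.coe_add, add_halves]
      rw [← this]; ring

instance : PseudoEMetricSpace (Cov U x₀) where
  edist_self := edist_self'
  edist_comm p q := le_antisymm (edist_comm_le p q) (edist_comm_le q p)
  edist_triangle := edist_triangle'

/-- Move a point of the covering along a straight segment contained in `U`. -/
def Cov.step (p : Cov U x₀) (y : U) (h : segment ℝ (p.pt:V) y ⊆ U) : Cov U x₀ :=
  ⟨y, p.cls.trans (.mk (seg h))⟩

@[simp] lemma step_pt (p : Cov U x₀) (y : U) (h : segment ℝ (p.pt:V) y ⊆ U) :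
    (p.step y h).pt = y := rfl

lemma edist_step_le (p : Cov U x₀) (y : U) (h : segment ℝ (p.pt:V) y ⊆ U) :
    edist p (p.step y h) ≤ edist (p.pt:V) y :=
  (edist_le_plen (q := p.step y h) (seg h) rfl).trans (plen_seg_le h)

lemma edist_pt_le (p q : Cov U x₀) : edist (p.pt:V) q.pt ≤ edist p q := by
  rw [edist_def]
  refine le_iInf₂ fun c _ => ?_
  have := eVariationOn.edist_le (fun t : I => ((c t : U) : V)) (mem_univ 0) (mem_univ 1)
  unfold plen
  simpa using this

variable (U) in
/-- `U` is locally convex: small balls around points of `U` meet `U` in convex sets. -/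
class LocConvex : Prop where
  exists_ball : ∀ x ∈ U, ∃ ε > 0, Convex ℝ (U ∩ ball x ε)

/-- A chain of segments in the covering. -/
def IsChain (P : ℕ → Cov U x₀) (N : ℕ) : Prop :=
  ∀ k < N, ∃ h, (P k).step (P (k+1)).pt h = P (k+1)

/-- Initial part of a path. -/
def pre {X : Type*} [TopologicalSpace X] {a b : X} (c : Path a b) (t : I) : Path a (c t) :=
  (c.subpath 0 t).cast c.source.symm rfl

lemma pre_trans {X : Type*} [TopologicalSpace X] {a b : X} (c : Path a b) (s t : I) :
    Path.Homotopic ((pre c s).trans (c.subpath s t)) (pre c t) := by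
  have h := Path.Homotopy.subpathTransSubpath c 0 s t
  have h1 : ((pre c s).trans (c.subpath s t)) =
      ((c.subpath 0 s).trans (c.subpath s t)).cast c.source.symm rfl := by
    ext u
    simp only [pre, Path.trans_apply, Path.cast_coe]
  rw [h1]
  exact ⟨h.pathCast _ _⟩

lemma pre_zero {X : Type*} [TopologicalSpace X] {a b : X} (c : Path a b) :
    (pre c 0).cast rfl c.source.symm = Path.refl a := by
  ext u; simp [pre]

lemma pre_one {X : Type*} [TopologicalSpace X] {a b : X} (c : Path a b) :
    (pre c 1).cast rfl c.target.symm = c := by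
  ext u; simp [pre]

lemma Cov.ext' {p q : Cov U x₀} (h : p.pt = q.pt)
    (h' : p.cls.cast rfl h.symm = q.cls) : p = q := by
  cases p; cases q
  simp only at h
  subst h
  simp only [Path.Homotopic.Quotient.cast_rfl_rfl] at h'
  rw [h']

lemma trans_cast_right {X : Type*} [TopologicalSpace X] {a b c d : X}
    (P : Path.Homotopic.Quotient a b) (Q : Path.Homotopic.Quotient b c) (h : d = c) :
    (P.trans Q).cast rfl h = P.trans (Q.cast rfl h) := by
  subst h
  simp

/-- The point of the covering reached at time `t` along the lift of a path. -/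
def alongPt (p : Cov U x₀) {y : U} (c : Path p.pt y) (t : I) : Cov U x₀ :=
  ⟨c t, p.cls.trans (.mk (pre c t))⟩

lemma alongPt_zero (p : Cov U x₀) {y : U} (c : Path p.pt y) : alongPt p c 0 = p := by
  refine Cov.ext' (by simp [alongPt]) ?_
  simp only [alongPt]
  rw [trans_cast_right, ← Path.Homotopic.Quotient.mk_cast, pre_zero, quot_mk_refl,
    Path.Homotopic.Quotient.trans_refl]

lemma alongPt_one (p : Cov U x₀) {y : U} (c : Path p.pt y) :
    alongPt p c 1 = ⟨y, p.cls.trans (.mk c)⟩ := by
  refine Cov.ext' (by simp [alongPt]) ?_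
  simp only [alongPt]
  rw [trans_cast_right, ← Path.Homotopic.Quotient.mk_cast, pre_one]

lemma alongPt_step (p : Cov U x₀) {y : U} (c : Path p.pt y) (s t : I)
    (h : segment ℝ (c s : V) (c t) ⊆ U)
    (hh : Path.Homotopic (c.subpath s t) (seg h)) :
    (alongPt p c s).step (c t) h = alongPt p c t := by
  unfold Cov.step alongPt
  congr 1
  simp only
  rw [Path.Homotopic.Quotient.trans_assoc]
  congr 1
  rw [← Path.Homotopic.Quotient.mk_trans, Path.Homotopic.Quotient.eq]
  refine Path.Homotopic.trans ?_ (pre_trans c s t)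
  exact Path.Homotopic.hcomp (Path.Homotopic.refl _) hh.symm

/-- Any path is homotopic to a fine polygon. -/
theorem exists_chain [LocConvex U] (δ : U → ℝ) (hδ : ∀ x, 0 < δ x) (p : Cov U x₀) {y : U}
    (c : Path p.pt y) :
    ∃ (P : ℕ → Cov U x₀) (N : ℕ), P 0 = p ∧ P N = ⟨y, p.cls.trans (.mk c)⟩ ∧ IsChain P N ∧
      (∑ k ∈ Finset.range N, edist ((P k).pt : V) (P (k+1)).pt ≤ plen c) ∧
      (∀ k, ∃ t : I, (P k).pt = c t) ∧
      (∀ k, ∃ x : U, dist ((P k).pt : V) x < δ x ∧ dist ((P (k+1)).pt : V) x < δ x) := by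
  choose! ε hε hconv using (LocConvex.exists_ball (U := U))
  set r : U → ℝ := fun x => min (ε x) (δ x) with hr
  have hrpos : ∀ x : U, 0 < r x := fun x => lt_min (hε x x.2) (hδ x)
  obtain ⟨t, ht0, htm, ⟨N, hN⟩, hcov⟩ :=
    exists_monotone_Icc_subset_open_cover_unitInterval
      (c := fun x : U => {s : I | dist ((c s : U) : V) x < r x}) (by
        intro x
        exact isOpen_lt (by fun_prop) continuous_const) (by
        intro s _
        rw [mem_iUnion]
        exact ⟨c s, by simpa using hrpos (c s)⟩)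
  refine ⟨fun k => alongPt p c (t k), N, ?_, ?_, ?_, ?_, ?_, ?_⟩
  · simp only [ht0]; exact alongPt_zero p c
  · simp only [hN N le_rfl]; exact alongPt_one p c
  · intro k _
    obtain ⟨x, hx⟩ := hcov k
    have hk : t k ≤ t (k+1) := htm (Nat.le_succ k)
    have hcx : Convex ℝ (U ∩ ball (x:V) (ε x)) := hconv x x.2
    have hmem : ∀ s ∈ Icc (t k) (t (k+1)), ((c s : U) : V) ∈ U ∩ ball (x:V) (ε x) := by
      intro s hs
      refine ⟨(c s).2, ?_⟩
      have := hx hs
      rw [mem_ball]
      exact lt_of_lt_of_le this (min_le_left _ _)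
    have hseg : segment ℝ ((c (t k) : U) : V) (c (t (k+1))) ⊆ U :=
      (hcx.segment_subset (hmem _ ⟨le_rfl, hk⟩) (hmem _ ⟨hk, le_rfl⟩)).trans inter_subset_left
    refine ⟨hseg, alongPt_step p c _ _ hseg ?_⟩
    apply homotopic_of_segment
    intro s
    refine (hcx.segment_subset ?_ ?_).trans inter_subset_left
    · have : (c.subpath (t k) (t (k+1))) s ∈ c '' (Icc (t k) (t (k+1))) := by
        rw [← Path.range_subpath_of_le c _ _ hk]; exact mem_range_self s
      obtain ⟨u, hu, hu'⟩ := this
      rw [← hu']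
      exact hmem u hu
    · have h1 := hcx.segment_subset (hmem _ ⟨le_rfl, hk⟩) (hmem _ ⟨hk, le_rfl⟩)
      apply h1
      rw [segment_eq_image_lineMap]
      exact ⟨s, s.2, rfl⟩
  · have := eVariationOn.sum_le (f := fun s : I => ((c s : U) : V)) (s := univ) (n := N) (u := t)
      htm (fun _ => mem_univ _)
    refine le_trans (le_of_eq ?_) this
    apply Finset.sum_congr rfl
    intro k _
    rw [edist_comm]; rfl
  · intro k; exact ⟨t k, rfl⟩
  · intro k
    obtain ⟨x, hx⟩ := hcov k
    have hk : t k ≤ t (k+1) := htm (Nat.le_succ k)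
    exact ⟨x, lt_of_lt_of_le (hx ⟨le_rfl, hk⟩) (min_le_right _ _),
      lt_of_lt_of_le (hx ⟨hk, le_rfl⟩) (min_le_right _ _)⟩

end Pool.Agent.BR49
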