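import Mathlib

/-!
# CAT(0) spaces

The definition of Alexandrov (triangles are not fatter than comparison triangles) and the
characterisation of Bruhat and Tits by midpoints.
-/

open Set Metric Topology

noncomputable section

namespace Pool.Agent.BR49

/-- `γ` restricted to `[0, 1]` is a geodesic from `P` to `Q`, parametrised proportionally to arc
length. -/
def IsGeod {X : Type*} [PseudoMetricSpace X] (γ : ℝ → X) (P Q : X) : Prop :=
  γ 0 = P ∧ γ 1 = Q ∧ ∀ s ∈ Icc (0:ℝ) 1, ∀ t ∈ Icc (0:ℝ) 1, dist (γ s) (γ t) = |s - t| * dist P Q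

/-- CAT(0) spaces in the sense of Alexandrov: complete geodesic metric spaces in which every
geodesic triangle is not fatter than its comparison triangle in the Euclidean plane: the distance
of two points on two sides of the triangle (issuing from the common vertex `P`) is at most the
distance of the corresponding points of the comparison triangle `p q r`. -/
structure CAT0 (X : Type*) [MetricSpace X] : Prop where
  complete : CompleteSpace X
  exists_geod : ∀ P Q : X, ∃ γ : ℝ → X, IsGeod γ P Q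
  thin : ∀ (P Q R : X) (γ δ : ℝ → X), IsGeod γ P Q → IsGeod δ P R →
    ∀ p q r : EuclideanSpace ℝ (Fin 2), dist p q = dist P Q → dist p r = dist P R →
    dist q r = dist Q R → ∀ s ∈ Icc (0:ℝ) 1, ∀ t ∈ Icc (0:ℝ) 1,
      dist (γ s) (δ t) ≤ dist (AffineMap.lineMap p q s : EuclideanSpace ℝ (Fin 2))
        (AffineMap.lineMap p r t)

/-- The inequality of Bruhat and Tits for midpoints. -/
def CN (X : Type*) [PseudoMetricSpace X] : Prop :=
  ∀ P Q : X, ∃ M : X, ∀ Z : X, dist Z M ^ 2 ≤ dist Z P ^ 2 / 2 + dist Z Q ^ 2 / 2 - dist P Q ^ 2 / 4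

/-- Comparison triangles exist. -/
lemma exists_comparison {a b c : ℝ} (ha : 0 ≤ a) (hb : 0 ≤ b) (hc : 0 ≤ c) (h1 : a ≤ b + c)
    (h2 : b ≤ a + c) (h3 : c ≤ a + b) :
    ∃ p q r : EuclideanSpace ℝ (Fin 2), dist p q = a ∧ dist p r = b ∧ dist q r = c := by
  rcases eq_or_lt_of_le ha with h | hpos
  · subst h
    have hbc : b = c := by linarith
    subst hbc
    refine ⟨0, 0, !₂[b, 0], by simp, ?_, ?_⟩ <;>
    · rw [dist_comm, dist_zero_right, EuclideanSpace.norm_eq]
      simp [abs_of_nonneg hb, Real.sqrt_sq_eq_abs]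
  · set x : ℝ := (a^2 + b^2 - c^2) / (2 * a) with hx
    have hxa : 2 * a * x = a^2 + b^2 - c^2 := by rw [hx]; field_simp
    have hxb : x^2 ≤ b^2 := by
      have e1 : 2 * a * (b - x) = c^2 - (a - b)^2 := by linarith [hxa]
      have e2 : 2 * a * (b + x) = (a + b)^2 - c^2 := by linarith [hxa]
      have e3 : 0 ≤ 2 * a * (b - x) := by
        rw [e1, sub_nonneg]
        exact sq_le_sq' (by linarith) (by linarith)
      have e4 : 0 ≤ 2 * a * (b + x) := by
        rw [e2, sub_nonneg]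
        exact sq_le_sq' (by linarith) (by linarith)
      have e5 : 0 ≤ b - x := by
        by_contra hcon
        push Not at hcon
        have := mul_neg_of_pos_of_neg (by linarith : 0 < 2 * a) hcon
        linarith
      have e6 : 0 ≤ b + x := by
        by_contra hcon
        push Not at hcon
        have := mul_neg_of_pos_of_neg (by linarith : 0 < 2 * a) hcon
        linarith
      nlinarith
    have hy : √(b^2 - x^2) ^ 2 = b^2 - x^2 := Real.sq_sqrt (by linarith)
    refine ⟨0, !₂[a, 0], !₂[x, √(b^2 - x^2)], ?_, ?_, ?_⟩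
    · rw [dist_comm, dist_zero_right, EuclideanSpace.norm_eq]
      simp [abs_of_nonneg ha, Real.sqrt_sq_eq_abs]
    · rw [dist_comm, dist_zero_right, EuclideanSpace.norm_eq]
      simp only [Fin.sum_univ_two, Real.norm_eq_abs, sq_abs]
      simp only [Matrix.cons_val_zero, Matrix.cons_val_one]
      rw [hy]
      rw [show x^2 + (b^2 - x^2) = b^2 by ring, Real.sqrt_sq hb]
    · rw [dist_eq_norm, EuclideanSpace.norm_eq]
      simp only [Fin.sum_univ_two, Real.norm_eq_abs, sq_abs, PiLp.sub_apply]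
      simp only [Matrix.cons_val_zero, Matrix.cons_val_one]
      rw [show (a - x)^2 + (0 - √(b^2 - x^2))^2 = a^2 - 2*a*x + x^2 + √(b^2 - x^2)^2 by ring, hy,
        hxa, show a^2 - (a^2+b^2-c^2) + x^2 + (b^2 - x^2) = c^2 by ring, Real.sqrt_sq hc]

/-- Distances in a Euclidean triangle. -/
lemma dist_lineMap_sq {V : Type*} [NormedAddCommGroup V] [InnerProductSpace ℝ V] (p q r : V)
    (s t : ℝ) : dist (AffineMap.lineMap p q s : V) (AffineMap.lineMap p r t) ^ 2 =
      s^2 * dist p q ^ 2 + t^2 * dist p r ^ 2 -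
        s * t * (dist p q ^ 2 + dist p r ^ 2 - dist q r ^ 2) := by
  have e1 : (AffineMap.lineMap p q s : V) - AffineMap.lineMap p r t =
      s • (q - p) - t • (r - p) := by
    simp only [AffineMap.lineMap_apply, vsub_eq_sub, vadd_eq_add]; abel
  have e2 : q - r = (q - p) - (r - p) := by abel
  have h3 := norm_sub_sq_real (s • (q - p)) (t • (r - p))
  have h4 := norm_sub_sq_real (q - p) (r - p)
  rw [← e2] at h4
  rw [norm_smul, norm_smul, inner_smul_left, inner_smul_right, mul_pow, mul_pow,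
    Real.norm_eq_abs, Real.norm_eq_abs, sq_abs, sq_abs] at h3
  simp only [conj_trivial] at h3
  rw [dist_eq_norm, e1, dist_comm p q, dist_comm p r, dist_eq_norm q p, dist_eq_norm r p,
    dist_eq_norm q r, h3, h4]
  ring

theorem CAT0.cn {X : Type*} [MetricSpace X] (h : CAT0 X) : CN X := by
  intro P Q
  obtain ⟨γ, hγ⟩ := h.exists_geod P Q
  refine ⟨γ (1/2), fun Z => ?_⟩
  obtain ⟨δ, hδ⟩ := h.exists_geod P Z
  obtain ⟨p, q, r, h1, h2, h3⟩ := exists_comparison (a := dist P Q) (b := dist P Z)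
    (c := dist Q Z) dist_nonneg dist_nonneg dist_nonneg
    (by rw [dist_comm Q Z]; exact dist_triangle _ _ _) (dist_triangle _ _ _)
    (by rw [dist_comm P Q]; exact dist_triangle _ _ _)
  have hh : (1/2 : ℝ) ∈ Icc (0:ℝ) 1 := ⟨by norm_num, by norm_num⟩
  have h11 : (1 : ℝ) ∈ Icc (0:ℝ) 1 := ⟨by norm_num, le_rfl⟩
  have key := h.thin P Q Z γ δ hγ hδ p q r h1 h2 h3 (1/2) hh 1 h11
  rw [hδ.2.1] at key
  have key2 := pow_le_pow_left₀ dist_nonneg key 2
  rw [dist_lineMap_sq, h1, h2, h3] at key2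
  rw [dist_comm Z, dist_comm Z P, dist_comm Z Q]
  linarith

section
variable {X : Type*} [PseudoMetricSpace X]

/-- `M` is the point at time `t` between `P` and `Q`, in the sense of the comparison
inequality. -/
def IsPt (P Q M : X) (t : ℝ) : Prop :=
  ∀ Z, dist Z M ^ 2 ≤ (1 - t) * dist Z P ^ 2 + t * dist Z Q ^ 2 - t * (1 - t) * dist P Q ^ 2

lemma IsPt.left {P Q M : X} {t : ℝ} (h : IsPt P Q M t) (ht : 0 ≤ t) :
    dist P M ≤ t * dist P Q := by
  have h1 := h P
  rw [dist_self] at h1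
  have h2 : dist P M ^ 2 ≤ (t * dist P Q) ^ 2 := by nlinarith
  exact (sq_le_sq₀ dist_nonneg (mul_nonneg ht dist_nonneg)).1 h2

lemma IsPt.right {P Q M : X} {t : ℝ} (h : IsPt P Q M t) (ht : t ≤ 1) :
    dist Q M ≤ (1 - t) * dist P Q := by
  have h1 := h Q
  rw [dist_self, dist_comm Q P] at h1
  have h2 : dist Q M ^ 2 ≤ ((1 - t) * dist P Q) ^ 2 := by nlinarith
  exact (sq_le_sq₀ dist_nonneg (mul_nonneg (by linarith) dist_nonneg)).1 h2

lemma IsPt.dist_le {P Q M : X} {t : ℝ} (h : IsPt P Q M t) {N : X} {s : ℝ} (ht : 0 ≤ t)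
    (ht1 : t ≤ 1) (h1 : dist P N ≤ s * dist P Q) (h2 : dist Q N ≤ (1 - s) * dist P Q) :
    dist N M ≤ |s - t| * dist P Q := by
  have h3 := h N
  rw [dist_comm N P, dist_comm N Q] at h3
  have h4 := pow_le_pow_left₀ dist_nonneg h1 2
  have h5 := pow_le_pow_left₀ dist_nonneg h2 2
  have h6 : dist N M ^ 2 ≤ (|s - t| * dist P Q) ^ 2 := by
    rw [mul_pow, sq_abs]
    have e : (s - t)^2 * dist P Q ^ 2 = (1 - t) * (s * dist P Q) ^ 2 +
      t * ((1 - s) * dist P Q)^2 - t * (1 - t) * dist P Q ^ 2 := by ring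
    rw [e]
    have h7 := mul_le_mul_of_nonneg_left h4 (by linarith : 0 ≤ 1 - t)
    have h8 := mul_le_mul_of_nonneg_left h5 ht
    linarith
  exact (sq_le_sq₀ dist_nonneg (mul_nonneg (abs_nonneg _) dist_nonneg)).1 h6

lemma IsPt.dist_eq {P Q M N : X} {s t : ℝ} (hM : IsPt P Q M s) (hN : IsPt P Q N t)
    (hs : 0 ≤ s) (hs1 : s ≤ 1) (ht : 0 ≤ t) (ht1 : t ≤ 1) :
    dist M N = |s - t| * dist P Q := by
  apply le_antisymm
  · exact hN.dist_le ht ht1 (hM.left hs) (hM.right hs1)
  · have h1 := hM.left hs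
    have h2 := hM.right hs1
    have h3 := hN.left ht
    have h4 := hN.right ht1
    have h5 : dist P Q ≤ dist P M + dist M N + dist N Q :=
      (dist_triangle P N Q).trans (by linarith [dist_triangle P M N])
    have h6 : dist P Q ≤ dist P N + dist N M + dist M Q :=
      (dist_triangle P M Q).trans (by linarith [dist_triangle P N M])
    rw [dist_comm N Q] at h5
    rw [dist_comm M Q, dist_comm N M] at h6
    rcases abs_cases (s - t) with ⟨h, _⟩ | ⟨h, _⟩ <;> rw [h]
    · linarith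
    · linarith

lemma IsPt.mid (hX : CN X) {P Q M N : X} {s t : ℝ} (hM : IsPt P Q M s) (hN : IsPt P Q N t)
    (hs : 0 ≤ s) (hs1 : s ≤ 1) (ht : 0 ≤ t) (ht1 : t ≤ 1) :
    ∃ K, IsPt P Q K ((s + t) / 2) := by
  obtain ⟨K, hK⟩ := hX M N
  refine ⟨K, fun Z => ?_⟩
  have h1 := hK Z
  have h2 := hM Z
  have h3 := hN Z
  rw [hM.dist_eq hN hs hs1 ht ht1, mul_pow, sq_abs] at h1
  nlinarith

end

theorem cat0_of_cn {X : Type*} [MetricSpace X] [CompleteSpace X] (hX : CN X) : CAT0 X := by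
  have key : ∀ P Q : X, ∀ t ∈ Icc (0:ℝ) 1, ∃ M, IsPt P Q M t := by
    intro P Q
    set T : Set ℝ := {t | t ∈ Icc (0:ℝ) 1 ∧ ∃ M, IsPt P Q M t} with hT
    have h0 : (0:ℝ) ∈ T := ⟨⟨le_rfl, zero_le_one⟩, P, fun Z => by simp⟩
    have h1 : (1:ℝ) ∈ T := ⟨⟨zero_le_one, le_rfl⟩, Q, fun Z => by simp⟩
    have hmid : ∀ s ∈ T, ∀ t ∈ T, (s + t) / 2 ∈ T := by
      rintro s ⟨hs, M, hM⟩ t ⟨ht, N, hN⟩
      exact ⟨⟨by linarith [hs.1, ht.1], by linarith [hs.2, ht.2]⟩,
        hM.mid hX hN hs.1 hs.2 ht.1 ht.2⟩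
    have hclosed : IsClosed T := by
      rw [← isSeqClosed_iff_isClosed]
      intro u t hu hut
      choose hI M hM using hu
      have htI : t ∈ Icc (0:ℝ) 1 := isClosed_Icc.mem_of_tendsto hut (Filter.Eventually.of_forall hI)
      have hcau : CauchySeq M := by
        have hu' := hut.cauchySeq
        rw [Metric.cauchySeq_iff] at hu' ⊢
        intro ε hε
        obtain ⟨N, hN⟩ := hu' (ε / (dist P Q + 1)) (by positivity)
        refine ⟨N, fun m hm n hn => ?_⟩
        rw [(hM m).dist_eq (hM n) (hI m).1 (hI m).2 (hI n).1 (hI n).2]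
        have h2 := hN m hm n hn
        rw [Real.dist_eq] at h2
        have h3 : 0 < dist P Q + 1 := by positivity
        calc |u m - u n| * dist P Q ≤ |u m - u n| * (dist P Q + 1) := by
              apply mul_le_mul_of_nonneg_left (by linarith) (abs_nonneg _)
          _ < ε / (dist P Q + 1) * (dist P Q + 1) := by
              apply mul_lt_mul_of_pos_right h2 h3
          _ = ε := by field_simp
      obtain ⟨L, hL⟩ := cauchySeq_tendsto_of_complete hcau
      refine ⟨htI, L, fun Z => ?_⟩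
      have hl : Filter.Tendsto (fun k => dist Z (M k) ^ 2) Filter.atTop (𝓝 (dist Z L ^ 2)) :=
        (tendsto_const_nhds.dist hL).pow 2
      have hr : Filter.Tendsto (fun k => (1 - u k) * dist Z P ^ 2 + u k * dist Z Q ^ 2 -
          u k * (1 - u k) * dist P Q ^ 2) Filter.atTop
          (𝓝 ((1 - t) * dist Z P ^ 2 + t * dist Z Q ^ 2 - t * (1 - t) * dist P Q ^ 2)) :=
        (((tendsto_const_nhds.sub hut).mul tendsto_const_nhds).add
          (hut.mul tendsto_const_nhds)).sub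
          ((hut.mul (tendsto_const_nhds.sub hut)).mul tendsto_const_nhds)
      exact le_of_tendsto_of_tendsto' hl hr (fun k => hM k Z)
    intro t ht
    by_contra hcon
    have htT : t ∉ T := fun h => hcon h.2
    set A : Set ℝ := T ∩ Icc 0 t with hA
    set B : Set ℝ := T ∩ Icc t 1 with hB
    have hAn : A.Nonempty := ⟨0, h0, le_rfl, ht.1⟩
    have hBn : B.Nonempty := ⟨1, h1, ht.2, le_rfl⟩
    have hAc : IsClosed A := hclosed.inter isClosed_Icc
    have hBc : IsClosed B := hclosed.inter isClosed_Icc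
    have hAb : BddAbove A := ⟨t, fun x hx => hx.2.2⟩
    have hBb : BddBelow B := ⟨t, fun x hx => hx.2.1⟩
    have hα := hAc.csSup_mem hAn hAb
    have hβ := hBc.csInf_mem hBn hBb
    set α := sSup A
    set β := sInf B
    have hαt : α < t := lt_of_le_of_ne hα.2.2 (fun h => htT (h ▸ hα.1))
    have hβt : t < β := lt_of_le_of_ne hβ.2.1 (fun h => htT (h ▸ hβ.1))
    have hm := hmid α hα.1 β hβ.1
    rcases le_total ((α + β)/2) t with h | h
    · have : (α + β)/2 ∈ A := ⟨hm, by linarith [hα.2.1], h⟩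
      have := le_csSup hAb this
      linarith
    · have : (α + β)/2 ∈ B := ⟨hm, h, by linarith [hβ.2.2]⟩
      have := csInf_le hBb this
      linarith
  have uniq : ∀ (P Q : X) (γ : ℝ → X), IsGeod γ P Q → ∀ t ∈ Icc (0:ℝ) 1, IsPt P Q (γ t) t := by
    intro P Q γ hγ t ht
    obtain ⟨M, hM⟩ := key P Q t ht
    have h0 : (0:ℝ) ∈ Icc (0:ℝ) 1 := ⟨le_rfl, zero_le_one⟩
    have h1 : (1:ℝ) ∈ Icc (0:ℝ) 1 := ⟨zero_le_one, le_rfl⟩
    have e1 := hγ.2.2 0 h0 t ht
    have e2 := hγ.2.2 1 h1 t ht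
    rw [hγ.1, zero_sub, abs_neg, abs_of_nonneg ht.1] at e1
    rw [hγ.2.1, abs_of_nonneg (by linarith [ht.2])] at e2
    have h3 := hM.dist_le ht.1 ht.2 (N := γ t) (s := t) e1.le e2.le
    rw [sub_self, abs_zero, zero_mul] at h3
    rw [dist_le_zero.1 h3]
    exact hM
  refine ⟨inferInstance, ?_, ?_⟩
  · intro P Q
    have : Nonempty X := ⟨P⟩
    choose! M hM using key P Q
    refine ⟨M, ?_, ?_, ?_⟩
    · have h0 : (0:ℝ) ∈ Icc (0:ℝ) 1 := ⟨le_rfl, zero_le_one⟩
      have := (hM 0 h0).left le_rfl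
      rw [zero_mul] at this
      exact (dist_le_zero.1 this).symm
    · have h1 : (1:ℝ) ∈ Icc (0:ℝ) 1 := ⟨zero_le_one, le_rfl⟩
      have := (hM 1 h1).right le_rfl
      rw [sub_self, zero_mul] at this
      exact (dist_le_zero.1 this).symm
    · intro s hs t ht
      exact (hM s hs).dist_eq (hM t ht) hs.1 hs.2 ht.1 ht.2
  · intro P Q R γ δ hγ hδ p q r h1 h2 h3 s hs t ht
    have e1 := uniq P Q γ hγ s hs (δ t)
    have e2 := uniq P R δ hδ t ht Q
    have h0 : (0:ℝ) ∈ Icc (0:ℝ) 1 := ⟨le_rfl, zero_le_one⟩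
    have e3 := hδ.2.2 t ht 0 h0
    rw [hδ.1, sub_zero, abs_of_nonneg ht.1] at e3
    rw [e3, dist_comm (δ t) Q] at e1
    rw [dist_comm Q P] at e2
    refine (sq_le_sq₀ dist_nonneg dist_nonneg).1 ?_
    rw [dist_lineMap_sq, h1, h2, h3, dist_comm (γ s)]
    have e4 := mul_le_mul_of_nonneg_left e2 hs.1
    linarith

theorem cat0_iff_cn {X : Type*} [MetricSpace X] [CompleteSpace X] : CAT0 X ↔ CN X :=
  ⟨fun h => h.cn, cat0_of_cn⟩

end Pool.Agent.BR49
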