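import Mathlib

/-!
# Averaging over choice functions
-/

open Finset

noncomputable section

namespace Pool.Agent.BR49

lemma sum_pi_apply {Q : Type*} [Fintype Q] [DecidableEq Q] {α : Q → Type*} [∀ q, Fintype (α q)]
    [Fintype (∀ q, α q)]
    [∀ q, Nonempty (α q)] (q : Q) (g : α q → ℝ) :
    (Fintype.card (α q) : ℝ) * ∑ f : (∀ q, α q), g (f q) =
      (Fintype.card (∀ q, α q) : ℝ) * ∑ x : α q, g x := by
  have e := Equiv.piSplitAt q α
  have h1 : ∑ f : (∀ q, α q), g (f q) =
      (Fintype.card (∀ j : { j // j ≠ q }, α j) : ℝ) * ∑ x : α q, g x := by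
    rw [← Equiv.sum_comp (Equiv.piSplitAt q α).symm, Fintype.sum_prod_type]
    have : ∀ (x : α q) (y : ∀ j : { j // j ≠ q }, α j),
        g ((Equiv.piSplitAt q α).symm (x, y) q) = g x := by
      intro x y
      simp [Equiv.piSplitAt]
    simp_rw [this]
    simp [mul_sum]
  have h2 : (Fintype.card (∀ q, α q) : ℝ) =
      Fintype.card (α q) * Fintype.card (∀ j : { j // j ≠ q }, α j) := by
    rw [Fintype.card_congr (Equiv.piSplitAt q α), Fintype.card_prod]
    push_cast; ring
  rw [h1, h2]; ring

/-- The set of choice functions of a partition: a choice of an element in every class. -/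
abbrev Choice {n : ℕ} (r : Setoid (Fin n)) := ∀ q : Quotient r, {i : Fin n // Quotient.mk r i = q}

instance {n : ℕ} (r : Setoid (Fin n)) (q : Quotient r) :
    Nonempty {i : Fin n // Quotient.mk r i = q} :=
  ⟨⟨q.out, Quotient.out_eq q⟩⟩

theorem sum_choice {n : ℕ} (r : Setoid (Fin n)) [Fintype (Quotient r)] [DecidableEq (Quotient r)]
    [∀ q : Quotient r, Fintype {i : Fin n // Quotient.mk r i = q}]
    [Fintype (Choice r)] (g : Fin n → ℝ) :
    ∑ f : Choice r, ∑ i, g (f (Quotient.mk r i)).1 =
      (Fintype.card (Choice r) : ℝ) * ∑ i, g i := by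
  rw [Finset.sum_comm]
  have h1 : ∀ q : Quotient r, ∑ f : Choice r, g (f q).1 =
      (Fintype.card (Choice r) : ℝ) / (Fintype.card {i : Fin n // Quotient.mk r i = q} : ℝ) *
        ∑ x : {i : Fin n // Quotient.mk r i = q}, g x.1 := by
    intro q
    have h := sum_pi_apply (α := fun q : Quotient r => {i : Fin n // Quotient.mk r i = q}) q
      (fun x => g x.1)
    have hc : (Fintype.card {i : Fin n // Quotient.mk r i = q} : ℝ) ≠ 0 := by
      simp [Fintype.card_ne_zero]
    field_simp
    rw [mul_comm]
    exact h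
  simp_rw [h1]
  have h2 : ∀ G : Quotient r → ℝ, ∑ i, G (Quotient.mk r i) =
      ∑ q : Quotient r, (Fintype.card {i : Fin n // Quotient.mk r i = q} : ℝ) * G q := by
    intro G
    rw [← Finset.sum_fiberwise (s := Finset.univ) (g := fun i => Quotient.mk r i)]
    apply Finset.sum_congr rfl
    intro q _
    rw [Finset.sum_congr rfl (g := fun _ => G q), Finset.sum_const, nsmul_eq_mul,
      Fintype.card_subtype]
    intro i hi
    rw [(Finset.mem_filter.1 hi).2]
  rw [h2 (fun q => (Fintype.card (Choice r) : ℝ) /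
    (Fintype.card {i : Fin n // Quotient.mk r i = q} : ℝ) *
        ∑ x : {i : Fin n // Quotient.mk r i = q}, g x.1), Finset.mul_sum]
  rw [← Finset.sum_fiberwise (s := Finset.univ) (g := fun i => Quotient.mk r i)
    (f := fun i => (Fintype.card (Choice r) : ℝ) * g i)]
  apply Finset.sum_congr rfl
  intro q _
  have hc : (Fintype.card {i : Fin n // Quotient.mk r i = q} : ℝ) ≠ 0 := by
    simp [Fintype.card_ne_zero]
  rw [← Finset.mul_sum]
  field_simp
  have : ∑ x : {i : Fin n // Quotient.mk r i = q}, g x.1 =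
      ∑ i with Quotient.mk r i = q, g i := by
    rw [← Finset.sum_subtype_eq_sum_filter]
    apply Finset.sum_congr _ (fun _ _ => rfl)
    ext; simp
  rw [this]

/-- A finite family of choice functions with uniform marginals. -/
theorem exists_choices {n : ℕ} (r : Setoid (Fin n)) :
    ∃ (m : ℕ) (_ : 0 < m) (f : Fin m → Fin n → Fin n), (∀ a i, r (f a i) i) ∧
      (∀ a i j, r i j → f a i = f a j) ∧
      ∀ g : Fin n → ℝ, ∑ a, ∑ i, g (f a i) = m * ∑ i, g i := by
  classical
  have : Fintype (Choice r) := Fintype.ofFinite _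
  have : Fintype (Quotient r) := Fintype.ofFinite _
  have e : Fin (Fintype.card (Choice r)) ≃ Choice r := (Fintype.equivFin _).symm
  refine ⟨Fintype.card (Choice r), Fintype.card_pos, fun a i => (e a (Quotient.mk r i)).1,
    ?_, ?_, ?_⟩
  · intro a i
    have := (e a (Quotient.mk r i)).2
    exact Quotient.exact this
  · intro a i j hij
    have : Quotient.mk r i = Quotient.mk r j := Quotient.sound hij
    show (e a (Quotient.mk r i)).1 = (e a (Quotient.mk r j)).1
    rw [this]
  · intro g
    have h := sum_choice r g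
    rw [← h, ← Equiv.sum_comp e]

end Pool.Agent.BR49
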