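import Pool.Agent.BR49.Retract

/-!
# Configuration spaces and braid spaces
-/

open Set Metric unitInterval Topology UniformSpace Filter
open scoped ENNReal NNReal

set_option linter.unusedSectionVars false
set_option linter.unusedVariables false

noncomputable section

namespace Pool.Agent.BR49

variable {n : ℕ}

/-- `ℂ^n` with its standard Euclidean norm. -/
abbrev E (n : ℕ) := EuclideanSpace ℂ (Fin n)

/-- The complement in `ℂ^n` of the hyperplanes `z_i = z_j` with `i ≠ j` and `R i j`. -/
def WR (R : Fin n → Fin n → Prop) : Set (E n) := {z | ∀ i j, i ≠ j → R i j → z i ≠ z j}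

lemma isOpen_WR (R : Fin n → Fin n → Prop) : IsOpen (WR R) := by
  have : WR R = ⋂ (i : Fin n), ⋂ (j : Fin n), {z : E n | i ≠ j → R i j → z i ≠ z j} := by
    ext z; simp [WR]
  rw [this]
  refine isOpen_iInter_of_finite fun i => isOpen_iInter_of_finite fun j => ?_
  by_cases h1 : i ≠ j
  · by_cases h2 : R i j
    · simp only [h1, h2, ne_eq, not_false_eq_true, forall_const]
      exact isOpen_ne_fun (by fun_prop) (by fun_prop)
    · simp [h2]
  · simp [h1]

lemma locConvex_of_isOpen {V : Type*} [NormedAddCommGroup V] [NormedSpace ℝ V] {U : Set V}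
    (h : IsOpen U) : LocConvex U := by
  refine ⟨fun x hx => ?_⟩
  obtain ⟨ε, hε, hb⟩ := Metric.isOpen_iff.1 h x hx
  refine ⟨ε, hε, ?_⟩
  rw [inter_eq_right.2 hb]
  exact convex_ball x ε

instance (R : Fin n → Fin n → Prop) : LocConvex (WR R) := locConvex_of_isOpen (isOpen_WR R)

/-- Permutation of the coordinates. -/
def perm (g : Equiv.Perm (Fin n)) (z : E n) : E n := WithLp.toLp 2 (fun k => z (g k))

@[simp] lemma perm_apply (g : Equiv.Perm (Fin n)) (z : E n) (k : Fin n) :
    perm g z k = z (g k) := rfl

lemma perm_swap_eq_iff (z : E n) (i j : Fin n) : perm (Equiv.swap i j) z = z ↔ z i = z j := by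
  constructor
  · intro h
    have := congrArg (fun w : E n => w i) h
    simp only [perm_apply, Equiv.swap_apply_left] at this
    exact this.symm
  · intro h
    ext k
    rw [perm_apply]
    rcases eq_or_ne k i with rfl | hi
    · rw [Equiv.swap_apply_left, h]
    · rcases eq_or_ne k j with rfl | hj
      · rw [Equiv.swap_apply_right, h]
      · rw [Equiv.swap_apply_of_ne_of_ne hi hj]

lemma perm_add (g : Equiv.Perm (Fin n)) (z w : E n) : perm g (z + w) = perm g z + perm g w := by
  ext k; simp

lemma perm_smul (g : Equiv.Perm (Fin n)) (c : ℝ) (z : E n) : perm g (c • z) = c • perm g z := by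
  ext k; simp

lemma perm_sub (g : Equiv.Perm (Fin n)) (z w : E n) : perm g (z - w) = perm g z - perm g w := by
  ext k; simp

lemma norm_perm (g : Equiv.Perm (Fin n)) (z : E n) : ‖perm g z‖ = ‖z‖ := by
  rw [EuclideanSpace.norm_eq, EuclideanSpace.norm_eq]
  congr 1
  exact Equiv.sum_comp g (fun k => ‖z k‖ ^ 2)

/-- `T` commutes with the transpositions `(i j)` with `R i j`. -/
def Equivar (R : Fin n → Fin n → Prop) (T : E n → E n) : Prop :=
  ∀ i j, R i j → ∀ z, T (perm (Equiv.swap i j) z) = perm (Equiv.swap i j) (T z)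

lemma Equivar.pres {R : Fin n → Fin n → Prop} {T : E n → E n} (h : Equivar R T) (hT : Firm T) :
    Pres (WR R) T := by
  intro t h0 h1 x hx i j hij hR heq
  apply hx i j hij hR
  rw [← perm_swap_eq_iff] at heq ⊢
  apply hT.relax_injective h0 h1
  rw [← heq]
  unfold relax
  rw [perm_add, perm_smul, perm_smul, h i j hR]

end Pool.Agent.BR49
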