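import Pool.Agent.BR49.Conf

/-!
# Nearest point projections onto closed convex sets and their lifts
-/

open Set Metric unitInterval Topology UniformSpace Filter
open scoped ENNReal NNReal

set_option linter.unusedSectionVars false
set_option linter.unusedVariables false

noncomputable section

namespace Pool.Agent.BR49

section
variable {V : Type*} [NormedAddCommGroup V] [InnerProductSpace ℝ V] [CompleteSpace V]

lemma exists_cproj {K : Set V} (hne : K.Nonempty) (hcl : IsClosed K) (hconv : Convex ℝ K) (x : V) :
    ∃ v ∈ K, ∀ w ∈ K, inner ℝ (x - v) (w - v) ≤ 0 := by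
  obtain ⟨v, hv, h⟩ := exists_norm_eq_iInf_of_complete_convex hne hcl.isComplete hconv x
  exact ⟨v, hv, (norm_eq_iInf_iff_real_inner_le_zero hconv hv).1 h⟩

/-- The nearest point projection onto a nonempty closed convex set. -/
def cproj (K : Set V) (hne : K.Nonempty) (hcl : IsClosed K) (hconv : Convex ℝ K) (x : V) : V :=
  Classical.choose (exists_cproj hne hcl hconv x)

variable {K : Set V} (hne : K.Nonempty) (hcl : IsClosed K) (hconv : Convex ℝ K)

lemma cproj_mem (x : V) : cproj K hne hcl hconv x ∈ K :=
  (Classical.choose_spec (exists_cproj hne hcl hconv x)).1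

lemma cproj_inner (x : V) : ∀ w ∈ K,
    inner ℝ (x - cproj K hne hcl hconv x) (w - cproj K hne hcl hconv x) ≤ 0 :=
  (Classical.choose_spec (exists_cproj hne hcl hconv x)).2

lemma cproj_unique {x v : V} (hv : v ∈ K) (h : ∀ w ∈ K, inner ℝ (x - v) (w - v) ≤ 0) :
    cproj K hne hcl hconv x = v := by
  have h1 := cproj_inner hne hcl hconv x v hv
  have h2 := h _ (cproj_mem hne hcl hconv x)
  set u := cproj K hne hcl hconv x
  have h3 : inner ℝ (u - v) (u - v) ≤ 0 := by
    have e : inner ℝ (u - v) (u - v) = inner ℝ (x - u) (v - u) + inner ℝ (x - v) (u - v) := by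
      simp only [inner_sub_left, inner_sub_right]
      ring
    linarith
  have h4 : u - v = 0 := by
    rw [real_inner_self_eq_norm_sq] at h3
    have : ‖u - v‖ = 0 := by nlinarith [norm_nonneg (u - v)]
    exact norm_eq_zero.1 this
  exact sub_eq_zero.1 h4

lemma cproj_eq_self {x : V} (hx : x ∈ K) : cproj K hne hcl hconv x = x :=
  cproj_unique hne hcl hconv hx (fun w _ => by simp)

lemma firm_cproj : Firm (cproj K hne hcl hconv) := by
  intro x y
  have h1 := cproj_inner hne hcl hconv x _ (cproj_mem hne hcl hconv y)
  have h2 := cproj_inner hne hcl hconv y _ (cproj_mem hne hcl hconv x)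
  set u := cproj K hne hcl hconv x
  set v := cproj K hne hcl hconv y
  have h3 : x - y = (u - v) + ((x - u) - (y - v)) := by abel
  rw [h3, norm_add_sq_real]
  have h4 : 0 ≤ inner ℝ (u - v) ((x - u) - (y - v)) := by
    have e : inner ℝ (u - v) ((x - u) - (y - v)) =
        -(inner ℝ (x - u) (v - u)) - inner ℝ (y - v) (u - v) := by
      simp only [inner_sub_left, inner_sub_right, real_inner_comm]
      ring
    rw [e]; linarith
  linarith

end

variable {n : ℕ}

lemma inner_perm (g : Equiv.Perm (Fin n)) (z w : E n) :
    inner ℝ (perm g z) (perm g w) = inner ℝ z w := by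
  rw [real_inner_eq_norm_add_mul_self_sub_norm_mul_self_sub_norm_mul_self_div_two,
    real_inner_eq_norm_add_mul_self_sub_norm_mul_self_sub_norm_mul_self_div_two,
    ← perm_add, norm_perm, norm_perm, norm_perm]

lemma perm_swap_swap (i j : Fin n) (z : E n) :
    perm (Equiv.swap i j) (perm (Equiv.swap i j) z) = z := by
  ext k; simp

/-- `K` is invariant under the transpositions `(i j)` with `R i j`. -/
def SymmSet (R : Fin n → Fin n → Prop) (K : Set (E n)) : Prop :=
  ∀ i j, R i j → ∀ z ∈ K, perm (Equiv.swap i j) z ∈ K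

lemma equivar_cproj {R : Fin n → Fin n → Prop} {K : Set (E n)} (hK : SymmSet R K)
    (hne : K.Nonempty) (hcl : IsClosed K) (hconv : Convex ℝ K) :
    Equivar R (cproj K hne hcl hconv) := by
  intro i j hR z
  apply cproj_unique
  · exact hK i j hR _ (cproj_mem hne hcl hconv z)
  · intro w hw
    have h := cproj_inner hne hcl hconv z (perm (Equiv.swap i j) w) (hK i j hR w hw)
    rw [← perm_sub]
    have e : w - perm (Equiv.swap i j) (cproj K hne hcl hconv z) =
        perm (Equiv.swap i j) (perm (Equiv.swap i j) w - cproj K hne hcl hconv z) := by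
      rw [perm_sub, perm_swap_swap]
    rw [e, inner_perm]
    exact h

/-- **Symmetric convex sets are retracts.** Let `K` be a nonempty closed convex subset of `ℂ^n`
invariant under the transpositions in `R`. Then there is a self map `ρ` of the ramified covering of
`ℂ^n` (ramified along the hyperplanes `z_i = z_j`, `R i j`) onto the preimage of `K`, covering the
nearest point projection, and satisfying the strong nonexpansiveness inequality of the nearest
point projection of a Hilbert space. -/
theorem exists_retraction (R : Fin n → Fin n → Prop) (x₀ : WR R) (K : Set (E n))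
    (hne : K.Nonempty) (hcl : IsClosed K) (hconv : Convex ℝ K) (hK : SymmSet R K) :
    ∃ ρ : Ram x₀ → Ram x₀, (∀ P, proj (ρ P) ∈ K) ∧ (∀ P, proj P ∈ K → ρ P = P) ∧
      (∀ P, ∀ w ∈ K, ‖proj P - proj (ρ P)‖ ≤ ‖proj P - w‖) ∧
      (∀ P, dist P (ρ P) = ‖proj P - proj (ρ P)‖) ∧
      (∀ P Q, dist (ρ P) (ρ Q) ^ 2 +
        ‖(proj P - proj (ρ P)) - (proj Q - proj (ρ Q))‖ ^ 2 ≤ dist P Q ^ 2) := by
  set T := cproj K hne hcl hconv with hT
  have hfirm : Firm T := firm_cproj hne hcl hconv
  have hpres : Pres (WR R) T := (equivar_cproj hK hne hcl hconv).pres hfirm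
  refine ⟨lift T hfirm hpres, ?_, ?_, ?_, ?_, ?_⟩
  · intro P; rw [proj_lift]; exact cproj_mem hne hcl hconv _
  · intro P hP
    apply lift_eq_self
    exact cproj_eq_self hne hcl hconv hP
  · intro P w hw
    rw [proj_lift]
    have h1 := cproj_inner hne hcl hconv (proj P) w hw
    have h2 : proj P - w = (proj P - T (proj P)) - (w - T (proj P)) := by abel
    have h3 := norm_sub_sq_real (proj P - T (proj P)) (w - T (proj P))
    rw [← h2] at h3
    refine (sq_le_sq₀ (norm_nonneg _) (norm_nonneg _)).1 ?_
    have h4 := sq_nonneg ‖w - T (proj P)‖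
    rw [h3]
    linarith
  · intro P
    apply le_antisymm
    · rw [proj_lift]; exact dist_lift_le T hfirm hpres P
    · have := dist_proj_le P (lift T hfirm hpres P)
      rwa [dist_eq_norm] at this
  · intro P Q
    rw [proj_lift, proj_lift]
    exact lift_firm T hfirm hpres P Q

end Pool.Agent.BR49
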