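import Pool.Agent.BR49.Maps
import Pool.Agent.BR49.CAT0

/-!
# Approximate midpoints, inheritance and limits of the Bruhat-Tits inequality
-/

open Set Metric unitInterval Topology UniformSpace Filter
open scoped ENNReal NNReal

set_option linter.unusedSectionVars false
set_option linter.unusedVariables false

noncomputable section

namespace Pool.Agent.BR49

/-- Approximate midpoints. -/
def ApproxMid (X : Type*) [PseudoMetricSpace X] : Prop :=
  ∀ P Q : X, ∀ ε > 0, ∃ M : X, dist P M ≤ dist P Q / 2 + ε ∧ dist Q M ≤ dist P Q / 2 + ε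

section
variable {V : Type*} [NormedAddCommGroup V] [NormedSpace ℝ V] {U : Set V} {x₀ : U}

lemma exists_path_lt [LocConvex U] (p q : Cov U x₀) {ε : ℝ} (hε : 0 < ε) :
    ∃ c : Path p.pt q.pt, p.cls.trans (.mk c) = q.cls ∧ plen c < ENNReal.ofReal (dist p q + ε) := by
  apply exists_path_of_edist_lt
  rw [edist_dist]
  exact (ENNReal.ofReal_lt_ofReal_iff (by positivity)).2 (by linarith)

lemma approxMid_cov [LocConvex U] : ApproxMid (Cov U x₀) := by
  intro p q ε hε
  obtain ⟨c, hc, hlen⟩ := exists_path_lt p q hε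
  obtain ⟨P, N, hP0, hPN, hch, hsum, -, hd⟩ := exists_chain (fun _ => ε/4) (fun _ => by positivity) p c
  have hq : P N = q := by
    rw [hPN]
    cases q
    simp only at hc ⊢
    rw [← hc]
  set S : ℕ → ℝ := fun k => ∑ j ∈ Finset.range k, dist ((P j).pt : V) (P (j+1)).pt with hS
  have hSN : S N < dist p q + ε := by
    have h1 : ENNReal.ofReal (S N) ≤ plen c := by
      refine le_trans (le_of_eq ?_) hsum
      rw [hS, ENNReal.ofReal_sum_of_nonneg (fun _ _ => dist_nonneg)]
      apply Finset.sum_congr rfl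
      intro j _
      rw [edist_dist]
    exact (ENNReal.ofReal_lt_ofReal_iff (by positivity)).1 (lt_of_le_of_lt h1 hlen)
  have hstep : ∀ k, dist ((P k).pt : V) (P (k+1)).pt < ε/2 := by
    intro k
    obtain ⟨x, hx1, hx2⟩ := hd k
    have := dist_triangle_right ((P k).pt : V) (P (k+1)).pt x
    linarith
  have hPk : ∀ k < N, dist (P k) (P (k+1)) ≤ dist ((P k).pt : V) (P (k+1)).pt := by
    intro k hk
    obtain ⟨h, hst⟩ := hch k hk
    have := dist_step_le (P k) _ h
    rwa [hst] at this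
  have hleft : ∀ k ≤ N, dist p (P k) ≤ S k := by
    intro k hk
    induction k with
    | zero => simp [hP0, hS]
    | succ k ih =>
      have ih' := ih (by omega)
      have h2 := hPk k (by omega)
      have h3 := dist_triangle p (P k) (P (k+1))
      have h4 : S (k+1) = S k + dist ((P k).pt : V) (P (k+1)).pt := Finset.sum_range_succ _ _
      linarith
  have hright : ∀ k ≤ N, dist (P k) q ≤ S N - S k := by
    intro k hk
    induction hk using Nat.decreasingInduction with
    | self => rw [hq]; simp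
    | of_succ k hk ih =>
      have h2 := hPk k (by omega)
      have h3 := dist_triangle (P k) (P (k+1)) q
      have h4 : S (k+1) = S k + dist ((P k).pt : V) (P (k+1)).pt := Finset.sum_range_succ _ _
      linarith
  -- the first index at which half of the length is reached
  have hex : ∃ k, dist p q / 2 ≤ S k ∨ N ≤ k := ⟨N, Or.inr le_rfl⟩
  classical
  set k := Nat.find hex with hk
  have hkN : k ≤ N := Nat.find_min' hex (Or.inr le_rfl)
  have hkspec := Nat.find_spec hex
  have hpqN : dist p q ≤ S N := by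
    have := hleft N le_rfl
    rwa [hq] at this
  have hk1 : dist p q / 2 ≤ S k := by
    rcases hkspec with h | h
    · exact h
    · have : k = N := le_antisymm hkN h
      rw [this]
      linarith [dist_nonneg (x := p) (y := q)]
  have hk2 : S k ≤ dist p q / 2 + ε / 2 := by
    rcases Nat.eq_zero_or_pos k with h0 | hpos
    · rw [h0]
      simp only [hS, Finset.range_zero, Finset.sum_empty]
      positivity
    · have hmin := Nat.find_min hex (m := k - 1) (by omega)
      push Not at hmin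
      have h4 : S (k - 1 + 1) = S (k-1) + dist ((P (k-1)).pt : V) (P (k-1+1)).pt :=
        Finset.sum_range_succ _ _
      rw [Nat.sub_add_cancel hpos] at h4
      have h5 := hstep (k-1)
      rw [Nat.sub_add_cancel hpos] at h5
      linarith [hmin.1]
  refine ⟨P k, ?_, ?_⟩
  · have := hleft k hkN
    linarith
  · have := hright k hkN
    rw [dist_comm]
    linarith

lemma ApproxMid.completion {X : Type*} [PseudoMetricSpace X] (h : ApproxMid X) :
    ApproxMid (Completion X) := by
  intro P Q ε hε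
  obtain ⟨p, hp⟩ := Metric.denseRange_iff.1 (Completion.denseRange_coe (α := X)) P (ε/4)
    (by positivity)
  obtain ⟨q, hq⟩ := Metric.denseRange_iff.1 (Completion.denseRange_coe (α := X)) Q (ε/4)
    (by positivity)
  obtain ⟨m, hm1, hm2⟩ := h p q (ε/4) (by positivity)
  rw [← Completion.dist_eq p m, ← Completion.dist_eq p q] at hm1
  rw [← Completion.dist_eq q m, ← Completion.dist_eq p q] at hm2
  have h1 := dist_triangle4 (p : Completion X) P Q q
  rw [dist_comm (p : Completion X) P] at h1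
  have h2 := dist_triangle P (p : Completion X) m
  have h3 := dist_triangle Q (q : Completion X) m
  refine ⟨m, ?_, ?_⟩ <;> linarith

lemma approxMid_ram [LocConvex U] : ApproxMid (Ram x₀) := approxMid_cov.completion

end

/-- The Bruhat-Tits inequality passes to isometrically embedded complete length spaces. -/
theorem CN.of_isometry {X Y : Type*} [MetricSpace X] [MetricSpace Y] [CompleteSpace Y]
    (hX : CN X) (hY : ApproxMid Y) {ι : Y → X} (hι : Isometry ι) : CN Y := by
  intro P Q
  obtain ⟨M, hM⟩ := hX (ι P) (ι Q)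
  have hmem : M ∈ closure (range ι) := by
    rw [Metric.mem_closure_iff]
    intro ε hε
    set D := dist P Q with hD
    have hD0 : 0 ≤ D := dist_nonneg
    -- choose δ with D δ + δ^2 < ε^2
    obtain ⟨δ, hδ, hδε⟩ : ∃ δ > 0, D * δ + δ^2 < ε^2 := by
      refine ⟨min 1 (ε^2 / (2 * (D + 1))), by positivity, ?_⟩
      set δ := min 1 (ε^2 / (2 * (D + 1)))
      have h1 : δ ≤ 1 := min_le_left _ _
      have h2 : δ ≤ ε^2 / (2 * (D + 1)) := min_le_right _ _
      have h0 : 0 < δ := by positivity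
      have h3 : δ * (2 * (D + 1)) ≤ ε^2 := by rwa [le_div_iff₀ (by positivity)] at h2
      have h4 : δ^2 ≤ δ := by nlinarith
      have h5 : 0 < ε^2 := by positivity
      nlinarith
    obtain ⟨m, hm1, hm2⟩ := hY P Q δ hδ
    refine ⟨ι m, mem_range_self m, ?_⟩
    have h1 := hM (ι m)
    rw [hι.dist_eq, hι.dist_eq, hι.dist_eq, dist_comm m P, dist_comm m Q] at h1
    have h2 := pow_le_pow_left₀ dist_nonneg hm1 2
    have h3 := pow_le_pow_left₀ dist_nonneg hm2 2
    rw [dist_comm]
    refine lt_of_pow_lt_pow_left₀ 2 hε.le ?_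
    nlinarith
  rw [hι.isClosedEmbedding.isClosed_range.closure_eq] at hmem
  obtain ⟨m, rfl⟩ := hmem
  refine ⟨m, fun Z => ?_⟩
  have := hM (ι Z)
  rwa [hι.dist_eq, hι.dist_eq, hι.dist_eq, hι.dist_eq] at this

/-- An approximate form of the Bruhat-Tits inequality. -/
def ApproxCN (X : Type*) [PseudoMetricSpace X] : Prop :=
  ∀ P Q : X, ∀ ε > 0, ∃ M : X, ∀ Z : X,
    dist Z M ^ 2 ≤ dist Z P ^ 2 / 2 + dist Z Q ^ 2 / 2 - dist P Q ^ 2 / 4 + ε * (1 + dist Z P) ^ 2

lemma ApproxCN.completion {X : Type*} [PseudoMetricSpace X] (h : ApproxCN X) :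
    ApproxCN (Completion X) := by
  intro P Q ε hε
  set D := dist P Q with hD
  have hD0 : 0 ≤ D := dist_nonneg
  -- δ small
  obtain ⟨δ, hδ, hδ1, hδε⟩ : ∃ δ > 0, δ ≤ 1 ∧ δ * (8 * (D + 3)) ≤ ε := by
    refine ⟨min 1 (ε / (8 * (D + 3))), by positivity, min_le_left _ _, ?_⟩
    have h2 : min 1 (ε / (8 * (D + 3))) ≤ ε / (8 * (D + 3)) := min_le_right _ _
    rwa [le_div_iff₀ (by positivity)] at h2
  obtain ⟨p, hp⟩ := Metric.denseRange_iff.1 (Completion.denseRange_coe (α := X)) P δ hδ
  obtain ⟨q, hq⟩ := Metric.denseRange_iff.1 (Completion.denseRange_coe (α := X)) Q δ hδ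
  obtain ⟨m, hm⟩ := h p q δ hδ
  refine ⟨m, fun Z => ?_⟩
  have hcl : ∀ Z : Completion X, dist Z (m : Completion X) ^ 2 ≤ dist Z (p : Completion X) ^ 2 / 2 +
      dist Z (q : Completion X) ^ 2 / 2 - dist (p : Completion X) q ^ 2 / 4 +
      δ * (1 + dist Z (p : Completion X)) ^ 2 := by
    intro Z
    refine Completion.induction_on Z (isClosed_le (by fun_prop) (by fun_prop)) fun z => ?_
    simp only [Completion.dist_eq]
    exact hm z
  have h1 := hcl Z
  have a0 : 0 ≤ dist Z P := dist_nonneg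
  have b0 : 0 ≤ dist Z Q := dist_nonneg
  have a1 : dist Z (p : Completion X) ≤ dist Z P + δ := (dist_triangle Z P p).trans (by linarith)
  have b1 : dist Z (q : Completion X) ≤ dist Z Q + δ := (dist_triangle Z Q q).trans (by linarith)
  have b2 : dist Z Q ≤ dist Z P + D := dist_triangle Z P Q
  have d1 : D ≤ dist (p : Completion X) q + 2 * δ := by
    have h1 := dist_triangle4 P (p : Completion X) q Q
    rw [dist_comm (q : Completion X) Q] at h1
    linarith
  have d0 : 0 ≤ dist (p : Completion X) q := dist_nonneg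
  have d2 : D ^ 2 - 4 * δ * D ≤ dist (p : Completion X) q ^ 2 := by
    rcases le_total (2 * δ) D with h | h
    · have : (D - 2 * δ) ^ 2 ≤ dist (p : Completion X) q ^ 2 :=
        pow_le_pow_left₀ (by linarith) (by linarith) 2
      nlinarith
    · have : D^2 ≤ 4 * δ * D := by nlinarith
      nlinarith [sq_nonneg (dist (p : Completion X) q)]
  have a2 : dist Z (p : Completion X) ^ 2 ≤ (dist Z P + δ)^2 := pow_le_pow_left₀ dist_nonneg a1 2
  have b3 : dist Z (q : Completion X) ^ 2 ≤ (dist Z Q + δ)^2 := pow_le_pow_left₀ dist_nonneg b1 2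
  have c1 : (1 + dist Z (p : Completion X)) ^ 2 ≤ (2 + dist Z P) ^ 2 :=
    pow_le_pow_left₀ (by positivity) (by linarith) 2
  have c2 : (2 + dist Z P)^2 ≤ 4 * (1 + dist Z P)^2 := by nlinarith
  have c3 : δ * (1 + dist Z (p : Completion X)) ^ 2 ≤ δ * (4 * (1 + dist Z P)^2) :=
    mul_le_mul_of_nonneg_left (c1.trans c2) hδ.le
  set a := dist Z P with ha
  set b := dist Z Q with hb
  have e1 : (a + δ)^2 / 2 + (b + δ)^2/2 ≤ a^2/2 + b^2/2 + δ * (a + b + 1) := by
    nlinarith
  have e2 : dist Z (m : Completion X) ^ 2 ≤ a^2/2 + b^2/2 - D^2/4 +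
      δ * ((a + b + 1) + D + 4 * (1 + a)^2) := by nlinarith
  have e3 : (a + b + 1) + D + 4 * (1 + a)^2 ≤ 8 * (D + 3) * (1 + a)^2 := by
    have : 1 ≤ (1 + a)^2 := by nlinarith
    nlinarith [mul_nonneg hD0 (by linarith : 0 ≤ (1 + a)^2 - 1)]
  have e4 : δ * ((a + b + 1) + D + 4 * (1 + a)^2) ≤ ε * (1 + a)^2 := by
    calc δ * ((a + b + 1) + D + 4 * (1 + a)^2) ≤ δ * (8 * (D + 3) * (1 + a)^2) :=
          mul_le_mul_of_nonneg_left e3 hδ.le
      _ = δ * (8 * (D + 3)) * (1 + a)^2 := by ring
      _ ≤ ε * (1 + a)^2 := mul_le_mul_of_nonneg_right hδε (sq_nonneg _)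
  linarith

theorem ApproxCN.cn {X : Type*} [MetricSpace X] [CompleteSpace X] (h : ApproxCN X) : CN X := by
  intro P Q
  set D := dist P Q with hD
  have hD0 : 0 ≤ D := dist_nonneg
  choose M hM using fun k : ℕ => h P Q (1 / ((k:ℝ) + 1)) (by positivity)
  -- distances of the approximate midpoints from the end points
  have hP : ∀ k, dist P (M k) ^ 2 ≤ D^2/4 + 1 / ((k:ℝ) + 1) := by
    intro k
    have := hM k P
    rw [dist_self] at this
    nlinarith
  have hQ : ∀ k, dist Q (M k) ^ 2 ≤ D^2/4 + 1 / ((k:ℝ) + 1) * (1 + D)^2 := by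
    intro k
    have := hM k Q
    rw [dist_self, dist_comm Q P] at this
    nlinarith
  have hPb : ∀ k, (1 + dist (M k) P) ^ 2 ≤ (3 + D) ^ 2 := by
    intro k
    apply pow_le_pow_left₀ (by positivity)
    have h1 := hP k
    have h2 : (1 / ((k:ℝ) + 1)) ≤ 1 := by
      rw [div_le_one (by positivity)]
      linarith [(Nat.cast_nonneg k : (0:ℝ) ≤ k)]
    have h3 : dist (M k) P ≤ 2 + D := by
      rw [dist_comm]
      by_contra hcon
      push Not at hcon
      have : (2 + D)^2 < dist P (M k) ^ 2 := pow_lt_pow_left₀ hcon (by linarith) (by norm_num)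
      nlinarith
    linarith
  have hdist : ∀ N k l : ℕ, N ≤ k → N ≤ l → dist (M k) (M l) ^ 2 ≤
      1 / ((N:ℝ) + 1) * (4 * (3 + D)^2) := by
    intro N k l hk hl
    have h1 := hM l (M k)
    have h2 := hP k
    have h3 := hQ k
    have h4 := hPb k
    have hk' : 1 / ((k:ℝ) + 1) ≤ 1 / ((N:ℝ) + 1) := by
      apply one_div_le_one_div_of_le (by positivity)
      have : (N:ℝ) ≤ k := by exact_mod_cast hk
      linarith
    have hl' : 1 / ((l:ℝ) + 1) ≤ 1 / ((N:ℝ) + 1) := by
      apply one_div_le_one_div_of_le (by positivity)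
      have : (N:ℝ) ≤ l := by exact_mod_cast hl
      linarith
    have hk0 : 0 ≤ 1 / ((k:ℝ) + 1) := by positivity
    have hl0 : 0 ≤ 1 / ((l:ℝ) + 1) := by positivity
    rw [dist_comm (M k) P] at h1 h4
    rw [dist_comm (M k) Q] at h1
    set x := 1 / ((N:ℝ) + 1)
    have h5 : 1 / ((l:ℝ) + 1) * (1 + dist P (M k))^2 ≤ x * (3 + D)^2 :=
      mul_le_mul hl' h4 (sq_nonneg _) (by positivity)
    have h6 : 1 / ((k:ℝ) + 1) * (1 + D)^2 ≤ x * (3 + D)^2 := by
      apply mul_le_mul hk' _ (sq_nonneg _) (by positivity)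
      nlinarith
    have h7 : 1 / ((k:ℝ) + 1) ≤ x * (3 + D)^2 := by
      have : x * 1 ≤ x * (3 + D)^2 := by
        apply mul_le_mul_of_nonneg_left _ (by positivity)
        nlinarith
      linarith
    linarith
  have hcau : CauchySeq M := by
    rw [Metric.cauchySeq_iff]
    intro ε hε
    obtain ⟨N, hN⟩ := exists_nat_one_div_lt (show 0 < ε^2 / (4 * (3 + D)^2) by positivity)
    refine ⟨N, fun m hm n hn => ?_⟩
    refine lt_of_pow_lt_pow_left₀ 2 hε.le ?_
    refine lt_of_le_of_lt (hdist N m n hm hn) ?_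
    rwa [lt_div_iff₀ (by positivity)] at hN
  obtain ⟨L, hL⟩ := cauchySeq_tendsto_of_complete hcau
  refine ⟨L, fun Z => ?_⟩
  have hl : Tendsto (fun k => dist Z (M k) ^ 2) atTop (𝓝 (dist Z L ^ 2)) :=
    (tendsto_const_nhds.dist hL).pow 2
  have hr : Tendsto (fun k : ℕ => dist Z P ^ 2 / 2 + dist Z Q ^ 2 / 2 - D ^ 2 / 4 +
      1 / ((k:ℝ) + 1) * (1 + dist Z P) ^ 2) atTop (𝓝 (dist Z P ^ 2 / 2 + dist Z Q ^ 2 / 2 -
      D ^ 2 / 4 + 0 * (1 + dist Z P) ^ 2)) :=
    tendsto_const_nhds.add (tendsto_one_div_add_atTop_nhds_zero_nat.mul tendsto_const_nhds)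
  rw [zero_mul, add_zero] at hr
  exact le_of_tendsto_of_tendsto' hl hr (fun k => hM k Z)

end Pool.Agent.BR49
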