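import Pool.Agent.BR49.CAT0

/-!
# Local geodesics in spaces satisfying the midpoint inequality
-/

open Set Metric Topology Filter

noncomputable section

namespace Pool.Agent.BR49

section
variable {X : Type*} [PseudoMetricSpace X]

/-- `γ` is a local geodesic on `[a, b]` (parametrised by arc length). -/
def LocGeod (γ : ℝ → X) (a b : ℝ) : Prop :=
  ∀ t ∈ Icc a b, ∃ ε > 0, ∀ s ∈ Icc a b, ∀ s' ∈ Icc a b, |s - t| < ε → |s' - t| < ε →
    dist (γ s) (γ s') = |s - s'|

lemma LocGeod.mono {γ : ℝ → X} {a b a' b' : ℝ} (h : LocGeod γ a b) (ha : a ≤ a') (hb : b' ≤ b) :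
    LocGeod γ a' b' := by
  intro t ht
  obtain ⟨ε, hε, H⟩ := h t ⟨ha.trans ht.1, ht.2.trans hb⟩
  exact ⟨ε, hε, fun s hs s' hs' => H s ⟨ha.trans hs.1, hs.2.trans hb⟩ s'
    ⟨ha.trans hs'.1, hs'.2.trans hb⟩⟩

lemma continuousOn_of_loc {γ : ℝ → X} {a b : ℝ}
    (h : ∀ t ∈ Icc a b, ∃ ε > 0, ∀ s ∈ Icc a b, |s - t| < ε → dist (γ s) (γ t) ≤ |s - t|) :
    ContinuousOn γ (Icc a b) := by
  intro t ht
  rw [Metric.continuousWithinAt_iff]
  intro η hη
  obtain ⟨ε, hε, H⟩ := h t ht
  refine ⟨min ε η, lt_min hε hη, fun {s} hs hst => ?_⟩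
  rw [Real.dist_eq] at hst
  exact (H s hs (hst.trans_le (min_le_left _ _))).trans_lt (hst.trans_le (min_le_right _ _))

lemma lip_aux {γ : ℝ → X} {a b : ℝ}
    (h : ∀ t ∈ Icc a b, ∃ ε > 0, ∀ s ∈ Icc a b, |s - t| < ε → dist (γ s) (γ t) ≤ |s - t|)
    (t : ℝ) (ht : t ∈ Icc a b) : dist (γ a) (γ t) ≤ t - a := by
  have hc := continuousOn_of_loc h
  have hab : a ≤ b := ht.1.trans ht.2
  have key : Icc a b ⊆ {t | dist (γ a) (γ t) ≤ t - a} := by
    apply IsClosed.Icc_subset_of_forall_exists_gt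
    · have h1 : ContinuousOn (fun t => dist (γ a) (γ t)) (Icc a b) :=
        (continuous_const.dist continuous_id).comp_continuousOn hc
      have h2 := (isClosed_Icc (a := a) (b := b)).isClosed_le h1
        (continuousOn_id.sub continuousOn_const : ContinuousOn (fun t => t - a) (Icc a b))
      convert h2 using 1
      ext x
      simp [and_comm]
    · simp
    · intro x hx y hy
      obtain ⟨ε, hε, H⟩ := h x ⟨hx.2.1, hx.2.2.le⟩
      set δ := min (ε/2) (min (y - x) (b - x)) with hδ
      have hδ0 : 0 < δ := lt_min (by positivity) (lt_min (by have := mem_Ioi.1 hy; linarith)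
        (by linarith [hx.2.2]))
      have hδ1 : δ ≤ ε/2 := min_le_left _ _
      have hδ2 : δ ≤ y - x := (min_le_right _ _).trans (min_le_left _ _)
      have hδ3 : δ ≤ b - x := (min_le_right _ _).trans (min_le_right _ _)
      refine ⟨x + δ, ?_, by linarith, by linarith⟩
      have h1 := H (x + δ) ⟨by linarith [hx.2.1], by linarith⟩
        (by rw [add_sub_cancel_left, abs_of_pos hδ0]; linarith)
      rw [add_sub_cancel_left, abs_of_pos hδ0] at h1
      have h2 := hx.1
      simp only [mem_ofPred_eq] at h2 ⊢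
      have h3 := dist_triangle_right (γ a) (γ (x + δ)) (γ x)
      linarith
  exact key ht

lemma lip_of_loc {γ : ℝ → X} {a b : ℝ}
    (h : ∀ t ∈ Icc a b, ∃ ε > 0, ∀ s ∈ Icc a b, |s - t| < ε → dist (γ s) (γ t) ≤ |s - t|)
    (s : ℝ) (hs : s ∈ Icc a b) (t : ℝ) (ht : t ∈ Icc a b) : dist (γ s) (γ t) ≤ |s - t| := by
  wlog hst : s ≤ t generalizing s t
  · rw [dist_comm, abs_sub_comm]
    exact this t ht s hs (le_of_not_ge hst)
  rw [abs_sub_comm, abs_of_nonneg (by linarith)]
  apply lip_aux (a := s) (b := b) _ t ⟨hst, ht.2⟩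
  intro u hu
  obtain ⟨ε, hε, H⟩ := h u ⟨hs.1.trans hu.1, hu.2⟩
  exact ⟨ε, hε, fun v hv => H v ⟨hs.1.trans hv.1, hv.2⟩⟩

lemma LocGeod.loc {γ : ℝ → X} {a b : ℝ} (h : LocGeod γ a b) :
    ∀ t ∈ Icc a b, ∃ ε > 0, ∀ s ∈ Icc a b, |s - t| < ε → dist (γ s) (γ t) ≤ |s - t| := by
  intro t ht
  obtain ⟨ε, hε, H⟩ := h t ht
  exact ⟨ε, hε, fun s hs hst => (H s hs t ht hst (by simpa using hε)).le⟩

lemma LocGeod.aux {γ : ℝ → X} {a b : ℝ} (hX : CN X) (h : LocGeod γ a b) (t : ℝ)
    (ht : t ∈ Icc a b) : dist (γ a) (γ t) = t - a := by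
  have hc := continuousOn_of_loc h.loc
  have hab : a ≤ b := ht.1.trans ht.2
  have hlip := lip_of_loc h.loc
  have key : Icc a b ⊆ {t | dist (γ a) (γ t) = t - a} := by
    apply IsClosed.Icc_subset_of_forall_exists_gt
    · have h1 : ContinuousOn (fun t => dist (γ a) (γ t)) (Icc a b) :=
        (continuous_const.dist continuous_id).comp_continuousOn hc
      have h1' : ContinuousOn (fun t => t - a) (Icc a b) :=
        (continuousOn_id.sub continuousOn_const : ContinuousOn (fun t => t - a) (Icc a b))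
      have h2 := (isClosed_Icc (a := a) (b := b)).isClosed_le h1 h1'
      have h3 := (isClosed_Icc (a := a) (b := b)).isClosed_le h1' h1
      convert h2.inter h3 using 1
      ext x
      simp only [mem_inter_iff, mem_ofPred_eq]
      constructor
      · rintro ⟨h, h'⟩; exact ⟨⟨h', h.le⟩, ⟨h', h.ge⟩⟩
      · rintro ⟨⟨h, h'⟩, ⟨_, h''⟩⟩; exact ⟨le_antisymm h' h'', h⟩
    · simp
    · intro x hx y hy
      obtain ⟨ε, hε, H⟩ := h x ⟨hx.2.1, hx.2.2.le⟩
      have hyx := mem_Ioi.1 hy
      rcases eq_or_lt_of_le hx.2.1 with hax | hax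
      · -- `x = a`
        set δ := min (ε/2) (min (y - x) (b - x)) with hδ
        have hδ0 : 0 < δ := lt_min (by positivity) (lt_min (by linarith)
          (by linarith [hx.2.2]))
        have hδ1 : δ ≤ ε/2 := min_le_left _ _
        have hδ2 : δ ≤ y - x := (min_le_right _ _).trans (min_le_left _ _)
        have hδ3 : δ ≤ b - x := (min_le_right _ _).trans (min_le_right _ _)
        refine ⟨x + δ, ?_, by linarith, by linarith⟩
        subst hax
        have h1 := H a ⟨le_rfl, hab⟩ (a + δ) ⟨by linarith, by linarith⟩ (by simpa using hε)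
          (by rw [add_sub_cancel_left, abs_of_pos hδ0]; linarith)
        rw [mem_ofPred_eq, h1, abs_sub_comm, add_sub_cancel_left, abs_of_pos hδ0]
      · set δ := min (ε/2) (min (y - x) (min (b - x) (x - a))) with hδ
        have hδ0 : 0 < δ := lt_min (by positivity) (lt_min (by linarith)
          (lt_min (by linarith [hx.2.2]) (by linarith)))
        have hδ1 : δ ≤ ε/2 := min_le_left _ _
        have hδ2 : δ ≤ y - x := (min_le_right _ _).trans (min_le_left _ _)
        have hδ3 : δ ≤ b - x := (min_le_right _ _).trans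
          ((min_le_right _ _).trans (min_le_left _ _))
        have hδ4 : δ ≤ x - a := (min_le_right _ _).trans
          ((min_le_right _ _).trans (min_le_right _ _))
        refine ⟨x + δ, ?_, by linarith, by linarith⟩
        have mB : x - δ ∈ Icc a b := ⟨by linarith, by linarith [hx.2.2]⟩
        have mC : x ∈ Icc a b := ⟨hx.2.1, hx.2.2.le⟩
        have mD : x + δ ∈ Icc a b := ⟨by linarith, by linarith⟩
        have mA : a ∈ Icc a b := ⟨le_rfl, hab⟩
        have aB : |x - δ - x| < ε := by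
          rw [show x - δ - x = -δ by ring, abs_neg, abs_of_pos hδ0]; linarith
        have aC : |x - x| < ε := by simpa using hε
        have aD : |x + δ - x| < ε := by
          rw [add_sub_cancel_left, abs_of_pos hδ0]; linarith
        have dBD := H _ mB _ mD aB aD
        have dCB := H _ mC _ mB aC aB
        have dCD := H _ mC _ mD aC aD
        rw [show x - δ - (x + δ) = -(2 * δ) by ring, abs_neg, abs_of_pos (by linarith)] at dBD
        rw [show x - (x - δ) = δ by ring, abs_of_pos hδ0] at dCB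
        rw [show x - (x + δ) = -δ by ring, abs_neg, abs_of_pos hδ0] at dCD
        obtain ⟨M, hM⟩ := hX (γ (x - δ)) (γ (x + δ))
        have e1 := hM (γ x)
        rw [dCB, dCD, dBD] at e1
        have e2 : dist (γ x) M = 0 := by
          have : dist (γ x) M ^ 2 ≤ 0 := by nlinarith
          have h0 := le_antisymm this (sq_nonneg _)
          exact pow_eq_zero_iff (two_ne_zero) |>.1 h0
        have e3 := hM (γ a)
        have e4 : dist (γ a) (γ x) ≤ dist (γ a) M := by
          have := dist_triangle_right (γ a) (γ x) M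
          linarith
        have e5 := hx.1
        simp only [mem_ofPred_eq] at e5
        rw [e5] at e4
        have e6 := hlip a mA _ mB
        rw [show a - (x - δ) = -(x - δ - a) by ring, abs_neg, abs_of_nonneg (by linarith)] at e6
        have e7 := pow_le_pow_left₀ (by linarith : 0 ≤ x - a) e4 2
        have e8 := pow_le_pow_left₀ dist_nonneg e6 2
        rw [dBD] at e3
        have e9 : (x + δ - a) ^ 2 ≤ dist (γ a) (γ (x + δ)) ^ 2 := by nlinarith
        have e10 := (sq_le_sq₀ (by linarith) dist_nonneg).1 e9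
        have e11 := hlip a mA _ mD
        rw [show a - (x + δ) = -(x + δ - a) by ring, abs_neg, abs_of_nonneg (by linarith)] at e11
        exact le_antisymm e11 e10
  exact key ht

/-- **In a space satisfying the midpoint inequality local geodesics are geodesics.** -/
theorem LocGeod.dist_eq {γ : ℝ → X} {a b : ℝ} (hX : CN X) (h : LocGeod γ a b) (s : ℝ)
    (hs : s ∈ Icc a b) (t : ℝ) (ht : t ∈ Icc a b) : dist (γ s) (γ t) = |s - t| := by
  wlog hst : s ≤ t generalizing s t
  · rw [dist_comm, abs_sub_comm]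
    exact this t ht s hs (le_of_not_ge hst)
  rw [abs_sub_comm, abs_of_nonneg (by linarith)]
  exact (h.mono hs.1 le_rfl).aux hX t ⟨hst, ht.2⟩

end

/-- Almost midpoints on almost geodesics: uniqueness in quantitative form. -/
lemma cat0_near {X : Type*} [MetricSpace X] [CompleteSpace X] (hX : CN X) {P Q M N : X}
    {t L η : ℝ} (hL : dist P Q = L) (ht : 0 ≤ t) (ht1 : t ≤ L) (hη : 0 ≤ η)
    (hMP : dist P M = t) (hMQ : dist M Q = L - t)
    (hNP : dist P N ≤ t + η) (hNQ : dist N Q ≤ L - t + η) :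
    dist N M ^ 2 ≤ 2 * L * η + η ^ 2 := by
  have hL0 : 0 ≤ L := ht.trans ht1
  have hcat := cat0_of_cn hX
  rcases eq_or_lt_of_le hL0 with h0 | hpos
  · have ht0 : t = 0 := by linarith
    subst ht0
    rw [dist_eq_zero] at hMP
    rw [← hMP, dist_comm, ← h0]
    have := pow_le_pow_left₀ dist_nonneg hNP 2
    linarith
  · -- the point at time `t / L` on a geodesic
    obtain ⟨γ, hγ⟩ := hcat.exists_geod P Q
    set τ := t / L with hτ
    have hτL : τ * L = t := by rw [hτ]; field_simp
    have hτ0 : 0 ≤ τ := by positivity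
    have hτ1 : τ ≤ 1 := (div_le_one hpos).2 ht1
    have hτm : τ ∈ Icc (0:ℝ) 1 := ⟨hτ0, hτ1⟩
    have h11 : (1:ℝ) ∈ Icc (0:ℝ) 1 := ⟨zero_le_one, le_rfl⟩
    have pt : ∀ Z, dist Z (γ τ) ^ 2 ≤ (1 - τ) * dist Z P ^ 2 + τ * dist Z Q ^ 2 -
        τ * (1 - τ) * dist P Q ^ 2 := by
      intro Z
      obtain ⟨δ, hδ⟩ := hcat.exists_geod P Z
      obtain ⟨p, q, r, h1, h2, h3⟩ := exists_comparison (a := dist P Q) (b := dist P Z)
        (c := dist Q Z) dist_nonneg dist_nonneg dist_nonneg
        (by rw [dist_comm Q Z]; exact dist_triangle _ _ _) (dist_triangle _ _ _)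
        (by rw [dist_comm P Q]; exact dist_triangle _ _ _)
      have key := hcat.thin P Q Z γ δ hγ hδ p q r h1 h2 h3 τ hτm 1 h11
      rw [hδ.2.1] at key
      have key2 := pow_le_pow_left₀ dist_nonneg key 2
      rw [dist_lineMap_sq, h1, h2, h3] at key2
      rw [dist_comm Z, dist_comm Z P, dist_comm Z Q]
      linarith
    have hM0 : dist M (γ τ) = 0 := by
      have h1 := pt M
      rw [dist_comm M P, hMP, hMQ, hL] at h1
      have h2 : dist M (γ τ) ^ 2 ≤ 0 := by
        have : (1 - τ) * t ^ 2 + τ * (L - t) ^ 2 - τ * (1 - τ) * L ^ 2 = 0 := by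
          rw [← hτL]; ring
        linarith
      exact pow_eq_zero_iff (two_ne_zero) |>.1 (le_antisymm h2 (sq_nonneg _))
    rw [dist_eq_zero.1 hM0]
    have h1 := pt N
    rw [hL, dist_comm N P] at h1
    have h2 := pow_le_pow_left₀ dist_nonneg hNP 2
    have h3 := pow_le_pow_left₀ dist_nonneg hNQ 2
    have h4 := mul_le_mul_of_nonneg_left h2 (by linarith : 0 ≤ 1 - τ)
    have h5 := mul_le_mul_of_nonneg_left h3 hτ0
    have h6 : (1 - τ) * (t + η) ^ 2 + τ * (L - t + η) ^ 2 - τ * (1 - τ) * L ^ 2 =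
        4 * τ * (1 - τ) * L * η + η ^ 2 := by
      rw [← hτL]; ring
    have h7 : 4 * τ * (1 - τ) * L * η ≤ 2 * L * η := by
      have : 4 * τ * (1 - τ) ≤ 2 := by nlinarith [sq_nonneg (τ - 1/2)]
      have h8 : 0 ≤ L * η := by positivity
      nlinarith
    linarith

end Pool.Agent.BR49
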