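import Pool.Agent.BR49.Plane

/-!
# The infinitely branched plane, continued
-/

open Set Metric unitInterval Topology UniformSpace Filter
open scoped ENNReal NNReal

set_option linter.unusedSectionVars false
set_option linter.unusedVariables false

noncomputable section

namespace Pool.Agent.BR49

variable {x₀ : C0}

lemma zero_notMem_of_rel {A B : Cov C0 x₀} (h : Rel A B) :
    (0:ℂ) ∉ segment ℝ (A.pt:ℂ) B.pt := by
  intro h0
  obtain ⟨h1, _⟩ := h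
  exact h1 h0 rfl

lemma smul_segment (P : C0) {s : ℝ} (hs : 0 < s) :
    segment ℝ (P:ℂ) (s • (P:ℂ)) ⊆ C0 := by
  rintro z ⟨a, b, ha, hb, hab, rfl⟩
  have hx : (P:ℂ) ≠ 0 := P.2
  have : a • (P:ℂ) + b • (s • (P:ℂ)) = (a + b * s) • (P:ℂ) := by module
  show a • (P:ℂ) + b • (s • (P:ℂ)) ≠ 0
  rw [this]
  refine smul_ne_zero ?_ hx
  rcases eq_or_lt_of_le ha with h | h
  · have : b = 1 := by linarith
    subst this; rw [← h]; linarith
  · have := mul_nonneg hb hs.le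
    linarith

/-- Scaling a point. -/
def sc (P : Cov C0 x₀) (s : ℝ) (hs : 0 < s) : Cov C0 x₀ :=
  P.step ⟨s • (P.pt:ℂ), smul_ne_zero hs.ne' P.pt.2⟩ (smul_segment P.pt hs)

lemma sc_pt (P : Cov C0 x₀) (s : ℝ) (hs : 0 < s) : ((sc P s hs).pt : ℂ) = s • (P.pt:ℂ) := rfl

lemma rel_sc (P : Cov C0 x₀) (s : ℝ) (hs : 0 < s) : Rel P (sc P s hs) := rel_step _ _ _

lemma tri_ray {Z P : ℂ} {s : ℝ} (hs : 0 < s) (hP : P ≠ 0)
    (h : (0:ℂ) ∈ tri Z P (s • P)) : (0:ℂ) ∈ segment ℝ Z P := by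
  obtain ⟨a, b, c, ha, hb, hc, hsum, h0⟩ := h
  have h1 : a • Z + (b + c * s) • P = 0 := by rw [h0]; module
  have hcs : 0 ≤ c * s := mul_nonneg hc hs.le
  have hT : 0 < a + (b + c * s) := by
    rcases eq_or_lt_of_le ha with h | h
    · rcases eq_or_lt_of_le hc with h' | h'
      · have : b = 1 := by linarith
        rw [← h, ← h', this]; norm_num
      · have := mul_pos h' hs
        linarith
    · linarith
  refine ⟨a / (a + (b + c * s)), (b + c * s) / (a + (b + c * s)), by positivity, by positivity,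
    by rw [← add_div, div_self hT.ne'], ?_⟩
  rw [div_eq_inv_mul, div_eq_inv_mul, mul_smul, mul_smul, ← smul_add, h1, smul_zero]

lemma tri_ray' {Z P : ℂ} {s : ℝ} (hs : 0 < s) (hP : P ≠ 0)
    (h : (0:ℂ) ∈ tri Z (s • P) P) : (0:ℂ) ∈ segment ℝ Z P := by
  obtain ⟨a, b, c, ha, hb, hc, hsum, h0⟩ := h
  exact tri_ray hs hP ⟨a, c, b, ha, hc, hb, by linarith, by rw [h0]; abel⟩

lemma segment_ray {Z P : ℂ} {s : ℝ} (hs : 0 < s) (hP : P ≠ 0)
    (h : (0:ℂ) ∈ segment ℝ Z P) : (0:ℂ) ∈ segment ℝ Z (s • P) := by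
  obtain ⟨a, b, ha, hb, hab, h0⟩ := h
  have hT : 0 < a * s + b := by
    rcases eq_or_lt_of_le hb with h | h
    · have : a = 1 := by linarith
      subst this; rw [← h]; linarith
    · have := mul_nonneg ha hs.le
      linarith
  refine ⟨a * s / (a * s + b), b / (a * s + b), by positivity, by positivity,
    by rw [← add_div, div_self hT.ne'], ?_⟩
  have : (a * s / (a * s + b)) • Z + (b / (a * s + b)) • (s • P) =
      (s / (a * s + b)) • (a • Z + b • P) := by module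
  rw [this, h0, smul_zero]

lemma rel_sc_iff (Z P : Cov C0 x₀) (s : ℝ) (hs : 0 < s) : Rel Z (sc P s hs) ↔ Rel Z P := by
  have hP : (P.pt:ℂ) ≠ 0 := P.pt.2
  constructor
  · intro h
    refine h.trans_tri (rel_sc P s hs).symm ?_
    intro h0
    rw [sc_pt] at h0
    have h1 := segment_ray hs hP (tri_ray' hs hP h0)
    rw [← sc_pt P s hs] at h1
    exact zero_notMem_of_rel h h1
  · intro h
    refine h.trans_tri (rel_sc P s hs) ?_
    intro h0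
    rw [sc_pt] at h0
    exact zero_notMem_of_rel h (tri_ray hs hP h0)

lemma planar2 {P Z Q : ℂ} (h : (0:ℂ) ∈ tri P Z Q) (hPQ : ‖P‖ * ‖Q‖ ≠ 0) :
    ‖Q‖ * inner ℝ Z P + ‖P‖ * inner ℝ Z Q ≤ 0 := by
  obtain ⟨a, b, c, ha, hb, hc, hs, h0⟩ := h
  have hp0 : 0 ≤ ‖P‖ := norm_nonneg P
  have hq0 : 0 ≤ ‖Q‖ := norm_nonneg Q
  have hpos : 0 < ‖P‖ * ‖Q‖ := lt_of_le_of_ne (by positivity) (Ne.symm hPQ)
  set c0 := inner ℝ P Q with hc0
  have hcs : -(‖P‖ * ‖Q‖) ≤ c0 := by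
    have := abs_real_inner_le_norm P Q
    rw [abs_le] at this
    exact this.1
  have hcs' : c0 ≤ ‖P‖ * ‖Q‖ := real_inner_le_norm P Q
  set v : ℂ := ‖Q‖ • P + ‖P‖ • Q with hv
  have e1 : ‖Q‖ * inner ℝ Z P + ‖P‖ * inner ℝ Z Q = inner ℝ Z v := by
    rw [hv, inner_add_right, inner_smul_right, inner_smul_right]
  rw [e1]
  have e2 : inner ℝ P v = ‖P‖ * (‖P‖ * ‖Q‖ + c0) := by
    rw [hv, inner_add_right, inner_smul_right, inner_smul_right, real_inner_self_eq_norm_sq]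
    ring
  have e3 : inner ℝ Q v = ‖Q‖ * (‖P‖ * ‖Q‖ + c0) := by
    rw [hv, inner_add_right, inner_smul_right, inner_smul_right, real_inner_self_eq_norm_sq,
      real_inner_comm P Q]
    ring
  have e4 : a * inner ℝ P v + b * inner ℝ Z v + c * inner ℝ Q v = 0 := by
    have : inner ℝ (a • P + b • Z + c • Q) v = 0 := by rw [← h0, inner_zero_left]
    rw [inner_add_left, inner_add_left, inner_smul_left, inner_smul_left, inner_smul_left] at this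
    simpa using this
  rw [e2, e3] at e4
  have h1 : 0 ≤ ‖P‖ * ‖Q‖ + c0 := by linarith
  rcases eq_or_lt_of_le hb with h | h
  · -- the origin lies on the segment from P to Q
    have h2 : (a * ‖P‖ + c * ‖Q‖) * (‖P‖ * ‖Q‖ + c0) = 0 := by
      rw [← h] at e4; linarith
    have hPpos : 0 < ‖P‖ := by
      rcases eq_or_lt_of_le hp0 with h' | h'
      · rw [← h'] at hpos; simp at hpos
      · exact h'
    have hQpos : 0 < ‖Q‖ := by
      rcases eq_or_lt_of_le hq0 with h' | h'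
      · rw [← h'] at hpos; simp at hpos
      · exact h'
    have h3 : 0 < a * ‖P‖ + c * ‖Q‖ := by
      rcases eq_or_lt_of_le ha with h' | h'
      · have : c = 1 := by linarith
        rw [this, ← h']; linarith
      · have := mul_pos h' hPpos
        have := mul_nonneg hc hq0
        linarith
    have h4 : ‖P‖ * ‖Q‖ + c0 = 0 := by
      rcases mul_eq_zero.1 h2 with h5 | h5
      · exact absurd h5 h3.ne'
      · exact h5
    have h5 : ‖v‖^2 = 0 := by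
      rw [hv, norm_add_sq_real, norm_smul, norm_smul, inner_smul_left, inner_smul_right]
      simp only [norm_norm, conj_trivial]
      rw [← hc0, show c0 = -(‖P‖ * ‖Q‖) by linarith]
      ring
    have h6 : v = 0 := by
      rw [sq_eq_zero_iff, norm_eq_zero] at h5; exact h5
    rw [h6, inner_zero_right]
  · have h2 : 0 ≤ a * (‖P‖ * (‖P‖ * ‖Q‖ + c0)) := by positivity
    have h3 : 0 ≤ c * (‖Q‖ * (‖P‖ * ‖Q‖ + c0)) := by positivity
    have h4 : b * inner ℝ Z v ≤ 0 := by linarith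
    by_contra hcon
    push Not at hcon
    have := mul_pos h hcon
    linarith

/-- The case of two points not joined by a straight segment, the first being the farther one. -/
lemma cnB {P Q : Cov C0 x₀} (hPQ : ¬ Rel P Q) (hle : ‖(Q.pt:ℂ)‖ ≤ ‖(P.pt:ℂ)‖) {δ : ℝ}
    (hδ : 0 < δ) (s : ℝ) (hs : 0 < s)
    (hsδ : s * ‖(P.pt:ℂ)‖ = (‖(P.pt:ℂ)‖ - ‖(Q.pt:ℂ)‖)/2 + δ) (Z : Cov C0 x₀) :
    dist Z (sc P s hs) ^ 2 ≤ dist Z P ^ 2 / 2 + dist Z Q ^ 2 / 2 - dist P Q ^ 2 / 4 +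
      δ * (2 * ‖(Z.pt:ℂ)‖ + ‖(P.pt:ℂ)‖ + δ) := by
  rw [dist_eq_DD, dist_eq_DD, dist_eq_DD, dist_eq_DD, DD_of_not_rel hPQ]
  have hP : (P.pt:ℂ) ≠ 0 := P.pt.2
  have hQ : (Q.pt:ℂ) ≠ 0 := Q.pt.2
  have hpp : 0 < ‖(P.pt:ℂ)‖ := norm_pos_iff.2 hP
  have hqq : 0 < ‖(Q.pt:ℂ)‖ := norm_pos_iff.2 hQ
  have hm : ‖((sc P s hs).pt : ℂ)‖ = (‖(P.pt:ℂ)‖ - ‖(Q.pt:ℂ)‖)/2 + δ := by
    rw [sc_pt, norm_smul, Real.norm_eq_abs, abs_of_pos hs, hsδ]
  set z := ‖(Z.pt:ℂ)‖ with hz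
  set p := ‖(P.pt:ℂ)‖ with hp
  set q := ‖(Q.pt:ℂ)‖ with hq
  have hz0 : 0 ≤ z := norm_nonneg _
  by_cases hZP : Rel Z P
  · have hZM : Rel Z (sc P s hs) := (rel_sc_iff Z P s hs).2 hZP
    rw [DD_of_rel hZM, DD_of_rel hZP]
    have e1 := norm_sub_sq_real (Z.pt:ℂ) ((sc P s hs).pt : ℂ)
    rw [hm, sc_pt, inner_smul_right] at e1
    have e2 := norm_sub_sq_real (Z.pt:ℂ) (P.pt:ℂ)
    set w := inner ℝ (Z.pt:ℂ) (P.pt:ℂ) with hw
    have hwle : w ≤ z * p := real_inner_le_norm _ _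
    have hwge : -(z * p) ≤ w := by
      have := abs_real_inner_le_norm (Z.pt:ℂ) (P.pt:ℂ)
      rw [abs_le] at this
      exact this.1
    -- - 2 s w = - ((p - q) + 2 δ) w / p
    have e3 : p * (s * w) = ((p - q)/2 + δ) * w := by rw [← hsδ]; ring
    have e4 : 0 ≤ δ * (w + z * p) := mul_nonneg hδ.le (by linarith)
    rw [sc_pt]
    by_cases hZQ : Rel Z Q
    · rw [DD_of_rel hZQ]
      have e5 := norm_sub_sq_real (Z.pt:ℂ) (Q.pt:ℂ)
      have h0 : (0:ℂ) ∈ tri P.pt Z.pt Q.pt := by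
        by_contra hcon
        exact hPQ (hZP.symm.trans_tri hZQ hcon)
      have h1 := planar2 h0 (by positivity)
      rw [← hw, ← hp, ← hq] at h1
      set w' := inner ℝ (Z.pt:ℂ) (Q.pt:ℂ) with hw'
      have h2 : p * (‖(Z.pt:ℂ) - s • (P.pt:ℂ)‖ ^ 2) ≤ p * (‖(Z.pt:ℂ) - P.pt‖ ^ 2 / 2 +
          ‖(Z.pt:ℂ) - Q.pt‖ ^ 2 / 2 - (p + q) ^ 2 / 4 + δ * (2 * z + p + δ)) := by
        rw [e1, e2, e5]
        have h3 : 0 ≤ δ * q * p := by positivity
        nlinarith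
      exact le_of_mul_le_mul_left h2 hpp
    · rw [DD_of_not_rel hZQ, ← hz, ← hq]
      have h2 : p * (‖(Z.pt:ℂ) - s • (P.pt:ℂ)‖ ^ 2) ≤ p * (‖(Z.pt:ℂ) - P.pt‖ ^ 2 / 2 +
          (z + q) ^ 2 / 2 - (p + q) ^ 2 / 4 + δ * (2 * z + p + δ)) := by
        rw [e1, e2]
        have h3 : 0 ≤ δ * q * p := by positivity
        have h4 : q * w ≤ q * (z * p) := mul_le_mul_of_nonneg_left hwle hqq.le
        nlinarith
      exact le_of_mul_le_mul_left h2 hpp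
  · have hZM : ¬ Rel Z (sc P s hs) := fun h => hZP ((rel_sc_iff Z P s hs).1 h)
    rw [DD_of_not_rel hZM, DD_of_not_rel hZP, hm, ← hz, ← hp]
    have h3 : 0 ≤ δ * q := by positivity
    have h5 : 0 ≤ z * q := by positivity
    by_cases hZQ : Rel Z Q
    · rw [DD_of_rel hZQ]
      have e5 := norm_sub_sq_real (Z.pt:ℂ) (Q.pt:ℂ)
      have h1 : inner ℝ (Z.pt:ℂ) (Q.pt:ℂ) ≤ z * q := real_inner_le_norm _ _
      rw [← hz, ← hq] at e5
      nlinarith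
    · rw [DD_of_not_rel hZQ, ← hz, ← hq]
      nlinarith

theorem approxCN_C0 : ApproxCN (Cov C0 x₀) := by
  have key : ∀ P Q : Cov C0 x₀, ¬ Rel P Q → ‖(Q.pt:ℂ)‖ ≤ ‖(P.pt:ℂ)‖ → ∀ ε > 0,
      ∃ M : Cov C0 x₀, ∀ Z : Cov C0 x₀, dist Z M ^ 2 ≤ dist Z P ^ 2 / 2 + dist Z Q ^ 2 / 2 -
        dist P Q ^ 2 / 4 + ε * (1 + ‖(Z.pt:ℂ)‖) := by
    intro P Q hPQ hle ε hε
    have hP : (P.pt:ℂ) ≠ 0 := P.pt.2
    have hQ : (Q.pt:ℂ) ≠ 0 := Q.pt.2
    have hpp : 0 < ‖(P.pt:ℂ)‖ := norm_pos_iff.2 hP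
    have hqq : 0 < ‖(Q.pt:ℂ)‖ := norm_pos_iff.2 hQ
    set p := ‖(P.pt:ℂ)‖ with hp
    set q := ‖(Q.pt:ℂ)‖ with hq
    obtain ⟨δ, hδ0, hδ1, hδε⟩ : ∃ δ > 0, δ ≤ 1 ∧ δ * (p + 3) ≤ ε := by
      refine ⟨min 1 (ε / (p + 3)), by positivity, min_le_left _ _, ?_⟩
      have h2 : min 1 (ε / (p + 3)) ≤ ε / (p + 3) := min_le_right _ _
      rwa [le_div_iff₀ (by positivity)] at h2
    have hs : 0 < ((p - q)/2 + δ) / p := by
      apply div_pos _ hpp
      linarith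
    refine ⟨sc P (((p - q)/2 + δ) / p) hs, fun Z => ?_⟩
    have h1 := cnB hPQ hle hδ0 (((p - q)/2 + δ) / p) hs (by
      rw [← hp, div_mul_cancel₀ _ hpp.ne']) Z
    have hz := norm_nonneg (Z.pt:ℂ)
    have h2 : δ * (2 * ‖(Z.pt:ℂ)‖ + p + δ) ≤ ε * (1 + ‖(Z.pt:ℂ)‖) := by
      calc δ * (2 * ‖(Z.pt:ℂ)‖ + p + δ) ≤ δ * ((p + 3) * (1 + ‖(Z.pt:ℂ)‖)) := by
            apply mul_le_mul_of_nonneg_left _ hδ0.le
            nlinarith [mul_nonneg hpp.le hz]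
        _ = δ * (p + 3) * (1 + ‖(Z.pt:ℂ)‖) := by ring
        _ ≤ ε * (1 + ‖(Z.pt:ℂ)‖) := mul_le_mul_of_nonneg_right hδε (by positivity)
    rw [← hp] at h1
    linarith
  intro P Q ε hε
  by_cases hPQ : Rel P Q
  · have hseg : segment ℝ (P.pt:ℂ) Q.pt ⊆ C0 := hPQ.choose
    have hmid : (1/2 : ℝ) • ((P.pt:ℂ) + Q.pt) ∈ segment ℝ (P.pt:ℂ) Q.pt :=
      ⟨1/2, 1/2, by norm_num, by norm_num, by norm_num, by module⟩
    have hm0 : (1/2 : ℝ) • ((P.pt:ℂ) + Q.pt) ∈ C0 := hseg hmid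
    set m : C0 := ⟨(1/2 : ℝ) • ((P.pt:ℂ) + Q.pt), hm0⟩ with hm
    have hsegm : segment ℝ (P.pt:ℂ) m ⊆ C0 :=
      ((convex_segment _ _).segment_subset (left_mem_segment ℝ _ _) hmid).trans hseg
    set M := P.step m hsegm with hM
    have hPM : Rel P M := rel_step _ _ _
    have hMQ : Rel M Q := by
      have hsegm' : segment ℝ (m:ℂ) Q.pt ⊆ C0 :=
        ((convex_segment _ _).segment_subset hmid (right_mem_segment ℝ _ _)).trans hseg
      refine ⟨hsegm', ?_⟩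
      have h1 := step_step_convex (convex_segment (P.pt:ℂ) Q.pt) hseg P m Q.pt
        (left_mem_segment ℝ _ _) hmid (right_mem_segment ℝ _ _) hsegm hsegm' hseg
      exact h1.trans hPQ.choose_spec
    refine ⟨M, fun Z => ?_⟩
    have h1 := cnA hPQ hPM hMQ.symm rfl Z
    have h2 : 0 ≤ ε * (1 + dist Z P)^2 := by positivity
    linarith
  · have hbound : ∀ Z : Cov C0 x₀, ‖(Z.pt:ℂ)‖ ≤ dist Z P + ‖(P.pt:ℂ)‖ := by
      intro Z
      have h1 := dist_pt_le Z P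
      rw [dist_eq_norm] at h1
      have h2 := norm_sub_norm_le (Z.pt:ℂ) P.pt
      linarith
    set p := ‖(P.pt:ℂ)‖ with hp
    have hp0 : 0 ≤ p := norm_nonneg _
    have fin : ∀ Z : Cov C0 x₀, (ε / (1 + p)) * (1 + ‖(Z.pt:ℂ)‖) ≤ ε * (1 + dist Z P)^2 := by
      intro Z
      have h1 := hbound Z
      have hd : 0 ≤ dist Z P := dist_nonneg
      rw [div_mul_eq_mul_div, div_le_iff₀ (by positivity)]
      have h2 : 1 + ‖(Z.pt:ℂ)‖ ≤ (1 + dist Z P)^2 * (1 + p) := by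
        nlinarith [mul_nonneg hd hp0, mul_nonneg (mul_nonneg hd hd) hp0]
      calc ε * (1 + ‖(Z.pt:ℂ)‖) ≤ ε * ((1 + dist Z P)^2 * (1 + p)) :=
            mul_le_mul_of_nonneg_left h2 hε.le
        _ = ε * (1 + dist Z P)^2 * (1 + p) := by ring
    rcases le_total ‖(Q.pt:ℂ)‖ ‖(P.pt:ℂ)‖ with h | h
    · obtain ⟨M, hM⟩ := key P Q hPQ h (ε / (1 + p)) (by positivity)
      exact ⟨M, fun Z => by linarith [hM Z, fin Z]⟩
    · obtain ⟨M, hM⟩ := key Q P (fun h => hPQ h.symm) h (ε / (1 + p)) (by positivity)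
      refine ⟨M, fun Z => ?_⟩
      have h1 := hM Z
      rw [dist_comm Q P] at h1
      linarith [fin Z]

end Pool.Agent.BR49
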