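import Pool.Agent.BR49.Conf
import Pool.Agent.BR49.Plane2

/-!
# Products of universal length coverings
-/

open Set Metric unitInterval Topology UniformSpace Filter
open scoped ENNReal NNReal

set_option linter.unusedSectionVars false
set_option linter.unusedVariables false

noncomputable section

namespace Pool.Agent.BR49

section general
variable {V : Type*} [NormedAddCommGroup V] [NormedSpace ℝ V] {U : Set V} {x₀ : U}

/-- `p` and `q` are joined by a path parametrised on `[0, L]` with speed at most one. -/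
def Conn [LocConvex U] (p q : Cov U x₀) (L : ℝ) : Prop :=
  0 ≤ L ∧ ∃ γ : ℝ → Cov U x₀, γ 0 = p ∧ γ L = q ∧
    ∀ s ∈ Icc 0 L, ∀ t ∈ Icc 0 L, dist (γ s) (γ t) ≤ |s - t|

lemma Conn.refl [LocConvex U] (p : Cov U x₀) : Conn p p 0 :=
  ⟨le_rfl, fun _ => p, rfl, rfl, fun s _ t _ => by rw [dist_self]; exact abs_nonneg _⟩

lemma Conn.trans [LocConvex U] {p q r : Cov U x₀} {L L' : ℝ} (h : Conn p q L)
    (h' : Conn q r L') : Conn p r (L + L') := by
  obtain ⟨hL, γ, h0, h1, h2⟩ := h
  obtain ⟨hL', δ, h0', h1', h2'⟩ := h'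
  refine ⟨by linarith, fun s => if s ≤ L then γ s else δ (s - L), ?_, ?_, ?_⟩
  · simp [hL, h0]
  · by_cases h : L' = 0
    · have hle : L + L' ≤ L := by linarith
      simp only [hle, if_true]
      rw [h, add_zero, h1, ← h0', ← h1', h]
    · have hlt : ¬ (L + L' ≤ L) := by
        have : 0 < L' := lt_of_le_of_ne hL' (Ne.symm h)
        linarith
      simp only [hlt, if_false]
      rw [add_sub_cancel_left, h1']
  · have key : ∀ s ∈ Icc 0 (L + L'), ∀ t ∈ Icc 0 (L + L'), s ≤ t →
        dist (if s ≤ L then γ s else δ (s - L)) (if t ≤ L then γ t else δ (t - L)) ≤ t - s := by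
      intro s hs t ht hst
      by_cases h3 : t ≤ L
      · have h4 : s ≤ L := hst.trans h3
        rw [if_pos h3, if_pos h4]
        have := h2 s ⟨hs.1, h4⟩ t ⟨ht.1, h3⟩
        rwa [abs_sub_comm, abs_of_nonneg (by linarith)] at this
      · push Not at h3
        by_cases h4 : s ≤ L
        · rw [if_pos h4, if_neg (not_le.2 h3)]
          have e1 := h2 s ⟨hs.1, h4⟩ L ⟨hL, le_rfl⟩
          have e2 := h2' 0 ⟨le_rfl, hL'⟩ (t - L) ⟨by linarith, by linarith [ht.2]⟩
          rw [abs_sub_comm, abs_of_nonneg (by linarith), h1] at e1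
          rw [zero_sub, abs_neg, abs_of_nonneg (by linarith), h0'] at e2
          have := dist_triangle (γ s) q (δ (t - L))
          linarith
        · push Not at h4
          rw [if_neg (not_le.2 h3), if_neg (not_le.2 h4)]
          have e2 := h2' (s - L) ⟨by linarith, by linarith [hs.2]⟩ (t - L)
            ⟨by linarith, by linarith [ht.2]⟩
          rw [abs_sub_comm, abs_of_nonneg (by linarith)] at e2
          linarith
    intro s hs t ht
    rcases le_total s t with h | h
    · rw [abs_sub_comm, abs_of_nonneg (by linarith)]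
      exact key s hs t ht h
    · rw [abs_of_nonneg (by linarith), dist_comm]
      exact key t ht s hs h

lemma lineMap_mem_segment' (x y : V) {t : ℝ} (h0 : 0 ≤ t) (h1 : t ≤ 1) :
    (AffineMap.lineMap x y t : V) ∈ segment ℝ x y := by
  rw [segment_eq_image_lineMap]; exact ⟨t, ⟨h0, h1⟩, rfl⟩

lemma Conn.step [LocConvex U] (p : Cov U x₀) (y : U) (h : segment ℝ (p.pt:V) y ⊆ U) :
    Conn p (p.step y h) (dist (p.pt:V) y) := by
  refine ⟨dist_nonneg, ?_⟩
  set L := dist (p.pt:V) y with hL
  have hL0 : 0 ≤ L := dist_nonneg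
  set τ : ℝ → ℝ := fun s => max 0 (min 1 (s / L)) with hτ
  have hτ0 : ∀ s, 0 ≤ τ s := fun s => le_max_left _ _
  have hτ1 : ∀ s, τ s ≤ 1 := fun s => max_le zero_le_one (min_le_left _ _)
  have hτs : ∀ s ∈ Icc 0 L, τ s = s / L := by
    intro s hs
    have h1 : 0 ≤ s / L := div_nonneg hs.1 hL0
    have h2 : s / L ≤ 1 := by
      rcases eq_or_lt_of_le hL0 with h | h
      · rw [← h, div_zero]; exact zero_le_one
      · rw [div_le_one h]; exact hs.2
    simp only [hτ]
    rw [min_eq_right h2, max_eq_right h1]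
  have hmem : ∀ s, (AffineMap.lineMap (p.pt:V) (y:V) (τ s) : V) ∈ segment ℝ (p.pt:V) y :=
    fun s => lineMap_mem_segment' _ _ (hτ0 s) (hτ1 s)
  set m : ℝ → U := fun s => ⟨AffineMap.lineMap (p.pt:V) (y:V) (τ s), h (hmem s)⟩ with hm
  have hseg : ∀ s, segment ℝ (p.pt:V) (m s : V) ⊆ U := fun s =>
    ((convex_segment _ _).segment_subset (left_mem_segment ℝ _ _) (hmem s)).trans h
  have aux : ∀ (a b : U) (ha : segment ℝ (p.pt:V) (a:V) ⊆ U) (hb : segment ℝ (p.pt:V) (b:V) ⊆ U),
      a = b → p.step a ha = p.step b hb := by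
    rintro a b ha hb rfl; rfl
  refine ⟨fun s => p.step (m s) (hseg s), ?_, ?_, ?_⟩
  · have h2 : segment ℝ (p.pt:V) p.pt ⊆ U := by
      rw [segment_same]; exact singleton_subset_iff.2 p.pt.2
    refine (aux _ _ _ h2 ?_).trans (step_self p h2)
    apply Subtype.ext
    simp only [hm]
    rw [hτs 0 ⟨le_rfl, hL0⟩]
    simp
  · apply aux
    apply Subtype.ext
    simp only [hm]
    rw [hτs L ⟨hL0, le_rfl⟩]
    rcases eq_or_lt_of_le hL0 with h | h
    · have h3 : (p.pt:V) = y := dist_eq_zero.1 (hL ▸ h.symm)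
      simp [h3]
    · simp [h.ne']
  · intro s hs t ht
    have hst : segment ℝ (m s : V) (m t : V) ⊆ U :=
      ((convex_segment _ _).segment_subset (hmem s) (hmem t)).trans h
    have h3 := step_step_convex (convex_segment (p.pt:V) (y:V)) h p (m s) (m t)
      (left_mem_segment ℝ _ _) (hmem s) (hmem t) (hseg s) hst (hseg t)
    show dist (p.step (m s) (hseg s)) (p.step (m t) (hseg t)) ≤ |s - t|
    rw [← h3, dist_step_eq]
    simp only [step_pt, hm]
    rw [dist_lineMap_lineMap, ← hL, Real.dist_eq, hτs s hs, hτs t ht]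
    rcases eq_or_lt_of_le hL0 with h | h
    · rw [← h, mul_zero]; exact abs_nonneg _
    · rw [← sub_div, abs_div, abs_of_pos h, div_mul_cancel₀ _ h.ne']

lemma exists_conn [LocConvex U] (p q : Cov U x₀) {ε : ℝ} (hε : 0 < ε) :
    ∃ L, L ≤ dist p q + ε ∧ Conn p q L := by
  obtain ⟨c, hc, hlen⟩ := exists_path_lt p q hε
  obtain ⟨P, N, hP0, hPN, hch, hsum, -, -⟩ := exists_chain (fun _ => 1) (fun _ => one_pos) p c
  have hq : P N = q := by
    rw [hPN]
    cases q
    simp only at hc ⊢
    rw [← hc]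
  set S : ℕ → ℝ := fun k => ∑ j ∈ Finset.range k, dist ((P j).pt : V) (P (j+1)).pt with hS
  have hSN : S N ≤ dist p q + ε := by
    have h1 : ENNReal.ofReal (S N) ≤ plen c := by
      refine le_trans (le_of_eq ?_) hsum
      rw [hS, ENNReal.ofReal_sum_of_nonneg (fun _ _ => dist_nonneg)]
      apply Finset.sum_congr rfl
      intro j _
      rw [edist_dist]
    exact ((ENNReal.ofReal_lt_ofReal_iff (by positivity)).1 (lt_of_le_of_lt h1 hlen)).le
  have key : ∀ k ≤ N, Conn p (P k) (S k) := by
    intro k hk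
    induction k with
    | zero => rw [hP0]; simp only [hS, Finset.range_zero, Finset.sum_empty]; exact Conn.refl p
    | succ k ih =>
      have h4 : S (k+1) = S k + dist ((P k).pt : V) (P (k+1)).pt := Finset.sum_range_succ _ _
      rw [h4]
      obtain ⟨h, hst⟩ := hch k (by omega)
      have h5 := Conn.step (P k) _ h
      rw [hst] at h5
      exact (ih (by omega)).trans h5
  refine ⟨S N, hSN, ?_⟩
  rw [← hq]
  exact key N le_rfl

/-- Nearby points of the covering are joined by straight steps. -/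
lemma exists_rel_ball [LocConvex U] (p : Cov U x₀) :
    ∃ ε > 0, ∀ q q' : Cov U x₀, dist q p < ε → dist q' p < ε → Rel q q' := by
  obtain ⟨ε, hε, hconv⟩ := LocConvex.exists_ball (U := U) p.pt p.pt.2
  refine ⟨ε/4, by positivity, fun q q' hq hq' => ?_⟩
  have hqq : dist q q' < ε/2 := by
    have := dist_triangle_right q q' p
    linarith
  have hqp : dist (q.pt:V) p.pt < ε/4 := lt_of_le_of_lt (dist_pt_le q p) hq
  have hqp' : dist (q'.pt:V) p.pt < ε/4 := lt_of_le_of_lt (dist_pt_le q' p) hq'
  have he : edist q q' < ENNReal.ofReal (ε/2) := by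
    rw [edist_dist]
    exact (ENNReal.ofReal_lt_ofReal_iff (by positivity)).2 hqq
  obtain ⟨c, hc, hcl⟩ := exists_path_of_edist_lt he
  have hmem : ∀ t, ((c t : U) : V) ∈ U ∩ ball (p.pt:V) ε := by
    intro t
    refine ⟨(c t).2, ?_⟩
    have h1 : edist (q.pt : V) (c t) ≤ plen c := by
      have := eVariationOn.edist_le (fun t : I => ((c t : U) : V)) (mem_univ 0) (mem_univ t)
      unfold plen
      simpa using this
    have h2 := h1.trans_lt hcl
    rw [edist_dist, ENNReal.ofReal_lt_ofReal_iff (by positivity)] at h2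
    rw [mem_ball]
    have h3 := dist_triangle_left ((c t : U) : V) p.pt q.pt
    linarith
  have hqm : (q.pt:V) ∈ U ∩ ball (p.pt:V) ε := by
    have := hmem 0
    simpa using this
  have hqm' : (q'.pt:V) ∈ U ∩ ball (p.pt:V) ε := by
    have := hmem 1
    simpa using this
  have hseg : segment ℝ (q.pt:V) q'.pt ⊆ U :=
    (hconv.segment_subset hqm hqm').trans inter_subset_left
  refine ⟨hseg, ?_⟩
  have h5 : Path.Homotopic c (seg hseg) := by
    apply homotopic_of_segment
    intro t
    refine (hconv.segment_subset (hmem t) ?_).trans inter_subset_left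
    apply hconv.segment_subset hqm hqm'
    rw [segment_eq_image_lineMap]
    exact ⟨t, t.2, rfl⟩
  unfold Cov.step
  cases q' with
  | mk y Q =>
    congr 1
    simp only at hc ⊢
    rw [← hc]
    congr 1
    exact (Path.Homotopic.Quotient.eq.2 h5).symm

end general

section product
variable {n : ℕ} (A : Fin n → Set ℂ)

/-- The product set. -/
def PiSet : Set (E n) := {u | ∀ k, u k ∈ A k}

instance [∀ k, LocConvex (A k)] : LocConvex (PiSet A) := by
  refine ⟨fun x hx => ?_⟩
  choose ε hε hconv using fun k => LocConvex.exists_ball (U := A k) (x k) (hx k)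
  obtain ⟨δ, hδ, hδε⟩ : ∃ δ > 0, ∀ k, δ ≤ ε k := by
    rcases isEmpty_or_nonempty (Fin n) with h | h
    · exact ⟨1, one_pos, fun k => h.elim k⟩
    · obtain ⟨k, hk⟩ := Finite.exists_min ε
      exact ⟨ε k, hε k, hk⟩
  refine ⟨δ, hδ, ?_⟩
  rintro u ⟨hu, hu'⟩ v ⟨hv, hv'⟩ a b ha hb hab
  refine ⟨fun k => ?_, convex_ball x δ hu' hv' ha hb hab⟩
  have hk : ∀ w ∈ ball x δ, w k ∈ ball (x k) (ε k) := by
    intro w hw
    rw [mem_ball, dist_eq_norm] at hw ⊢
    have h1 : ‖(w - x) k‖ ≤ ‖w - x‖ := PiLp.norm_apply_le (w - x) k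
    have h2 : (w - x) k = w k - x k := rfl
    rw [h2] at h1
    exact lt_of_le_of_lt h1 (lt_of_lt_of_le hw (hδε k))
  have := (hconv k) ⟨hu k, hk u hu'⟩ ⟨hv k, hk v hv'⟩ ha hb hab
  exact this.1

/-- The coordinate projections. -/
def prC (k : Fin n) : C(PiSet A, A k) :=
  ⟨fun u => ⟨(u : E n) k, u.2 k⟩, Continuous.subtype_mk (by fun_prop) _⟩

variable {A}

lemma prC_coe (k : Fin n) (u : PiSet A) : ((prC A k u : A k) : ℂ) = (u : E n) k := rfl

variable {x₀ : PiSet A}

/-- The components of a point of the covering of a product. -/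
def cmp (P : Cov (PiSet A) x₀) (k : Fin n) : Cov (A k) (prC A k x₀) :=
  P.map (prC A k) (Path.Homotopic.Quotient.refl _)

lemma cmp_pt (P : Cov (PiSet A) x₀) (k : Fin n) : (cmp P k).pt = prC A k P.pt := rfl

lemma seg_cmp {x y : PiSet A} (h : segment ℝ (x:E n) y ⊆ PiSet A) (k : Fin n) :
    segment ℝ ((prC A k x : A k) : ℂ) (prC A k y : A k) ⊆ A k := by
  rintro z ⟨a, b, ha, hb, hab, rfl⟩
  exact h ⟨a, b, ha, hb, hab, rfl⟩ k

lemma cmp_step (P : Cov (PiSet A) x₀) (y : PiSet A) (h : segment ℝ (P.pt:E n) y ⊆ PiSet A)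
    (k : Fin n) : cmp (P.step y h) k = (cmp P k).step (prC A k y) (seg_cmp h k) := by
  unfold cmp
  rw [map_step (prC A k) _ P y h (seg_cmp h k)]
  have : (seg h).map (prC A k).continuous = seg (seg_cmp h k) := by
    ext t
    simp only [Path.map_coe, Function.comp, prC_coe, seg_apply]
    simp [AffineMap.lineMap_apply]
  rw [this]

/-- The product distance. -/
def DP [∀ k, LocConvex (A k)] (P Q : Cov (PiSet A) x₀) : ℝ :=
  ‖(WithLp.toLp 2 (fun k => dist (cmp P k) (cmp Q k)) : EuclideanSpace ℝ (Fin n))‖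

lemma DP_sq [∀ k, LocConvex (A k)] (P Q : Cov (PiSet A) x₀) :
    DP P Q ^ 2 = ∑ k, dist (cmp P k) (cmp Q k) ^ 2 := by
  unfold DP
  rw [EuclideanSpace.norm_eq, Real.sq_sqrt (by positivity)]
  simp

lemma norm_le_norm_of_le {a b : EuclideanSpace ℝ (Fin n)} (h0 : ∀ k, 0 ≤ a k)
    (h : ∀ k, a k ≤ b k) : ‖a‖ ≤ ‖b‖ := by
  refine (sq_le_sq₀ (norm_nonneg _) (norm_nonneg _)).1 ?_
  rw [EuclideanSpace.norm_eq, EuclideanSpace.norm_eq, Real.sq_sqrt (by positivity),
    Real.sq_sqrt (by positivity)]
  apply Finset.sum_le_sum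
  intro k _
  apply pow_le_pow_left₀ (norm_nonneg _)
  rw [Real.norm_eq_abs, Real.norm_eq_abs, abs_of_nonneg (h0 k),
    abs_of_nonneg ((h0 k).trans (h k))]
  exact h k

theorem DP_le [∀ k, LocConvex (A k)] (P Q : Cov (PiSet A) x₀) : DP P Q ≤ dist P Q := by
  have := le_dist_of_local (DP (x₀ := x₀) (A := A)) 1 zero_le_one ?_ ?_ ?_ P Q
  · rwa [one_mul] at this
  · intro p
    have : DP p p ^ 2 = 0 := by rw [DP_sq]; simp
    exact pow_eq_zero_iff (two_ne_zero) |>.1 this
  · intro p q r
    unfold DP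
    refine le_trans (norm_le_norm_of_le (b := WithLp.toLp 2 (fun k => dist (cmp p k) (cmp q k)) +
      WithLp.toLp 2 (fun k => dist (cmp q k) (cmp r k))) (fun k => dist_nonneg) (fun k => ?_))
      (norm_add_le _ _)
    exact dist_triangle _ _ _
  · intro x
    refine ⟨1, one_pos, fun p y h _ _ => ?_⟩
    rw [one_mul]
    refine (sq_le_sq₀ (norm_nonneg _) dist_nonneg).1 ?_
    have h1 : DP p (p.step y h) ^ 2 ≤ dist (p.pt : E n) y ^ 2 := by
      rw [DP_sq, dist_eq_norm, EuclideanSpace.norm_eq, Real.sq_sqrt (by positivity)]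
      apply Finset.sum_le_sum
      intro k _
      rw [cmp_step]
      apply pow_le_pow_left₀ dist_nonneg
      refine (dist_step_le _ _ _).trans (le_of_eq ?_)
      rw [dist_eq_norm, cmp_pt, prC_coe, prC_coe]
      rfl
    exact h1

/-- The components determine a point of the covering of a product. -/
theorem cmp_injective {P Q : Cov (PiSet A) x₀} (h : ∀ k, cmp P k = cmp Q k) : P = Q := by
  obtain ⟨y, P⟩ := P
  obtain ⟨y', Q⟩ := Q
  have hy : y = y' := by
    apply Subtype.ext
    ext k
    have := congrArg (fun p : Cov (A k) (prC A k x₀) => ((p.pt : A k) : ℂ)) (h k)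
    exact this
  subst hy
  congr 1
  induction P using Path.Homotopic.Quotient.ind with
  | mk c =>
    induction Q using Path.Homotopic.Quotient.ind with
    | mk d =>
      have hk : ∀ k, Path.Homotopic (c.map (prC A k).continuous) (d.map (prC A k).continuous) := by
        intro k
        have h1 := h k
        unfold cmp Cov.map at h1
        simp only [Cov.mk.injEq, heq_eq_eq, true_and] at h1
        rw [Path.Homotopic.Quotient.refl_trans, Path.Homotopic.Quotient.refl_trans,
          ← Path.Homotopic.Quotient.mk_map, ← Path.Homotopic.Quotient.mk_map,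
          Path.Homotopic.Quotient.eq] at h1
        exact h1
      rw [Path.Homotopic.Quotient.eq]
      have HH : ∀ k, Path.Homotopy (c.map (prC A k).continuous) (d.map (prC A k).continuous) :=
        fun k => Classical.choice (hk k)
      refine ⟨⟨⟨⟨fun st => ⟨WithLp.toLp 2 (fun k => ((HH k st : A k) : ℂ)), fun k => (HH k st).2⟩,
        ?_⟩, ?_, ?_⟩, ?_⟩⟩
      · refine Continuous.subtype_mk ?_ _
        apply (PiLp.continuous_toLp 2 _).comp
        exact continuous_pi fun k => continuous_subtype_val.comp (HH k).continuous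
      · intro t
        apply Subtype.ext
        ext k
        simp only
        rw [(HH k).apply_zero]
        rfl
      · intro t
        apply Subtype.ext
        ext k
        simp only
        rw [(HH k).apply_one]
        rfl
      · intro t s hs
        apply Subtype.ext
        ext k
        have h5 := (HH k).eq_fst t hs
        show ((HH k (t, s) : A k) : ℂ) = _
        rw [h5]
        rfl

end product

end Pool.Agent.BR49
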