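import Pool.Agent.BR49.LocGeod
import Pool.Agent.BR49.Product

/-!
# Local geodesics and maps which are local isometries along them
-/

open Set Metric Topology Filter UniformSpace

noncomputable section

namespace Pool.Agent.BR49

/-- Any two points are almost joined by almost shortest paths. -/
def AlmostConn (X : Type*) [PseudoMetricSpace X] : Prop :=
  ∀ P Q : X, ∀ η > 0, ∃ L, 0 ≤ L ∧ L ≤ dist P Q + η ∧ ∃ c : ℝ → X, dist (c 0) P ≤ η ∧
    dist (c L) Q ≤ η ∧ ∀ s ∈ Icc 0 L, ∀ t ∈ Icc 0 L, dist (c s) (c t) ≤ |s - t|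

section
variable {V : Type*} [NormedAddCommGroup V] [NormedSpace ℝ V] {U : Set V} {x₀ : U}

lemma almostConn_ram [LocConvex U] : AlmostConn (Ram x₀) := by
  intro P Q η hη
  obtain ⟨p, hp⟩ := Metric.denseRange_iff.1 (Completion.denseRange_coe (α := Cov U x₀)) P (η/4)
    (by positivity)
  obtain ⟨q, hq⟩ := Metric.denseRange_iff.1 (Completion.denseRange_coe (α := Cov U x₀)) Q (η/4)
    (by positivity)
  obtain ⟨L, hL, hL0, γ, h0, h1, h2⟩ := exists_conn p q (ε := η/4) (by positivity)
  refine ⟨L, hL0, ?_, fun t => (γ t : Ram x₀), ?_, ?_, ?_⟩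
  · have h3 := dist_triangle4_left P Q (p : Ram x₀) (q : Ram x₀)
    have h4 := dist_triangle4 (p : Ram x₀) P Q (q : Ram x₀)
    rw [Completion.dist_eq, dist_comm (p : Ram x₀) P] at h4
    linarith
  · simp only [h0]
    rw [dist_comm]; linarith
  · simp only [h1]
    rw [dist_comm]; linarith
  · intro s hs t ht
    rw [Completion.dist_eq]
    exact h2 s hs t ht

end

section
variable {X Y : Type*} [MetricSpace X] [MetricSpace Y] {F : X → Y} {γ : ℝ → X} {a b : ℝ}

/-- Uniform radius. -/
lemma exists_uniform_radius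
    (hγ : ∀ s ∈ Icc a b, ∀ t ∈ Icc a b, dist (γ s) (γ t) ≤ |s - t|)
    (hloc : ∀ t ∈ Icc a b, ∃ r > 0, ∀ Q Q', dist Q (γ t) < r → dist Q' (γ t) < r →
      dist (F Q) (F Q') = dist Q Q') :
    ∃ r > 0, ∀ t ∈ Icc a b, ∀ Q Q', dist Q (γ t) < r → dist Q' (γ t) < r →
      dist (F Q) (F Q') = dist Q Q' := by
  have hcomp : IsCompact (Icc a b) := isCompact_Icc
  refine hcomp.induction_on (p := fun S => ∃ r > 0, ∀ t ∈ S, t ∈ Icc a b →
    ∀ Q Q', dist Q (γ t) < r → dist Q' (γ t) < r → dist (F Q) (F Q') = dist Q Q') ?_ ?_ ?_ ?_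
    |>.imp fun r h => ⟨h.1, fun t ht => h.2 t ht ht⟩
  · exact ⟨1, one_pos, fun t ht => absurd ht (Set.notMem_empty t)⟩
  · rintro S T hST ⟨r, hr, H⟩
    exact ⟨r, hr, fun t ht => H t (hST ht)⟩
  · rintro S T ⟨r, hr, H⟩ ⟨r', hr', H'⟩
    refine ⟨min r r', lt_min hr hr', ?_⟩
    rintro t (ht | ht) htI Q Q' hQ hQ'
    · exact H t ht htI Q Q' (hQ.trans_le (min_le_left _ _)) (hQ'.trans_le (min_le_left _ _))
    · exact H' t ht htI Q Q' (hQ.trans_le (min_le_right _ _)) (hQ'.trans_le (min_le_right _ _))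
  · intro t ht
    obtain ⟨r, hr, H⟩ := hloc t ht
    refine ⟨Metric.ball t (r/2), mem_nhdsWithin_of_mem_nhds (Metric.ball_mem_nhds t (by positivity)), r/2,
      by positivity, ?_⟩
    intro s hs hsI Q Q' hQ hQ'
    have h1 := hγ s hsI t ht
    rw [Metric.mem_ball, Real.dist_eq] at hs
    apply H
    · have := dist_triangle Q (γ s) (γ t); linarith
    · have := dist_triangle Q' (γ s) (γ t); linarith

/-- A local geodesic is the unique geodesic between its end points as soon as there is a map to a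
space satisfying the midpoint inequality which is a local isometry near the local geodesic. -/
theorem unique_of_locIso [CompleteSpace Y] (hY : CN Y) (hX : AlmostConn X)
    (hF : ∀ P Q, dist (F P) (F Q) ≤ dist P Q)
    (hγ : ∀ s ∈ Icc a b, ∀ t ∈ Icc a b, dist (γ s) (γ t) ≤ |s - t|)
    (hFγ : ∀ s ∈ Icc a b, ∀ t ∈ Icc a b, dist (F (γ s)) (F (γ t)) = |s - t|)
    (hloc : ∀ t ∈ Icc a b, ∃ r > 0, ∀ Q Q', dist Q (γ t) < r → dist Q' (γ t) < r →
      dist (F Q) (F Q') = dist Q Q')
    {N : X} {t : ℝ} (ht : t ∈ Icc a b) (h1 : dist (γ a) N ≤ t - a) (h2 : dist N (γ b) ≤ b - t) :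
    N = γ t := by
  obtain ⟨r, hr, hiso⟩ := exists_uniform_radius hγ hloc
  have hab : a ≤ b := ht.1.trans ht.2
  have ma : a ∈ Icc a b := ⟨le_rfl, hab⟩
  have mb : b ∈ Icc a b := ⟨hab, le_rfl⟩
  have hlen : dist (γ a) (γ b) = b - a := by
    apply le_antisymm
    · have := hγ a ma b mb
      rwa [abs_sub_comm, abs_of_nonneg (by linarith)] at this
    · have := hFγ a ma b mb
      rw [abs_sub_comm, abs_of_nonneg (by linarith)] at this
      rw [← this]; exact hF _ _
  have h1' : dist (γ a) N = t - a := by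
    apply le_antisymm h1
    have := dist_triangle (γ a) N (γ b)
    linarith
  have key : ∀ κ > 0, κ < r / 2 → dist N (γ t) ≤ 4 * κ := by
    intro κ hκ hκr
    -- choice of `η`
    obtain ⟨η, hη, hηκ, hη2⟩ : ∃ η > 0, η ≤ κ / 2 ∧ 2 * (b - a) * (2 * η) + (2 * η)^2 ≤ κ^2 := by
      refine ⟨min (κ/2) (κ^2 / (4 * (b - a) + 4 * κ)), ?_, min_le_left _ _, ?_⟩
      · have : 0 < 4 * (b - a) + 4 * κ := by linarith
        positivity
      · set η := min (κ/2) (κ^2 / (4 * (b - a) + 4 * κ)) with hη
        have h3 : 0 < 4 * (b - a) + 4 * κ := by linarith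
        have h4 : η ≤ κ^2 / (4 * (b - a) + 4 * κ) := min_le_right _ _
        rw [le_div_iff₀ h3] at h4
        have h5 : η ≤ κ/2 := min_le_left _ _
        have h6 : 0 < η := by positivity
        nlinarith
    obtain ⟨L, hL0, hL, c, hc0, hcL, hc⟩ := hX (γ a) N η hη
    rw [h1'] at hL
    set τ : ℝ → ℝ := fun s => min s (t - a) with hτ
    have hta : 0 ≤ t - a := by linarith [ht.1]
    have hτI : ∀ s ∈ Icc 0 L, a + τ s ∈ Icc a b := by
      intro s hs
      have h3 : 0 ≤ τ s := le_min hs.1 hta
      have h4 : τ s ≤ t - a := min_le_right _ _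
      exact ⟨by linarith, by linarith [ht.2]⟩
    have hτL : ∀ s s', |τ s - τ s'| ≤ |s - s'| := by
      intro s s'
      exact abs_min_sub_min_le_max s (t - a) s' (t - a) |>.trans (by simp)
    have near : ∀ s ∈ Icc 0 L, dist (F (c s)) (F (γ (a + τ s))) ≤ κ := by
      intro s hs
      have hs0 : 0 ≤ τ s := le_min hs.1 hta
      have hs1 : τ s ≤ t - a := min_le_right _ _
      have hs2 : τ s ≤ s := min_le_left _ _
      have hs3 : s ≤ τ s + η := by
        rcases le_total s (t - a) with h | h
        · simp only [hτ]; rw [min_eq_left h]; linarith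
        · simp only [hτ]; rw [min_eq_right h]; linarith [hs.2]
      have m0 : (0:ℝ) ∈ Icc 0 L := ⟨le_rfl, hL0⟩
      have mL : L ∈ Icc 0 L := ⟨hL0, le_rfl⟩
      have e1 := hc 0 m0 s hs
      rw [zero_sub, abs_neg, abs_of_nonneg hs.1] at e1
      have e2 := hc s hs L mL
      rw [abs_sub_comm, abs_of_nonneg (by linarith [hs.2])] at e2
      have e3 : dist (γ a) (c s) ≤ τ s + 2 * η := by
        have := dist_triangle_left (γ a) (c s) (c 0)
        linarith
      have e4 : dist (c s) (γ b) ≤ (b - a) - τ s + 2 * η := by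
        have := dist_triangle4 (c s) (c L) N (γ b)
        linarith
      have e5 := cat0_near hY (P := F (γ a)) (Q := F (γ b)) (M := F (γ (a + τ s)))
        (N := F (c s)) (t := τ s) (L := b - a) (η := 2 * η)
        (by rw [hFγ a ma b mb, abs_sub_comm, abs_of_nonneg (by linarith)])
        hs0 (by linarith [ht.2]) (by linarith)
        (by rw [hFγ a ma _ (hτI s hs), abs_sub_comm, add_sub_cancel_left, abs_of_nonneg hs0])
        (by rw [hFγ _ (hτI s hs) b mb, abs_sub_comm, abs_of_nonneg (by linarith [ht.2])]; ring)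
        ((hF _ _).trans e3) ((hF _ _).trans e4)
      exact (sq_le_sq₀ dist_nonneg hκ.le).1 (e5.trans hη2)
    have close : Icc 0 L ⊆ {s | dist (c s) (γ (a + τ s)) ≤ κ} := by
      have hcc : ContinuousOn (fun s => dist (c s) (γ (a + τ s))) (Icc 0 L) := by
        have hlip : LipschitzOnWith 2 (fun s => dist (c s) (γ (a + τ s))) (Icc 0 L) := by
          apply LipschitzOnWith.of_dist_le_mul
          intro s hs s' hs'
          rw [Real.dist_eq, Real.dist_eq]
          have e1 := hc s hs s' hs'
          have e2 : dist (γ (a + τ s)) (γ (a + τ s')) ≤ |s - s'| := by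
            refine (hγ _ (hτI s hs) _ (hτI s' hs')).trans ?_
            rw [add_sub_add_left_eq_sub]; exact hτL s s'
          have e3 := dist_triangle4 (c s) (c s') (γ (a + τ s')) (γ (a + τ s))
          have e4 := dist_triangle4 (c s') (c s) (γ (a + τ s)) (γ (a + τ s'))
          rw [dist_comm (γ (a + τ s')) (γ (a + τ s))] at e3
          rw [dist_comm (c s') (c s)] at e4
          rw [abs_le]
          have : ((2 : NNReal) : ℝ) = 2 := rfl
          rw [this]
          constructor <;> linarith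
        exact hlip.continuousOn
      apply IsClosed.Icc_subset_of_forall_exists_gt
      · have h2 := (isClosed_Icc (a := (0:ℝ)) (b := L)).isClosed_le hcc
          (continuousOn_const : ContinuousOn (fun _ => κ) (Icc 0 L))
        convert h2 using 1
        ext x
        simp [and_comm]
      · have m0 : (0:ℝ) ∈ Icc 0 L := ⟨le_rfl, hL0⟩
        have e0 : τ 0 = 0 := min_eq_left hta
        have e1 := near 0 m0
        show dist (c 0) (γ (a + τ 0)) ≤ κ
        rw [e0, add_zero] at e1 ⊢
        rw [← hiso a ma (c 0) (γ a) (by linarith) (by rw [dist_self]; exact hr)]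
        exact e1
      · intro x hx y hy
        have hyx := mem_Ioi.1 hy
        set δ := min (r/4) (min (y - x) (L - x)) with hδ
        have hδ0 : 0 < δ := lt_min (by positivity) (lt_min (by linarith)
          (by linarith [hx.2.2]))
        have hδ1 : δ ≤ r/4 := min_le_left _ _
        have hδ2 : δ ≤ y - x := (min_le_right _ _).trans (min_le_left _ _)
        have hδ3 : δ ≤ L - x := (min_le_right _ _).trans (min_le_right _ _)
        refine ⟨x + δ, ?_, by linarith, by linarith⟩
        have mx : x ∈ Icc 0 L := ⟨hx.2.1, hx.2.2.le⟩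
        have my : x + δ ∈ Icc 0 L := ⟨by linarith [hx.2.1], by linarith⟩
        have e1 := hc _ my x mx
        rw [add_sub_cancel_left, abs_of_pos hδ0] at e1
        have e2 : dist (γ (a + τ x)) (γ (a + τ (x + δ))) ≤ δ := by
          refine (hγ _ (hτI x mx) _ (hτI _ my)).trans ?_
          rw [add_sub_add_left_eq_sub]
          refine (hτL x (x + δ)).trans ?_
          rw [abs_sub_comm, add_sub_cancel_left, abs_of_pos hδ0]
        have e3 : dist (c x) (γ (a + τ x)) ≤ κ := hx.1
        have e4 := dist_triangle4 (c (x + δ)) (c x) (γ (a + τ x)) (γ (a + τ (x + δ)))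
        show dist (c (x + δ)) (γ (a + τ (x + δ))) ≤ κ
        rw [← hiso _ (hτI _ my) (c (x + δ)) (γ (a + τ (x + δ))) (by linarith)
          (by rw [dist_self]; exact hr)]
        exact near _ my
    have mL : L ∈ Icc 0 L := ⟨hL0, le_rfl⟩
    have m0 : (0:ℝ) ∈ Icc 0 L := ⟨le_rfl, hL0⟩
    have e1 : dist (c L) (γ (a + τ L)) ≤ κ := close mL
    have e2 : t - a ≤ L + 2 * η := by
      have e3 := hc 0 m0 L mL
      rw [zero_sub, abs_neg, abs_of_nonneg hL0] at e3
      have e4 := dist_triangle4 (γ a) (c 0) (c L) N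
      rw [dist_comm (γ a) (c 0)] at e4
      linarith
    have e3 : dist (γ (a + τ L)) (γ t) ≤ 2 * η := by
      refine (hγ _ (hτI L mL) t ht).trans ?_
      have h3 : τ L ≤ t - a := min_le_right _ _
      have h4 : t - a - 2 * η ≤ τ L := le_min (by linarith) (by linarith)
      rw [abs_le]; constructor <;> linarith
    have e4 := dist_triangle4 N (c L) (γ (a + τ L)) (γ t)
    rw [dist_comm N (c L)] at e4
    linarith
  by_contra hne
  have hpos : 0 < dist N (γ t) := dist_pos.2 hne
  have h3 := key (min (r/4) (dist N (γ t) / 8)) (by positivity)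
    (by have := min_le_left (r/4) (dist N (γ t) / 8); linarith)
  have h4 := min_le_right (r/4) (dist N (γ t) / 8)
  linarith

end

end Pool.Agent.BR49
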