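import Pool.Agent.BR49.Length

/-!
# Forgetting ramification is a local isometry away from the forgotten hyperplanes
-/

open Set Metric unitInterval Topology UniformSpace Filter
open scoped ENNReal NNReal

set_option linter.unusedSectionVars false
set_option linter.unusedVariables false

noncomputable section

namespace Pool.Agent.BR49

variable {V : Type*} [NormedAddCommGroup V] [NormedSpace ℝ V] {U₁ U₂ : Set V}

/-- Inclusion. -/
def incC {U₁ U₂ : Set V} (h : U₁ ⊆ U₂) : C(U₁, U₂) :=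
  ⟨fun x => ⟨x, h x.2⟩, Continuous.subtype_mk continuous_subtype_val _⟩

lemma incC_coe {U₁ U₂ : Set V} (h : U₁ ⊆ U₂) (x : U₁) : ((incC h x : U₂) : V) = x := rfl

/-- A path whose points belong to a set, as a path in this set. -/
def restr {U : Set V} {x y : U} (c : Path x y) (B : Set V) (h : ∀ t, ((c t : U) : V) ∈ B)
    (hx : (x:V) ∈ B) (hy : (y:V) ∈ B) : Path (⟨x, hx⟩ : B) ⟨y, hy⟩ where
  toFun t := ⟨((c t : U) : V), h t⟩
  continuous_toFun := Continuous.subtype_mk (continuous_subtype_val.comp c.continuous) _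
  source' := by ext; simp
  target' := by ext; simp

lemma plen_map_inc {U₁ U₂ : Set V} (h : U₁ ⊆ U₂) {x y : U₁} (c : Path x y) :
    plen (c.map (incC h).continuous) = plen c := rfl

/-- The map between the coverings induced by an inclusion. -/
def incCov {U₁ U₂ : Set V} (h : U₁ ⊆ U₂) {x₀ : U₁} (p : Cov U₁ x₀) : Cov U₂ (incC h x₀) :=
  p.map (incC h) (Path.Homotopic.Quotient.refl _)

lemma incCov_pt {U₁ U₂ : Set V} (h : U₁ ⊆ U₂) {x₀ : U₁} (p : Cov U₁ x₀) :
    ((incCov h p).pt : V) = p.pt := rfl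

lemma dist_incCov_le [LocConvex U₁] [LocConvex U₂] (h : U₁ ⊆ U₂) {x₀ : U₁} (p q : Cov U₁ x₀) :
    dist (incCov h p) (incCov h q) ≤ dist p q := by
  have := dist_map_le (incC h) (Path.Homotopic.Quotient.refl (incC h x₀)) 1 (by
    intro x y; simp [incC_coe]) p q
  rw [NNReal.coe_one, one_mul] at this
  exact this

lemma mem_ball_of_plen {U : Set V} {x y : U} (c : Path x y) {z : V} {a b : ℝ} (hb : 0 < b)
    (hx : dist (x:V) z < a) (hc : plen c < ENNReal.ofReal b) (t : I) :
    dist ((c t : U) : V) z < a + b := by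
  have h1 : edist (x : V) (c t) ≤ plen c := by
    have := eVariationOn.edist_le (fun t : I => ((c t : U) : V)) (mem_univ 0) (mem_univ t)
    unfold plen
    simpa using this
  have h2 := h1.trans_lt hc
  rw [edist_dist, ENNReal.ofReal_lt_ofReal_iff hb] at h2
  have h3 := dist_triangle_left ((c t : U) : V) z x
  linarith

lemma quot_cancel_left {X : Type*} [TopologicalSpace X] {a b c : X}
    {P : Path.Homotopic.Quotient a b} {Q R : Path.Homotopic.Quotient b c}
    (h : P.trans Q = P.trans R) : Q = R := by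
  have h3 := congrArg (fun S => P.symm.trans S) h
  simp only [← Path.Homotopic.Quotient.trans_assoc, Path.Homotopic.Quotient.symm_trans,
    Path.Homotopic.Quotient.refl_trans] at h3
  exact h3

lemma quot_cancel_right {X : Type*} [TopologicalSpace X] {a b c : X}
    {P R : Path.Homotopic.Quotient a b} {Q : Path.Homotopic.Quotient b c}
    (h : P.trans Q = R.trans Q) : P = R := by
  have h3 := congrArg (fun S => S.trans Q.symm) h
  simp only [Path.Homotopic.Quotient.trans_assoc, Path.Homotopic.Quotient.trans_symm,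
    Path.Homotopic.Quotient.trans_refl] at h3
  exact h3

section
variable (U₃ : Set V) (z : V) (δ : ℝ)

/-- The ball in the conical set. -/
def B0 : Set V := {x | x ∈ U₃ ∧ dist x z < δ}

variable {U₃ z δ}

/-- The radial retraction to the ball. -/
def radC (hδ : 0 < δ) (h23 : U₂ ⊆ U₃)
    (hinv : ∀ x ∈ U₃, ∀ s : ℝ, 0 < s → s ≤ 1 → z + s • (x - z) ∈ U₃) : C(U₂, B0 U₃ z δ) :=
  ⟨fun x => ⟨z + (δ / (δ + ‖(x:V) - z‖)) • ((x:V) - z), by
    have hn := norm_nonneg ((x:V) - z)
    refine ⟨hinv x (h23 x.2) _ (by positivity) ((div_le_one (by positivity)).2 (by linarith)), ?_⟩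
    rw [dist_eq_norm, add_sub_cancel_left, norm_smul, Real.norm_eq_abs,
      abs_of_nonneg (by positivity), div_mul_eq_mul_div, div_lt_iff₀ (by positivity)]
    nlinarith⟩, by
    refine Continuous.subtype_mk ?_ _
    have hc : Continuous (fun x : U₂ => δ / (δ + ‖(x:V) - z‖)) := by
      apply Continuous.div continuous_const (by fun_prop)
      intro x
      have := norm_nonneg ((x:V) - z)
      positivity
    fun_prop⟩

lemma radC_coe (hδ : 0 < δ) (h23 : U₂ ⊆ U₃)
    (hinv : ∀ x ∈ U₃, ∀ s : ℝ, 0 < s → s ≤ 1 → z + s • (x - z) ∈ U₃) (x : U₂) :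
    ((radC hδ h23 hinv x : B0 U₃ z δ) : V) = z + (δ / (δ + ‖(x:V) - z‖)) • ((x:V) - z) := rfl

lemma radC_segment (hδ : 0 < δ) (h23 : U₂ ⊆ U₃) (hB : B0 U₃ z δ ⊆ U₂)
    (hinv : ∀ x ∈ U₃, ∀ s : ℝ, 0 < s → s ≤ 1 → z + s • (x - z) ∈ U₃) (x : B0 U₃ z δ) :
    segment ℝ (x:V) (radC hδ h23 hinv (incC hB x)) ⊆ B0 U₃ z δ := by
  rintro w ⟨a, b, ha, hb, hab, rfl⟩
  rw [radC_coe, incC_coe]
  have hn := norm_nonneg ((x:V) - z)
  have hs0 : 0 < δ / (δ + ‖(x:V) - z‖) := by positivity
  have hs1 : δ / (δ + ‖(x:V) - z‖) ≤ 1 := (div_le_one (by positivity)).2 (by linarith)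
  set s := δ / (δ + ‖(x:V) - z‖) with hs
  have e : a • (x:V) + b • (z + s • ((x:V) - z)) = z + (a + b * s) • ((x:V) - z) := by
    have : a = 1 - b := by linarith
    subst this
    module
  rw [e]
  have h1 : 0 < a + b * s := by
    rcases eq_or_lt_of_le ha with h | h
    · have : b = 1 := by linarith
      subst this; rw [← h]; linarith
    · have := mul_nonneg hb hs0.le
      linarith
  have h2 : a + b * s ≤ 1 := by nlinarith
  refine ⟨hinv x x.2.1 _ h1 h2, ?_⟩
  rw [dist_eq_norm, add_sub_cancel_left, norm_smul, Real.norm_eq_abs, abs_of_pos h1]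
  have h3 := x.2.2
  rw [dist_eq_norm] at h3
  nlinarith

/-- Two paths in the ball which are homotopic in the large set are homotopic in the ball. -/
lemma homotopic_ball (hδ : 0 < δ) (h23 : U₂ ⊆ U₃) (hB : B0 U₃ z δ ⊆ U₂)
    (hinv : ∀ x ∈ U₃, ∀ s : ℝ, 0 < s → s ≤ 1 → z + s • (x - z) ∈ U₃) {x y : B0 U₃ z δ}
    (c d : Path.Homotopic.Quotient x y) (h : c.map (incC hB) = d.map (incC hB)) : c = d := by
  have hg : c.map ((radC hδ h23 hinv).comp (incC hB)) =
      d.map ((radC hδ h23 hinv).comp (incC hB)) := by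
    rw [Path.Homotopic.Quotient.map_comp, Path.Homotopic.Quotient.map_comp, h]
  have hc := map_seg_comm (ContinuousMap.id (B0 U₃ z δ)) ((radC hδ h23 hinv).comp (incC hB))
    (radC_segment hδ h23 hB hinv) c
  have hd := map_seg_comm (ContinuousMap.id (B0 U₃ z δ)) ((radC hδ h23 hinv).comp (incC hB))
    (radC_segment hδ h23 hB hinv) d
  rw [quot_map_id] at hc hd
  rw [hg, ← hd] at hc
  exact quot_cancel_right hc

end

section main
variable [LocConvex U₁] [LocConvex U₂] {U₃ : Set V} {z : V} {δ : ℝ} {x₀ : U₁}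

/-- **Forgetting ramification is a local isometry.** -/
theorem dist_incCov_eq (h12 : U₁ ⊆ U₂) (h23 : U₂ ⊆ U₃) (hδ : 0 < δ) (hB1 : B0 U₃ z δ ⊆ U₁)
    (hinv : ∀ x ∈ U₃, ∀ s : ℝ, 0 < s → s ≤ 1 → z + s • (x - z) ∈ U₃) (p q : Cov U₁ x₀)
    (hp : dist (p.pt : V) z < δ / 4) (hpq : dist p q < δ / 4) :
    dist (incCov h12 p) (incCov h12 q) = dist p q := by
  apply le_antisymm (dist_incCov_le h12 p q)
  refine le_of_forall_pos_le_add fun η hη => ?_
  set b := min (δ/4) (dist (incCov h12 p) (incCov h12 q) + η) with hb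
  have hb0 : 0 < b := lt_min (by positivity) (by positivity)
  have hbd : dist (incCov h12 p) (incCov h12 q) < b := by
    apply lt_min
    · exact lt_of_le_of_lt (dist_incCov_le h12 p q) hpq
    · linarith
  have hb1 : b ≤ δ/4 := min_le_left _ _
  have hb2 : b ≤ dist (incCov h12 p) (incCov h12 q) + η := min_le_right _ _
  -- a short path in the large set
  obtain ⟨c, hc, hcl⟩ := exists_path_of_edist_lt (p := incCov h12 p) (q := incCov h12 q)
    (L := ENNReal.ofReal b) (by
      rw [edist_dist]; exact (ENNReal.ofReal_lt_ofReal_iff hb0).2 hbd)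
  -- a short path in the small set
  obtain ⟨c₀, hc₀, hcl₀⟩ := exists_path_of_edist_lt (p := p) (q := q)
    (L := ENNReal.ofReal (δ/4)) (by
      rw [edist_dist]; exact (ENNReal.ofReal_lt_ofReal_iff (by positivity)).2 hpq)
  have hB2 : B0 U₃ z δ ⊆ U₂ := hB1.trans h12
  have hcB : ∀ t, ((c t : U₂) : V) ∈ B0 U₃ z δ := by
    intro t
    refine ⟨h23 (c t).2, ?_⟩
    have := mem_ball_of_plen c hb0 (a := δ/4) hp hcl t
    linarith
  have hc₀B : ∀ t, ((c₀ t : U₁) : V) ∈ B0 U₃ z δ := by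
    intro t
    refine ⟨h23 (h12 (c₀ t).2), ?_⟩
    have := mem_ball_of_plen c₀ (b := δ/4) (by positivity) (a := δ/4) hp hcl₀ t
    linarith
  have hpB : (p.pt : V) ∈ B0 U₃ z δ := by have := hc₀B 0; simpa using this
  have hqB : (q.pt : V) ∈ B0 U₃ z δ := by have := hc₀B 1; simpa using this
  set d : Path (⟨p.pt, hpB⟩ : B0 U₃ z δ) ⟨q.pt, hqB⟩ := restr c _ hcB hpB hqB with hd
  set d₀ : Path (⟨p.pt, hpB⟩ : B0 U₃ z δ) ⟨q.pt, hqB⟩ := restr c₀ _ hc₀B hpB hqB with hd₀
  have e1 : (Path.Homotopic.Quotient.mk d).map (incC hB2) = .mk c := by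
    rw [← Path.Homotopic.Quotient.mk_map]; rfl
  have e2 : (Path.Homotopic.Quotient.mk d₀).map (incC hB2) = .mk (c₀.map (incC h12).continuous) := by
    rw [← Path.Homotopic.Quotient.mk_map]; rfl
  have e3 : (Path.Homotopic.Quotient.mk d₀).map (incC hB1) = .mk c₀ := by
    rw [← Path.Homotopic.Quotient.mk_map]; rfl
  have h5 : Path.Homotopic.Quotient.mk c = .mk (c₀.map (incC h12).continuous) := by
    apply quot_cancel_left (P := (incCov h12 p).cls)
    rw [hc]
    show (Path.Homotopic.Quotient.refl _).trans (q.cls.map (incC h12)) = _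
    rw [← hc₀, ← quot_aux]
    rfl
  have h6 : Path.Homotopic.Quotient.mk d = .mk d₀ := by
    apply homotopic_ball hδ h23 hB2 hinv
    exact e1.trans (h5.trans e2.symm)
  let d₁ : Path p.pt q.pt := d.map (incC hB1).continuous
  have h7a : Path.Homotopic.Quotient.mk d₁ = .mk c₀ := by
    have h7b : (Path.Homotopic.Quotient.mk d).map (incC hB1) = .mk c₀ := by rw [h6]; exact e3
    exact h7b
  have h7 : p.cls.trans (.mk d₁) = q.cls := by rw [h7a]; exact hc₀
  have h8 : edist p q ≤ plen d₁ := edist_le_plen _ h7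
  have h9 : plen d₁ = plen c := rfl
  rw [h9] at h8
  have h10 := h8.trans_lt hcl
  rw [edist_dist, ENNReal.ofReal_lt_ofReal_iff hb0] at h10
  linarith

/-- The induced map between the ramified coverings. -/
def incRam (h12 : U₁ ⊆ U₂) : Ram x₀ → Ram (incC h12 x₀) := Completion.map (incCov h12)

lemma lipschitz_incCov (h12 : U₁ ⊆ U₂) :
    LipschitzWith 1 (incCov h12 : Cov U₁ x₀ → Cov U₂ (incC h12 x₀)) :=
  LipschitzWith.of_dist_le_mul fun p q => by
    rw [NNReal.coe_one, one_mul]; exact dist_incCov_le h12 p q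

lemma incRam_coe (h12 : U₁ ⊆ U₂) (p : Cov U₁ x₀) :
    incRam h12 (p : Ram x₀) = ((incCov h12 p : Cov U₂ (incC h12 x₀)) : Ram (incC h12 x₀)) :=
  Completion.map_coe (lipschitz_incCov h12).uniformContinuous p

lemma dist_incRam_le (h12 : U₁ ⊆ U₂) (P Q : Ram x₀) :
    dist (incRam h12 P) (incRam h12 Q) ≤ dist P Q := by
  have hc : Continuous (incRam h12 : Ram x₀ → Ram (incC h12 x₀)) :=
    Completion.continuous_map
  refine Completion.induction_on₂ P Q (isClosed_le (by fun_prop) (by fun_prop)) fun p q => ?_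
  rw [incRam_coe, incRam_coe, Completion.dist_eq, Completion.dist_eq]
  exact dist_incCov_le h12 p q

theorem dist_incRam_eq [CompleteSpace V] (h12 : U₁ ⊆ U₂) (h23 : U₂ ⊆ U₃) (hδ : 0 < δ)
    (hB1 : B0 U₃ z δ ⊆ U₁)
    (hinv : ∀ x ∈ U₃, ∀ s : ℝ, 0 < s → s ≤ 1 → z + s • (x - z) ∈ U₃) (P : Ram x₀)
    (hP : proj P = z) (Q Q' : Ram x₀) (hQ : dist Q P < δ / 16) (hQ' : dist Q' P < δ / 16) :
    dist (incRam h12 Q) (incRam h12 Q') = dist Q Q' := by
  apply le_antisymm (dist_incRam_le h12 Q Q')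
  refine le_of_forall_pos_le_add fun η hη => ?_
  set θ := min (δ/16) (η/4) with hθ
  have hθ0 : 0 < θ := lt_min (by positivity) (by positivity)
  have hθ1 : θ ≤ δ/16 := min_le_left _ _
  have hθ2 : θ ≤ η/4 := min_le_right _ _
  obtain ⟨q, hq⟩ := Metric.denseRange_iff.1 (Completion.denseRange_coe (α := Cov U₁ x₀)) Q θ hθ0
  obtain ⟨q', hq'⟩ := Metric.denseRange_iff.1 (Completion.denseRange_coe (α := Cov U₁ x₀)) Q' θ hθ0
  have h1 : dist (q : Ram x₀) P < δ/8 := by
    have := dist_triangle_left (q : Ram x₀) P Q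
    linarith
  have h2 : dist (q' : Ram x₀) P < δ/8 := by
    have := dist_triangle_left (q' : Ram x₀) P Q'
    linarith
  have h3 : dist (q.pt : V) z < δ/4 := by
    have := dist_proj_le (q : Ram x₀) P
    rw [proj_coe, hP] at this
    linarith
  have h4 : dist q q' < δ/4 := by
    rw [← Completion.dist_eq]
    have := dist_triangle_right (q : Ram x₀) q' P
    linarith
  have h5 := dist_incCov_eq h12 h23 hδ hB1 hinv q q' h3 h4
  have h6 := dist_incRam_le h12 Q (q : Ram x₀)
  have h7 := dist_incRam_le h12 Q' (q' : Ram x₀)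
  have h8 : dist (incRam h12 (q : Ram x₀)) (incRam h12 (q' : Ram x₀)) =
      dist (q : Ram x₀) q' := by
    rw [incRam_coe, incRam_coe, Completion.dist_eq, Completion.dist_eq, h5]
  have h9 := dist_triangle4 (incRam h12 (q : Ram x₀)) (incRam h12 Q) (incRam h12 Q')
    (incRam h12 (q' : Ram x₀))
  rw [dist_comm _ (incRam h12 Q)] at h9
  have h10 := dist_triangle4 Q (q : Ram x₀) (q' : Ram x₀) Q'
  rw [dist_comm (q' : Ram x₀) Q'] at h10
  linarith

end main

end Pool.Agent.BR49
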