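import Pool.Agent.BR49.Basic

/-!
# Universal property of the length metric, maps between coverings
-/

open Set Metric unitInterval Topology UniformSpace
open scoped ENNReal NNReal

set_option linter.unusedSectionVars false

noncomputable section

namespace Pool.Agent.BR49

variable {V : Type*} [NormedAddCommGroup V] [NormedSpace ℝ V] {U : Set V} {x₀ : U}
variable {V' : Type*} [NormedAddCommGroup V'] [NormedSpace ℝ V'] {U' : Set V'} {x₀' : U'}
variable {V'' : Type*} [NormedAddCommGroup V''] [NormedSpace ℝ V''] {U'' : Set V''} {x₀'' : U''}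

/-- Universal property: the length distance is the largest one which is locally bounded by the
norm distance. -/
theorem le_edist_of_local [LocConvex U] (D : Cov U x₀ → Cov U x₀ → ℝ≥0∞) (K : ℝ≥0)
    (h0 : ∀ p, D p p = 0)
    (htri : ∀ p q r, D p r ≤ D p q + D q r)
    (hloc : ∀ x : U, ∃ ε > 0, ∀ (p : Cov U x₀) (y : U) (h : segment ℝ (p.pt:V) y ⊆ U),
      dist (p.pt:V) x < ε → dist (y:V) x < ε → D p (p.step y h) ≤ K * edist (p.pt:V) y)
    (p q : Cov U x₀) : D p q ≤ K * edist p q := by
  choose δ hδ hloc using hloc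
  have key : ∀ c : Path p.pt q.pt, p.cls.trans (.mk c) = q.cls → D p q ≤ K * plen c := by
    intro c hc
    obtain ⟨P, N, hP0, hPN, hch, hsum, _, hd⟩ := exists_chain δ hδ p c
    have h1 : ∀ k ≤ N, D p (P k) ≤
        K * ∑ j ∈ Finset.range k, edist ((P j).pt : V) (P (j+1)).pt := by
      intro k hk
      induction k with
      | zero => simp [hP0, h0]
      | succ k ih =>
        have ih' := ih (by omega)
        rw [Finset.sum_range_succ, mul_add]
        refine (htri _ (P k) _).trans (add_le_add ih' ?_)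
        obtain ⟨h, hstep⟩ := hch k (by omega)
        obtain ⟨x, hx1, hx2⟩ := hd k
        have := hloc x (P k) (P (k+1)).pt h hx1 hx2
        rwa [hstep] at this
    have h2 := h1 N le_rfl
    have h3 : P N = q := by
      rw [hPN]
      cases q
      simp only at hc ⊢
      rw [← hc]
    rw [h3] at h2
    exact h2.trans (by gcongr)
  rw [edist_def]
  by_cases hK0 : K = 0
  · subst hK0
    obtain ⟨c, hc⟩ := Path.Homotopic.Quotient.mk_surjective (p.cls.symm.trans q.cls)
    have := key c (by rw [hc, ← Path.Homotopic.Quotient.trans_assoc,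
      Path.Homotopic.Quotient.trans_symm, Path.Homotopic.Quotient.refl_trans])
    simpa using this
  · have hK0' : (K : ℝ≥0∞) ≠ 0 := by simpa using hK0
    have hK : (K : ℝ≥0∞) ≠ ⊤ := ENNReal.coe_ne_top
    rw [ENNReal.mul_iInf_of_ne hK0' hK]
    refine le_iInf fun c => ?_
    rw [ENNReal.mul_iInf_of_ne hK0' hK]
    exact le_iInf fun hc => key c hc

theorem cov_edist_ne_top [LocConvex U] (p q : Cov U x₀) : edist p q ≠ ⊤ := by
  obtain ⟨c, hc⟩ := Path.Homotopic.Quotient.mk_surjective (p.cls.symm.trans q.cls)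
  have hc' : p.cls.trans (.mk c) = q.cls := by
    rw [hc, ← Path.Homotopic.Quotient.trans_assoc,
      Path.Homotopic.Quotient.trans_symm, Path.Homotopic.Quotient.refl_trans]
  obtain ⟨P, N, hP0, hPN, hch, -, -, -⟩ := exists_chain (fun _ => 1) (fun _ => one_pos) p c
  have h1 : ∀ k ≤ N, edist p (P k) ≠ ⊤ := by
    intro k hk
    induction k with
    | zero => rw [hP0, edist_self]; exact ENNReal.zero_ne_top
    | succ k ih =>
      have ih' := ih (by omega)
      obtain ⟨h, hstep⟩ := hch k (by omega)
      have h2 := edist_step_le (P k) _ h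
      rw [hstep] at h2
      refine ne_top_of_le_ne_top ?_ (edist_triangle p (P k) _)
      exact ENNReal.add_ne_top.2 ⟨ih', ne_top_of_le_ne_top (edist_ne_top _ _) h2⟩
  have h3 : P N = q := by
    rw [hPN]
    cases q
    simp only at hc' ⊢
    rw [← hc']
  rw [← h3]
  exact h1 N le_rfl

instance [LocConvex U] : PseudoMetricSpace (Cov U x₀) :=
  PseudoEMetricSpace.toPseudoMetricSpace cov_edist_ne_top

lemma dist_pt_le [LocConvex U] (p q : Cov U x₀) : dist (p.pt:V) q.pt ≤ dist p q := by
  have := edist_pt_le p q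
  rw [edist_dist, edist_dist] at this
  exact (ENNReal.ofReal_le_ofReal_iff dist_nonneg).1 this

lemma dist_step_le [LocConvex U] (p : Cov U x₀) (y : U) (h : segment ℝ (p.pt:V) y ⊆ U) :
    dist p (p.step y h) ≤ dist (p.pt:V) y := by
  have := edist_step_le p y h
  rw [edist_dist, edist_dist] at this
  exact (ENNReal.ofReal_le_ofReal_iff dist_nonneg).1 this

lemma dist_step_eq [LocConvex U] (p : Cov U x₀) (y : U) (h : segment ℝ (p.pt:V) y ⊆ U) :
    dist p (p.step y h) = dist (p.pt:V) y :=
  le_antisymm (dist_step_le p y h) (dist_pt_le p (p.step y h))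

/-- Real version of the universal property. -/
theorem le_dist_of_local [LocConvex U] (D : Cov U x₀ → Cov U x₀ → ℝ) (K : ℝ) (hK : 0 ≤ K)
    (h0 : ∀ p, D p p = 0)
    (htri : ∀ p q r, D p r ≤ D p q + D q r)
    (hloc : ∀ x : U, ∃ ε > 0, ∀ (p : Cov U x₀) (y : U) (h : segment ℝ (p.pt:V) y ⊆ U),
      dist (p.pt:V) x < ε → dist (y:V) x < ε → D p (p.step y h) ≤ K * dist (p.pt:V) y)
    (p q : Cov U x₀) : D p q ≤ K * dist p q := by
  have hK' : (K.toNNReal : ℝ) = K := Real.coe_toNNReal K hK
  have := le_edist_of_local (fun p q => ENNReal.ofReal (D p q)) K.toNNReal (by simp [h0])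
    (by
      intro p q r
      refine (ENNReal.ofReal_le_ofReal (htri p q r)).trans ENNReal.ofReal_add_le)
    (by
      intro x
      obtain ⟨ε, hε, h⟩ := hloc x
      refine ⟨ε, hε, fun p y hs h1 h2 => ?_⟩
      refine (ENNReal.ofReal_le_ofReal (h p y hs h1 h2)).trans ?_
      rw [ENNReal.ofReal_mul hK, edist_dist]
      rfl) p q
  rw [edist_dist] at this
  have h2 : ENNReal.ofReal (D p q) ≤ ENNReal.ofReal (K * dist p q) := by
    rw [ENNReal.ofReal_mul hK]
    exact this
  exact (ENNReal.ofReal_le_ofReal_iff (mul_nonneg hK dist_nonneg)).1 h2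

/-! ### Maps between coverings -/

/-- The map between the universal coverings induced by a continuous map and a homotopy class of
paths from the new base point to the image of the old one. -/
def Cov.map (f : C(U, U')) (h : Path.Homotopic.Quotient x₀' (f x₀)) (p : Cov U x₀) :
    Cov U' x₀' :=
  ⟨f p.pt, h.trans (p.cls.map f)⟩

@[simp] lemma map_pt (f : C(U, U')) (h : Path.Homotopic.Quotient x₀' (f x₀)) (p : Cov U x₀) :
    (p.map f h).pt = f p.pt := rfl

lemma quot_map_trans {X Y : Type*} [TopologicalSpace X] [TopologicalSpace Y] {a b c : X}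
    (f : C(X, Y)) (P : Path.Homotopic.Quotient a b) (Q : Path.Homotopic.Quotient b c) :
    (P.trans Q).map f = (P.map f).trans (Q.map f) := by
  induction P using Path.Homotopic.Quotient.ind
  induction Q using Path.Homotopic.Quotient.ind
  rw [← Path.Homotopic.Quotient.mk_trans, ← Path.Homotopic.Quotient.mk_map,
    ← Path.Homotopic.Quotient.mk_map, ← Path.Homotopic.Quotient.mk_map,
    ← Path.Homotopic.Quotient.mk_trans, Path.map_trans]

lemma plen_map_le (f : C(U, U')) (K : ℝ≥0)
    (hf : ∀ x y : U, edist ((f x : U') : V') (f y) ≤ K * edist (x:V) y) {x y : U}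
    (c : Path x y) : plen (c.map f.continuous) ≤ K * plen c := by
  unfold plen eVariationOn
  apply iSup_le
  intro u
  refine le_trans ?_ (mul_le_mul_right (le_iSup _ u) _)
  rw [Finset.mul_sum]
  apply Finset.sum_le_sum
  intro i _
  exact hf _ _

lemma quot_aux {X Y : Type*} [TopologicalSpace X] [TopologicalSpace Y] {a b c : X} {y' : Y}
    (f : C(X, Y)) (h : Path.Homotopic.Quotient y' (f a)) (P : Path.Homotopic.Quotient a b)
    (d : Path b c) : (h.trans (P.map f)).trans (.mk (d.map f.continuous)) =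
      h.trans ((P.trans (.mk d)).map f) := by
  rw [quot_map_trans, Path.Homotopic.Quotient.trans_assoc, ← Path.Homotopic.Quotient.mk_map]

lemma edist_map_le_plen (f : C(U, U')) (h : Path.Homotopic.Quotient x₀' (f x₀)) (p q : Cov U x₀)
    (c : Path p.pt q.pt) (hc : p.cls.trans (.mk c) = q.cls) :
    edist (p.map f h) (q.map f h) ≤ plen (c.map f.continuous) := by
  obtain ⟨x, P⟩ := p
  obtain ⟨y, Q⟩ := q
  dsimp only at c hc
  subst hc
  exact iInf₂_le (c.map f.continuous) (quot_aux f h P c)

lemma exists_connecting_path (p q : Cov U x₀) :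
    ∃ c : Path p.pt q.pt, p.cls.trans (.mk c) = q.cls := by
  obtain ⟨c, hc⟩ := Path.Homotopic.Quotient.mk_surjective (p.cls.symm.trans q.cls)
  exact ⟨c, by rw [hc, ← Path.Homotopic.Quotient.trans_assoc,
    Path.Homotopic.Quotient.trans_symm, Path.Homotopic.Quotient.refl_trans]⟩

theorem edist_map_le (f : C(U, U')) (h : Path.Homotopic.Quotient x₀' (f x₀)) (K : ℝ≥0)
    (hf : ∀ x y : U, edist ((f x : U') : V') (f y) ≤ K * edist (x:V) y) (p q : Cov U x₀) :
    edist (p.map f h) (q.map f h) ≤ K * edist p q := by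
  rw [edist_def p q]
  have key : ∀ c : Path p.pt q.pt, p.cls.trans (.mk c) = q.cls →
      edist (p.map f h) (q.map f h) ≤ K * plen c := fun c hc =>
    (edist_map_le_plen f h p q c hc).trans (plen_map_le f K hf c)
  by_cases hK0 : K = 0
  · subst hK0
    obtain ⟨c, hc⟩ := exists_connecting_path p q
    have := key c hc
    simpa using this
  · have hK0' : (K : ℝ≥0∞) ≠ 0 := by simpa using hK0
    have hK : (K : ℝ≥0∞) ≠ ⊤ := ENNReal.coe_ne_top
    rw [ENNReal.mul_iInf_of_ne hK0' hK]
    refine le_iInf fun c => ?_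
    rw [ENNReal.mul_iInf_of_ne hK0' hK]
    exact le_iInf fun hc => key c hc

theorem dist_map_le [LocConvex U] [LocConvex U'] (f : C(U, U'))
    (h : Path.Homotopic.Quotient x₀' (f x₀)) (K : ℝ≥0)
    (hf : ∀ x y : U, dist ((f x : U') : V') (f y) ≤ K * dist (x:V) y) (p q : Cov U x₀) :
    dist (p.map f h) (q.map f h) ≤ K * dist p q := by
  have := edist_map_le f h K (by
    intro x y
    rw [edist_dist, edist_dist, ← ENNReal.ofReal_coe_nnreal, ← ENNReal.ofReal_mul K.coe_nonneg]
    exact ENNReal.ofReal_le_ofReal (hf x y)) p q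
  rw [edist_dist, edist_dist, ← ENNReal.ofReal_coe_nnreal, ← ENNReal.ofReal_mul K.coe_nonneg] at this
  exact (ENNReal.ofReal_le_ofReal_iff (mul_nonneg K.coe_nonneg dist_nonneg)).1 this

lemma map_step (f : C(U, U')) (h : Path.Homotopic.Quotient x₀' (f x₀)) (p : Cov U x₀)
    (y : U) (hs : segment ℝ (p.pt:V) y ⊆ U) (hs' : segment ℝ (f p.pt:V') (f y) ⊆ U')
    (hh : Path.Homotopic ((seg hs).map f.continuous) (seg hs')) :
    (p.step y hs).map f h = (p.map f h).step (f y) hs' := by
  unfold Cov.step Cov.map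
  congr 1
  simp only
  rw [quot_map_trans, ← Path.Homotopic.Quotient.trans_assoc]
  congr 1
  rw [← Path.Homotopic.Quotient.mk_map, Path.Homotopic.Quotient.eq]
  exact hh

/-- The straight line homotopy. -/
def straight (f g : C(U, U')) (h : ∀ x : U, segment ℝ (f x : V') (g x) ⊆ U') :
    ContinuousMap.Homotopy f g where
  toFun st := ⟨AffineMap.lineMap (f st.2 : V') (g st.2 : V') (st.1:ℝ), h st.2 (by
    rw [segment_eq_image_lineMap]; exact ⟨st.1, st.1.2, rfl⟩)⟩
  continuous_toFun := by
    refine Continuous.subtype_mk ?_ _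
    simp only [AffineMap.lineMap_apply, vsub_eq_sub, vadd_eq_add]
    fun_prop
  map_zero_left x := by ext; simp
  map_one_left x := by ext; simp

lemma straight_evalAt (f g : C(U, U')) (h : ∀ x : U, segment ℝ (f x : V') (g x) ⊆ U') (x : U) :
    (straight f g h).evalAt x = seg (h x) := by
  ext t; rfl

lemma map_seg_comm (f g : C(U, U')) (h : ∀ x : U, segment ℝ (f x : V') (g x) ⊆ U') {x y : U}
    (c : Path.Homotopic.Quotient x y) :
    (c.map f).trans (.mk (seg (h y))) =
      (Path.Homotopic.Quotient.trans (.mk (seg (h x))) (c.map g)) := by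
  induction c using Path.Homotopic.Quotient.ind with
  | mk c =>
    rw [← straight_evalAt f g h x, ← straight_evalAt f g h y,
      ← Path.Homotopic.Quotient.mk_map, ← Path.Homotopic.Quotient.mk_map,
      ← Path.Homotopic.Quotient.mk_trans, ← Path.Homotopic.Quotient.mk_trans,
      Path.Homotopic.Quotient.eq]
    exact Path.Homotopic.map_trans_evalAt (straight f g h) c

/-- Moving the image of a point along a straight homotopy. -/
lemma map_step_straight (f g : C(U, U')) (hs : ∀ x : U, segment ℝ (f x : V') (g x) ⊆ U')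
    (h : Path.Homotopic.Quotient x₀' (f x₀)) (p : Cov U x₀) :
    (p.map f h).step (g p.pt) (hs p.pt) = p.map g (h.trans (.mk (seg (hs x₀)))) := by
  unfold Cov.step Cov.map
  congr 1
  simp only
  rw [Path.Homotopic.Quotient.trans_assoc, map_seg_comm f g hs,
    ← Path.Homotopic.Quotient.trans_assoc]

lemma map_id (p : Cov U x₀) :
    p.map (ContinuousMap.id U) (Path.Homotopic.Quotient.refl x₀) = p := by
  cases p with
  | mk pt cls =>
    unfold Cov.map
    simp only [ContinuousMap.id_apply, Path.Homotopic.Quotient.refl_trans]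
    congr 1
    induction cls using Path.Homotopic.Quotient.ind
    rfl

lemma quot_map_id {X : Type*} [TopologicalSpace X] {a b : X} (P : Path.Homotopic.Quotient a b) :
    P.map (ContinuousMap.id X) = P := by
  induction P using Path.Homotopic.Quotient.ind
  rfl

/-- Moving a point along the straight homotopy from the identity. -/
lemma step_straight (g : C(U, U)) (hs : ∀ x : U, segment ℝ (x : V) (g x) ⊆ U) (p : Cov U x₀) :
    p.step (g p.pt) (hs p.pt) = p.map g (.mk (seg (hs x₀))) := by
  unfold Cov.step Cov.map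
  congr 1
  have h := map_seg_comm (ContinuousMap.id U) g hs p.cls
  rw [quot_map_id] at h
  exact h

lemma map_map (f : C(U, U')) (g : C(U', U'')) (h : Path.Homotopic.Quotient x₀' (f x₀))
    (k : Path.Homotopic.Quotient x₀'' (g x₀')) (p : Cov U x₀) :
    (p.map f h).map g k = p.map (g.comp f) (k.trans (h.map g)) := by
  unfold Cov.map
  congr 1
  simp only
  rw [quot_map_trans, Path.Homotopic.Quotient.trans_assoc, Path.Homotopic.Quotient.map_comp]

lemma quot_aux2 {X : Type*} [TopologicalSpace X] {a b c b' c' : X}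
    (P : Path.Homotopic.Quotient a b) (d : Path.Homotopic.Quotient b c)
    (s : Path.Homotopic.Quotient b b') (t : Path.Homotopic.Quotient c c')
    (e : Path.Homotopic.Quotient b' c') (h : d.trans t = s.trans e) :
    (P.trans s).trans e = (P.trans d).trans t := by
  rw [Path.Homotopic.Quotient.trans_assoc, Path.Homotopic.Quotient.trans_assoc, h]

lemma seg_trans_seg {C : Set V} (hC : Convex ℝ C) (hCU : C ⊆ U) {a b c : U} (ha : (a:V) ∈ C)
    (hb : (b:V) ∈ C) (hc : (c:V) ∈ C) (h1 : segment ℝ (a:V) b ⊆ U) (h2 : segment ℝ (b:V) c ⊆ U)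
    (h3 : segment ℝ (a:V) c ⊆ U) :
    Path.Homotopic.Quotient.trans (.mk (seg h1)) (.mk (seg h2)) =
      Path.Homotopic.Quotient.mk (seg h3) := by
  rw [← Path.Homotopic.Quotient.mk_trans, Path.Homotopic.Quotient.eq]
  apply homotopic_of_segment
  intro t
  refine (hC.segment_subset ?_ ?_).trans hCU
  · rw [Path.trans_apply]
    split_ifs with ht
    · apply hC.segment_subset ha hb
      rw [segment_eq_image_lineMap]
      exact ⟨_, ⟨by linarith [t.2.1], by linarith⟩, rfl⟩
    · apply hC.segment_subset hb hc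
      rw [segment_eq_image_lineMap]
      push Not at ht
      exact ⟨_, ⟨by linarith, by linarith [t.2.2]⟩, rfl⟩
  · apply hC.segment_subset ha hc
    rw [segment_eq_image_lineMap]
    exact ⟨t, t.2, rfl⟩

/-- Moving the two end points of a short path which stays in a subset `S` by a map `g` defined on
`S` only. -/
lemma edist_step_step_le {S : Set V} (hS : S ⊆ U) (g : C(S, U))
    (hg : ∀ x : S, segment ℝ (x:V) (g x) ⊆ U) (K : ℝ≥0)
    (hK : ∀ x y : S, edist (g x : V) (g y) ≤ K * edist (x:V) y) (p q : Cov U x₀)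
    (c : Path p.pt q.pt) (hc : p.cls.trans (.mk c) = q.cls) (hcS : ∀ t, (c t : V) ∈ S)
    (hp : (p.pt:V) ∈ S) (hq : (q.pt:V) ∈ S) :
    edist (p.step (g ⟨p.pt, hp⟩) (hg ⟨p.pt, hp⟩)) (q.step (g ⟨q.pt, hq⟩) (hg ⟨q.pt, hq⟩)) ≤
      K * plen c := by
  obtain ⟨x, P⟩ := p
  obtain ⟨y, Q⟩ := q
  dsimp only at c hc hp hq
  subst hc
  let c' : Path (⟨x, hp⟩ : S) ⟨y, hq⟩ :=
    { toFun := fun t => ⟨(c t : U), hcS t⟩
      continuous_toFun := Continuous.subtype_mk (continuous_subtype_val.comp c.continuous) _
      source' := by ext; simp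
      target' := by ext; simp }
  let inc : C(S, U) := ⟨fun x => ⟨x, hS x.2⟩, Continuous.subtype_mk continuous_subtype_val _⟩
  have hinc : c'.map inc.continuous = c := by ext t; rfl
  have hcomm := map_seg_comm inc g hg (Path.Homotopic.Quotient.mk c')
  rw [← Path.Homotopic.Quotient.mk_map, hinc, ← Path.Homotopic.Quotient.mk_map] at hcomm
  have h6 : plen (c'.map g.continuous) ≤ K * plen c' := plen_map_le g K hK c'
  have h7 : plen c' = plen c := rfl
  rw [h7] at h6
  refine le_trans ?_ h6
  exact iInf₂_le (c'.map g.continuous) (quot_aux2 P (.mk c) (.mk (seg (hg ⟨x, hp⟩)))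
    (.mk (seg (hg ⟨y, hq⟩))) (.mk (c'.map g.continuous)) hcomm)

/-- Two consecutive steps along one segment. -/
lemma step_step (p : Cov U x₀) (y z : U) (h : segment ℝ (p.pt:V) y ⊆ U)
    (h' : segment ℝ (y:V) z ⊆ U) (h'' : segment ℝ (p.pt:V) z ⊆ U)
    (hy : (y:V) ∈ segment ℝ (p.pt:V) z) :
    (p.step y h).step z h' = p.step z h'' := by
  unfold Cov.step
  congr 1
  simp only
  rw [Path.Homotopic.Quotient.trans_assoc]
  congr 1
  rw [← Path.Homotopic.Quotient.mk_trans, Path.Homotopic.Quotient.eq]
  apply homotopic_of_segment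
  have hc := convex_segment (𝕜 := ℝ) (p.pt:V) z
  intro t
  refine (hc.segment_subset ?_ ?_).trans h''
  · rw [Path.trans_apply]
    split_ifs with ht
    · apply hc.segment_subset (left_mem_segment ℝ _ _) hy
      rw [segment_eq_image_lineMap]
      exact ⟨_, ⟨by linarith [t.2.1], by linarith⟩, rfl⟩
    · apply hc.segment_subset hy (right_mem_segment ℝ _ _)
      rw [segment_eq_image_lineMap]
      push Not at ht
      exact ⟨_, ⟨by linarith, by linarith [t.2.2]⟩, rfl⟩
  · rw [segment_eq_image_lineMap]
    exact ⟨t, t.2, rfl⟩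

/-! ### Completion and projection -/

variable (x₀) in
/-- The completed universal covering (the *ramified* universal covering). -/
abbrev Ram [LocConvex U] : Type _ := Completion (Cov U x₀)

lemma lipschitz_pt [LocConvex U] : LipschitzWith 1 (fun p : Cov U x₀ => (p.pt : V)) :=
  LipschitzWith.of_dist_le_mul fun p q => by
    rw [NNReal.coe_one, one_mul]; exact dist_pt_le p q

/-- The projection of the completed covering to the ambient space. -/
def proj [LocConvex U] [CompleteSpace V] : Ram x₀ → V :=
  Completion.extension (fun p : Cov U x₀ => (p.pt : V))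

@[simp] lemma proj_coe [LocConvex U] [CompleteSpace V] (p : Cov U x₀) :
    proj (p : Ram x₀) = p.pt :=
  Completion.extension_coe lipschitz_pt.uniformContinuous p

lemma lipschitz_proj [LocConvex U] [CompleteSpace V] : LipschitzWith 1 (proj (x₀ := x₀)) :=
  lipschitz_pt.completion_extension

lemma dist_proj_le [LocConvex U] [CompleteSpace V] (P Q : Ram x₀) :
    dist (proj P) (proj Q) ≤ dist P Q := by
  simpa using lipschitz_proj.dist_le_mul P Q

end Pool.Agent.BR49
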