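import Pool.Agent.BR49.Product

/-!
# Products of universal length coverings, continued
-/

open Set Metric unitInterval Topology UniformSpace Filter
open scoped ENNReal NNReal

set_option linter.unusedSectionVars false
set_option linter.unusedVariables false

noncomputable section

namespace Pool.Agent.BR49

section general
variable {V : Type*} [NormedAddCommGroup V] [NormedSpace ℝ V] {U : Set V} {x₀ : U}

lemma exists_mesh [LocConvex U] {p q : Cov U x₀} {L : ℝ} (h : Conn p q L) :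
    ∃ γ : ℝ → Cov U x₀, γ 0 = p ∧ γ 1 = q ∧
      (∀ s ∈ Icc (0:ℝ) 1, ∀ t ∈ Icc (0:ℝ) 1, dist (γ s) (γ t) ≤ L * |s - t|) ∧
      ∃ δ > 0, ∀ s ∈ Icc (0:ℝ) 1, ∀ t ∈ Icc (0:ℝ) 1, |s - t| < δ → Rel (γ s) (γ t) := by
  obtain ⟨hL, γ, h0, h1, h2⟩ := h
  have hmem : ∀ s ∈ Icc (0:ℝ) 1, s * L ∈ Icc 0 L := fun s hs =>
    ⟨mul_nonneg hs.1 hL, by nlinarith [hs.2]⟩
  have hlip : ∀ s ∈ Icc (0:ℝ) 1, ∀ t ∈ Icc (0:ℝ) 1, dist (γ (s * L)) (γ (t * L)) ≤ L * |s - t| := by
    intro s hs t ht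
    refine (h2 _ (hmem s hs) _ (hmem t ht)).trans (le_of_eq ?_)
    rw [← sub_mul, abs_mul, abs_of_nonneg hL, mul_comm]
  refine ⟨fun s => γ (s * L), by simp [h0], by simp [h1], hlip, ?_⟩
  have hcont : ContinuousOn (fun s : ℝ => γ (s * L)) (Icc 0 1) := by
    have : LipschitzOnWith L.toNNReal (fun s : ℝ => γ (s * L)) (Icc 0 1) :=
      LipschitzOnWith.of_dist_le_mul fun s hs t ht => by
        rw [Real.coe_toNNReal _ hL, Real.dist_eq]
        exact hlip s hs t ht
    exact this.continuousOn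
  have hcomp := isCompact_Icc.image_of_continuousOn hcont
  choose ε hε hrel using fun p : Cov U x₀ => exists_rel_ball p
  obtain ⟨δ, hδ, hball⟩ := lebesgue_number_lemma_of_metric hcomp
    (c := fun p : Cov U x₀ => ball p (ε p)) (fun p => isOpen_ball)
    (fun p _ => mem_iUnion.2 ⟨p, mem_ball_self (hε p)⟩)
  refine ⟨δ / (L + 1), by positivity, fun s hs t ht hst => ?_⟩
  obtain ⟨p, hp⟩ := hball (γ (s * L)) ⟨s, hs, rfl⟩
  apply hrel p
  · exact hp (mem_ball_self hδ)
  · apply hp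
    rw [mem_ball, dist_comm]
    refine lt_of_le_of_lt (hlip s hs t ht) ?_
    rw [lt_div_iff₀ (by positivity)] at hst
    have := abs_nonneg (s - t)
    nlinarith

end general

section product
variable {n : ℕ} {A : Fin n → Set ℂ} [∀ k, LocConvex (A k)] {x₀ : PiSet A}

lemma dist_le_of_coord (x y : E n) (L : EuclideanSpace ℝ (Fin n))
    (h : ∀ k, dist (x k) (y k) ≤ L k) : dist x y ≤ ‖L‖ := by
  refine (sq_le_sq₀ dist_nonneg (norm_nonneg _)).1 ?_
  rw [dist_eq_norm, EuclideanSpace.norm_eq, EuclideanSpace.norm_eq, Real.sq_sqrt (by positivity),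
    Real.sq_sqrt (by positivity)]
  apply Finset.sum_le_sum
  intro k _
  apply pow_le_pow_left₀ (norm_nonneg _)
  have h1 := h k
  rw [dist_eq_norm] at h1
  have h2 : (x - y) k = x k - y k := rfl
  rw [h2]
  exact h1.trans (le_abs_self _)

theorem exists_cmp_eq (P : Cov (PiSet A) x₀) (q : ∀ k, Cov (A k) (prC A k x₀)) {ε : ℝ}
    (hε : 0 < ε) : ∃ R : Cov (PiSet A) x₀, (∀ k, cmp R k = q k) ∧
      dist P R ≤ ‖(WithLp.toLp 2 (fun k => dist (cmp P k) (q k) + ε) :
        EuclideanSpace ℝ (Fin n))‖ := by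
  choose L hL hconn using fun k => exists_conn (cmp P k) (q k) hε
  choose γ h0 h1 hlip hmesh using fun k => exists_mesh (hconn k)
  choose δ hδ hrel using hmesh
  obtain ⟨η, hη, hηδ⟩ : ∃ η > 0, ∀ k, η ≤ δ k := by
    rcases isEmpty_or_nonempty (Fin n) with h | h
    · exact ⟨1, one_pos, fun k => h.elim k⟩
    · obtain ⟨k, hk⟩ := Finite.exists_min δ
      exact ⟨δ k, hδ k, hk⟩
  obtain ⟨N, hN⟩ := exists_nat_one_div_lt hη
  set M : ℝ := (N:ℝ) + 1 with hM
  have hM0 : 0 < M := by positivity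
  set Λ : EuclideanSpace ℝ (Fin n) := WithLp.toLp 2 L with hΛ
  have hmemI : ∀ j : ℕ, j ≤ N + 1 → (j:ℝ) / M ∈ Icc (0:ℝ) 1 := by
    intro j hj
    refine ⟨by positivity, ?_⟩
    rw [div_le_one hM0]
    have : (j:ℝ) ≤ (N + 1 : ℕ) := by exact_mod_cast hj
    rw [hM]; push_cast at this; exact this
  have key : ∀ j : ℕ, j ≤ N + 1 → ∃ R : Cov (PiSet A) x₀, (∀ k, cmp R k = γ k ((j:ℝ) / M)) ∧
      dist P R ≤ j * (‖Λ‖ / M) := by
    intro j hj
    induction j with
    | zero => exact ⟨P, fun k => by simp [h0], by simp⟩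
    | succ j ih =>
      obtain ⟨R, hR, hd⟩ := ih (by omega)
      have hj0 := hmemI j (by omega)
      have hj1 := hmemI (j+1) hj
      have hdiff : |(j:ℝ) / M - ((j+1 : ℕ):ℝ) / M| = 1 / M := by
        rw [← sub_div, abs_div, abs_of_pos hM0]
        push_cast
        rw [show (j:ℝ) - (j + 1) = -1 by ring, abs_neg, abs_one]
      have hRel : ∀ k, Rel (cmp R k) (γ k (((j+1 : ℕ):ℝ) / M)) := by
        intro k
        rw [hR k]
        apply hrel k _ hj0 _ hj1
        rw [hdiff]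
        exact lt_of_lt_of_le hN (hηδ k)
      choose hseg hstep using hRel
      set y : PiSet A := ⟨WithLp.toLp 2 (fun k => ((γ k (((j+1 : ℕ):ℝ) / M)).pt : ℂ)),
        fun k => (γ k (((j+1 : ℕ):ℝ) / M)).pt.2⟩ with hy
      have hyk : ∀ k, prC A k y = (γ k (((j+1 : ℕ):ℝ) / M)).pt := fun k => Subtype.ext rfl
      have hsegy : segment ℝ (R.pt : E n) y ⊆ PiSet A := by
        rintro z ⟨a, b, ha, hb, hab, rfl⟩ k
        exact hseg k ⟨a, b, ha, hb, hab, rfl⟩
      refine ⟨R.step y hsegy, fun k => ?_, ?_⟩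
      · rw [cmp_step, ← hstep k]
        congr 1
      · have h3 : dist R (R.step y hsegy) ≤ ‖Λ‖ / M := by
          rw [dist_step_eq]
          have h4 : ‖Λ‖ / M = ‖(M⁻¹) • Λ‖ := by
            rw [norm_smul, norm_inv, Real.norm_eq_abs, abs_of_pos hM0]
            field_simp
          rw [h4]
          apply dist_le_of_coord
          intro k
          have h5 : dist ((R.pt : E n) k) ((y : E n) k) ≤
              dist (γ k ((j:ℝ) / M)) (γ k (((j+1 : ℕ):ℝ) / M)) := by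
            rw [← hR k]
            exact dist_pt_le (cmp R k) (γ k (((j+1 : ℕ):ℝ) / M))
          refine h5.trans ((hlip k _ hj0 _ hj1).trans (le_of_eq ?_))
          rw [hdiff]
          show L k * (1 / M) = M⁻¹ * L k
          rw [one_div, mul_comm]
        have h6 := dist_triangle P R (R.step y hsegy)
        push_cast
        linarith
  obtain ⟨R, hR, hd⟩ := key (N+1) le_rfl
  refine ⟨R, fun k => ?_, ?_⟩
  · rw [hR k]
    have : (((N + 1 : ℕ) : ℝ)) / M = 1 := by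
      rw [hM]; push_cast; field_simp
    rw [this, h1 k]
  · have h7 : (((N + 1 : ℕ) : ℝ)) * (‖Λ‖ / M) = ‖Λ‖ := by
      rw [hM]; push_cast; field_simp
    rw [h7] at hd
    refine hd.trans ?_
    exact norm_le_norm_of_le (fun k => (hconn k).1) (fun k => hL k)

theorem dist_eq_DP (P Q : Cov (PiSet A) x₀) : dist P Q = DP P Q := by
  apply le_antisymm _ (DP_le P Q)
  refine le_of_forall_pos_le_add fun η hη => ?_
  set o : EuclideanSpace ℝ (Fin n) := WithLp.toLp 2 (fun _ => (1:ℝ)) with ho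
  set ε : ℝ := η / (‖o‖ + 1) with hε
  have hε0 : 0 < ε := by positivity
  obtain ⟨R, hR, hd⟩ := exists_cmp_eq P (fun k => cmp Q k) hε0
  have hRQ : R = Q := cmp_injective hR
  rw [hRQ] at hd
  refine hd.trans ?_
  have h1 : (WithLp.toLp 2 (fun k => dist (cmp P k) (cmp Q k) + ε) : EuclideanSpace ℝ (Fin n)) =
      WithLp.toLp 2 (fun k => dist (cmp P k) (cmp Q k)) + ε • o := by
    ext k
    simp [ho]
  rw [h1]
  refine (norm_add_le _ _).trans ?_
  rw [norm_smul, Real.norm_eq_abs, abs_of_pos hε0]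
  have h2 : ε * ‖o‖ ≤ η := by
    have : ε * (‖o‖ + 1) = η := by rw [hε]; field_simp
    nlinarith [norm_nonneg o]
  unfold DP
  linarith

lemma dist_cmp_le (P Q : Cov (PiSet A) x₀) (k : Fin n) : dist (cmp P k) (cmp Q k) ≤ dist P Q := by
  have h := DP_sq P Q
  rw [← dist_eq_DP] at h
  refine (sq_le_sq₀ dist_nonneg dist_nonneg).1 ?_
  rw [h]
  exact Finset.single_le_sum (f := fun k => dist (cmp P k) (cmp Q k) ^ 2)
    (fun _ _ => sq_nonneg _) (Finset.mem_univ k)

theorem approxCN_product (h : ∀ k, ApproxCN (Cov (A k) (prC A k x₀))) :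
    ApproxCN (Cov (PiSet A) x₀) := by
  intro P Q ε hε
  set ε' : ℝ := ε / (n + 1) with hε'
  have hε'0 : 0 < ε' := by positivity
  choose m hm using fun k => h k (cmp P k) (cmp Q k) ε' hε'0
  obtain ⟨M, hM, -⟩ := exists_cmp_eq P m one_pos
  refine ⟨M, fun Z => ?_⟩
  have e : ∀ P Q : Cov (PiSet A) x₀, dist P Q ^ 2 = ∑ k, dist (cmp P k) (cmp Q k) ^ 2 := by
    intro P Q; rw [dist_eq_DP, DP_sq]
  rw [e Z M, e Z P, e Z Q, e P Q]
  have h1 : ∀ k, dist (cmp Z k) (cmp M k) ^ 2 ≤ dist (cmp Z k) (cmp P k) ^ 2 / 2 +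
      dist (cmp Z k) (cmp Q k) ^ 2 / 2 - dist (cmp P k) (cmp Q k) ^ 2 / 4 +
      ε' * (1 + dist Z P) ^ 2 := by
    intro k
    rw [hM k]
    have h2 := hm k (cmp Z k)
    have h3 : (1 + dist (cmp Z k) (cmp P k)) ^ 2 ≤ (1 + dist Z P)^2 :=
      pow_le_pow_left₀ (by positivity) (by linarith [dist_cmp_le Z P k]) 2
    have h4 := mul_le_mul_of_nonneg_left h3 hε'0.le
    linarith
  refine (Finset.sum_le_sum (fun k _ => h1 k)).trans ?_
  rw [Finset.sum_add_distrib, Finset.sum_sub_distrib, Finset.sum_add_distrib, ← Finset.sum_div,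
    ← Finset.sum_div, ← Finset.sum_div, Finset.sum_const, Finset.card_univ, Fintype.card_fin,
    nsmul_eq_mul]
  have h5 : (n:ℝ) * (ε' * (1 + dist Z P) ^ 2) ≤ ε * (1 + dist Z P)^2 := by
    have : (n:ℝ) * ε' ≤ ε := by
      have h6 : ε' * (n + 1) = ε := by rw [hε']; field_simp
      nlinarith
    calc (n:ℝ) * (ε' * (1 + dist Z P) ^ 2) = (n:ℝ) * ε' * (1 + dist Z P)^2 := by ring
      _ ≤ ε * (1 + dist Z P)^2 := mul_le_mul_of_nonneg_right this (sq_nonneg _)
  linarith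

end product

/-! ### The plane -/

instance : LocConvex (univ : Set ℂ) := ⟨fun x _ => ⟨1, one_pos, by
  rw [univ_inter]; exact convex_ball x 1⟩⟩

lemma rel_univ {x₀ : (univ : Set ℂ)} (P Q : Cov (univ : Set ℂ) x₀) : Rel P Q := by
  refine ⟨subset_univ _, ?_⟩
  obtain ⟨y, P⟩ := P
  obtain ⟨z, Q⟩ := Q
  unfold Cov.step
  congr 1
  induction P using Path.Homotopic.Quotient.ind with
  | mk c =>
    induction Q using Path.Homotopic.Quotient.ind with
    | mk d =>
      rw [← Path.Homotopic.Quotient.mk_trans, Path.Homotopic.Quotient.eq]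
      exact homotopic_of_segment _ _ (fun _ => subset_univ _)

theorem approxCN_univ {x₀ : (univ : Set ℂ)} : ApproxCN (Cov (univ : Set ℂ) x₀) := by
  intro P Q ε hε
  refine ⟨P.step ⟨(1/2 : ℝ) • ((P.pt:ℂ) + Q.pt), trivial⟩ (subset_univ _), fun Z => ?_⟩
  rw [(rel_univ Z _).dist_eq, (rel_univ Z P).dist_eq, (rel_univ Z Q).dist_eq,
    (rel_univ P Q).dist_eq, dist_eq_norm, dist_eq_norm, dist_eq_norm, dist_eq_norm]
  have h1 := planar_mid (Z.pt:ℂ) P.pt Q.pt
  simp only [step_pt]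
  have h2 : 0 ≤ ε * (1 + ‖(Z.pt:ℂ) - P.pt‖)^2 := by positivity
  linarith

end Pool.Agent.BR49
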