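import Pool.Agent.BR49.Weighted
import Pool.Agent.BR49.Product2

/-!
# Coverings ramified over the collisions of disjoint pairs
-/

open Set Metric unitInterval Topology UniformSpace Filter
open scoped ENNReal NNReal

set_option linter.unusedSectionVars false
set_option linter.unusedVariables false

noncomputable section

namespace Pool.Agent.BR49

variable {n : ℕ} (π : Fin n → Fin n)

/-- The factors. -/
def AP (k : Fin n) : Set ℂ := if π k < k then C0 else univ

lemma AP_cases (k : Fin n) : AP π k = C0 ∨ AP π k = univ := by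
  unfold AP; split_ifs <;> simp

lemma locConvex_of_cases {B : Set ℂ} (h : B = C0 ∨ B = univ) : LocConvex B := by
  rcases h with rfl | rfl <;> infer_instance

instance (k : Fin n) : LocConvex (AP π k) := locConvex_of_cases (AP_cases π k)

lemma approxCN_of_cases {B : Set ℂ} [LocConvex B] (h : B = C0 ∨ B = univ) (x₀ : B) :
    ApproxCN (Cov B x₀) := by
  rcases h with rfl | rfl
  · exact approxCN_C0
  · exact approxCN_univ

/-- The complement of the hyperplanes `z i = z (π i)`. -/
def WP : Set (E n) := {z | ∀ i, π i ≠ i → z i ≠ z (π i)}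

lemma isOpen_WP : IsOpen (WP π) := by
  have : WP π = ⋂ (i : Fin n), {u : E n | π i ≠ i → u i ≠ u (π i)} := by
    ext z; simp [WP]
  rw [this]
  refine isOpen_iInter_of_finite fun i => ?_
  by_cases h1 : π i ≠ i
  · simp only [h1, ne_eq, not_false_eq_true, forall_const]
    exact isOpen_ne_fun (by fun_prop) (by fun_prop)
  · simp [h1]

instance : LocConvex (WP π) := locConvex_of_isOpen (isOpen_WP π)

/-- Sums and differences of the pairs. -/
def TT (z : E n) : E n := WithLp.toLp 2 (fun i =>
  if i < π i then (√2)⁻¹ • (z i + z (π i)) else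
    if π i < i then (√2)⁻¹ • (z i - z (π i)) else z i)

/-- The inverse transformation. -/
def SS (u : E n) : E n := WithLp.toLp 2 (fun i =>
  if i < π i then (√2)⁻¹ • (u i - u (π i)) else
    if π i < i then (√2)⁻¹ • (u (π i) + u i) else u i)

lemma TT_apply (z : E n) (i : Fin n) : TT π z i = if i < π i then (√2)⁻¹ • (z i + z (π i)) else
    if π i < i then (√2)⁻¹ • (z i - z (π i)) else z i := rfl

lemma SS_apply (u : E n) (i : Fin n) : SS π u i = if i < π i then (√2)⁻¹ • (u i - u (π i)) else
    if π i < i then (√2)⁻¹ • (u (π i) + u i) else u i := rfl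

lemma TT_sub (z w : E n) : TT π z - TT π w = TT π (z - w) := by
  ext i
  simp only [PiLp.sub_apply, TT_apply]
  split_ifs
  · rw [← smul_sub]; congr 1; ring
  · rw [← smul_sub]; congr 1; ring
  · rfl

lemma SS_sub (z w : E n) : SS π z - SS π w = SS π (z - w) := by
  ext i
  simp only [PiLp.sub_apply, SS_apply]
  split_ifs
  · rw [← smul_sub]; congr 1; ring
  · rw [← smul_sub]; congr 1; ring
  · rfl

lemma continuous_TT : Continuous (TT π) := by
  unfold TT
  apply (PiLp.continuous_toLp 2 _).comp
  refine continuous_pi fun i => ?_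
  split_ifs <;> fun_prop

lemma continuous_SS : Continuous (SS π) := by
  unfold SS
  apply (PiLp.continuous_toLp 2 _).comp
  refine continuous_pi fun i => ?_
  split_ifs <;> fun_prop

lemma norm_pair (a b : ℂ) : ‖(√2)⁻¹ • (a + b)‖^2 + ‖(√2)⁻¹ • (a - b)‖^2 = ‖a‖^2 + ‖b‖^2 := by
  have h := parallelogram_law_with_norm ℝ a b
  rw [norm_smul, norm_smul, mul_pow, mul_pow, Real.norm_eq_abs, sq_abs, inv_pow,
    Real.sq_sqrt (by norm_num)]
  linarith

variable {π} (hπ : ∀ i, π (π i) = i)

lemma sum_pi (F : Fin n → ℝ) (hπ : ∀ i, π (π i) = i) : ∑ i, F (π i) = ∑ i, F i :=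
  Equiv.sum_comp (⟨π, π, hπ, hπ⟩ : Equiv.Perm (Fin n)) F

lemma sum_pair {F G : Fin n → ℝ} (hπ : ∀ i, π (π i) = i)
    (h : ∀ i, F i + F (π i) = G i + G (π i)) : ∑ i, F i = ∑ i, G i := by
  have h1 : ∑ i, (F i + F (π i)) = ∑ i, (G i + G (π i)) := Finset.sum_congr rfl fun i _ => h i
  rw [Finset.sum_add_distrib, Finset.sum_add_distrib, sum_pi F hπ, sum_pi G hπ] at h1
  linarith

include hπ in
lemma norm_TT (z : E n) : ‖TT π z‖ = ‖z‖ := by
  rw [EuclideanSpace.norm_eq, EuclideanSpace.norm_eq]
  congr 1
  apply sum_pair hπ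
  intro i
  rw [TT_apply, TT_apply, hπ i]
  rcases lt_trichotomy i (π i) with h | h | h
  · rw [if_pos h, if_neg h.asymm, if_pos h]
    have := norm_pair (z i) (z (π i))
    rw [norm_smul, norm_smul] at this
    rw [norm_smul, norm_smul, norm_sub_rev (z (π i))]
    exact this
  · rw [← h]; simp
  · rw [if_neg h.asymm, if_pos h, if_pos h]
    have := norm_pair (z (π i)) (z i)
    rw [norm_smul, norm_smul] at this
    rw [norm_smul, norm_smul, norm_sub_rev (z i)]
    linarith

include hπ in
lemma norm_SS (u : E n) : ‖SS π u‖ = ‖u‖ := by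
  rw [EuclideanSpace.norm_eq, EuclideanSpace.norm_eq]
  congr 1
  apply sum_pair hπ
  intro i
  rw [SS_apply, SS_apply, hπ i]
  rcases lt_trichotomy i (π i) with h | h | h
  · rw [if_pos h, if_neg h.asymm, if_pos h]
    have := norm_pair (u i) (u (π i))
    linarith
  · rw [← h]; simp
  · rw [if_neg h.asymm, if_pos h, if_pos h]
    have := norm_pair (u (π i)) (u i)
    linarith

lemma smul_inv_sqrt_two (a : ℂ) : (√2)⁻¹ • ((√2)⁻¹ • a) = (1/2 : ℝ) • a := by
  rw [smul_smul]
  congr 1
  have : √2 * √2 = 2 := Real.mul_self_sqrt (by norm_num)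
  rw [← mul_inv, this]; norm_num

include hπ in
lemma SS_TT (z : E n) : SS π (TT π z) = z := by
  ext i
  rw [SS_apply, TT_apply, TT_apply, hπ i]
  rcases lt_trichotomy i (π i) with h | h | h
  · rw [if_pos h, if_pos h, if_neg h.asymm, if_pos h, ← smul_sub, smul_inv_sqrt_two]
    have : z i + z (π i) - (z (π i) - z i) = (2:ℝ) • z i := by
      rw [two_smul]; ring
    rw [this, smul_smul]; norm_num
  · simp [← h]
  · rw [if_neg h.asymm, if_pos h, if_pos h, if_neg h.asymm, if_pos h, ← smul_add,
      smul_inv_sqrt_two]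
    have : z (π i) + z i + (z i - z (π i)) = (2:ℝ) • z i := by
      rw [two_smul]; ring
    rw [this, smul_smul]; norm_num

include hπ in
lemma TT_mem {z : E n} (hz : z ∈ WP π) : TT π z ∈ PiSet (AP π) := by
  intro k
  unfold AP
  split_ifs with h
  · show TT π z k ≠ 0
    rw [TT_apply, if_neg h.asymm, if_pos h]
    refine smul_ne_zero (inv_ne_zero (Real.sqrt_pos.2 (by norm_num)).ne') ?_
    exact sub_ne_zero.2 (hz k h.ne)
  · trivial

include hπ in
lemma SS_mem {u : E n} (hu : u ∈ PiSet (AP π)) : SS π u ∈ WP π := by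
  have key : ∀ i, i < π i → SS π u i ≠ SS π u (π i) := by
    intro i h
    rw [SS_apply, SS_apply, hπ i, if_pos h, if_neg h.asymm, if_pos h]
    have h1 := hu (π i)
    unfold AP at h1
    rw [hπ i, if_pos h] at h1
    have h1' : u (π i) ≠ 0 := h1
    intro h2
    have h3 := smul_right_injective ℂ (inv_ne_zero (Real.sqrt_pos.2 (by norm_num : (0:ℝ) < 2)).ne') h2
    apply h1'
    have h4 : (2:ℂ) * u (π i) = 0 := by linear_combination -h3
    simpa using h4
  intro i hi
  rcases lt_trichotomy i (π i) with h | h | h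
  · exact key i h
  · exact absurd h.symm hi
  · have := key (π i) (by rwa [hπ i])
    rw [hπ i] at this
    exact this.symm

include hπ in
/-- **Coverings ramified over disjoint pairs** satisfy the inequality of Bruhat and Tits. -/
theorem cn_WP (x₀ : WP π) : CN (Ram x₀) := by
  set f : C(WP π, PiSet (AP π)) :=
    ⟨fun z => ⟨TT π z, TT_mem hπ z.2⟩, Continuous.subtype_mk
      ((continuous_TT π).comp continuous_subtype_val) _⟩ with hf
  set g : C(PiSet (AP π), WP π) :=
    ⟨fun u => ⟨SS π u, SS_mem hπ u.2⟩, Continuous.subtype_mk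
      ((continuous_SS π).comp continuous_subtype_val) _⟩ with hg
  have hgf : ∀ z, g (f z) = z := fun z => Subtype.ext (SS_TT hπ z)
  have hiso := isometry_map (x₀ := x₀) f g hgf (fun x y => by
      rw [dist_eq_norm, dist_eq_norm]
      show ‖TT π x - TT π y‖ ≤ _
      rw [TT_sub, norm_TT hπ]) (fun x y => by
      rw [dist_eq_norm, dist_eq_norm]
      show ‖SS π x - SS π y‖ ≤ _
      rw [SS_sub, norm_SS hπ])
  have h2 : CN (Ram (f x₀)) := (approxCN_product
    (fun k => approxCN_of_cases (AP_cases π k) _)).completion.cn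
  exact h2.of_isometry approxMid_ram (ι := Completion.map _) hiso.completion_map

end Pool.Agent.BR49
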