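import Pool.Agent.BR49.Weighted2
import Pool.Agent.BR49.Pairs
import Pool.Agent.BR49.LocIso
import Pool.Agent.BR49.LocGeod2

/-!
# Local geodesics of the braid space with collisions of disjoint pairs only
-/

open Set Metric unitInterval Topology UniformSpace Filter
open scoped ENNReal NNReal

set_option linter.unusedSectionVars false
set_option linter.unusedVariables false

noncomputable section

namespace Pool.Agent.BR49

variable {n : ℕ} {π : Fin n → Fin n}

lemma W_subset_WP : W n ⊆ WP π := fun z hz i hi => hz i (π i) (Ne.symm hi)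

/-- The complement of the hyperplanes through `z`. -/
def Wloc (z : E n) : Set (E n) := {x | ∀ i j, i ≠ j → z i = z j → x i ≠ x j}

lemma WP_subset_Wloc {z : E n} (hz : ∀ i j, i ≠ j → z i = z j → j = π i) : WP π ⊆ Wloc z := by
  intro x hx i j hij hzz
  have h := hz i j hij hzz
  subst h
  exact hx i (Ne.symm hij)

lemma Wloc_inv {z x : E n} (hx : x ∈ Wloc z) {s : ℝ} (hs : 0 < s) :
    z + s • (x - z) ∈ Wloc z := by
  intro i j hij hzz heq
  apply hx i j hij hzz
  simp only [PiLp.add_apply, PiLp.smul_apply, PiLp.sub_apply, hzz] at heq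
  have h1 := add_left_cancel heq
  have h2 := smul_right_injective ℂ hs.ne' h1
  exact sub_left_injective h2

lemma exists_gap (z : E n) : ∃ δ > 0, ∀ i j, z i ≠ z j → 2 * δ ≤ ‖z i - z j‖ := by
  classical
  set F : Option (Fin n × Fin n) → ℝ := fun k => k.elim 1
    (fun p => if z p.1 = z p.2 then 1 else ‖z p.1 - z p.2‖) with hF
  obtain ⟨k, hk⟩ := Finite.exists_min F
  refine ⟨F k / 2, ?_, ?_⟩
  · have : 0 < F k := by
      rcases k with _ | p
      · simp [hF]
      · simp only [hF, Option.elim]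
        split_ifs with h
        · exact one_pos
        · exact norm_pos_iff.2 (sub_ne_zero.2 h)
    positivity
  · intro i j hij
    have := hk (some (i, j))
    simp only [hF, Option.elim, hij, if_false] at this ⊢
    linarith

lemma coord_le_norm (z : E n) (i : Fin n) : ‖z i‖ ≤ ‖z‖ := PiLp.norm_apply_le z i

lemma B0_subset_W {z : E n} {δ : ℝ} (hδ : ∀ i j, z i ≠ z j → 2 * δ ≤ ‖z i - z j‖) :
    B0 (Wloc z) z δ ⊆ W n := by
  rintro x ⟨hx, hxz⟩ i j hij heq
  by_cases hzz : z i = z j
  · exact hx i j hij hzz heq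
  · have h1 := hδ i j hzz
    rw [dist_eq_norm] at hxz
    have h2 := coord_le_norm (x - z) i
    have h3 := coord_le_norm (x - z) j
    simp only [PiLp.sub_apply] at h2 h3
    have h4 : z i - z j = (x j - z j) - (x i - z i) := by rw [heq]; ring
    have h5 := norm_sub_le (x j - z j) (x i - z i)
    rw [← h4] at h5
    linarith

/-- Near a point with collisions of `π`-pairs only, forgetting the ramification at all other pairs
is an isometry. -/
lemma exists_locIso (x₀ : W n) (P : Ram x₀)
    (hP : ∀ i j, i ≠ j → proj P i = proj P j → j = π i) :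
    ∃ r > 0, ∀ Q Q' : Ram x₀, dist Q P < r → dist Q' P < r →
      dist (incRam (W_subset_WP (π := π)) Q) (incRam (W_subset_WP (π := π)) Q') = dist Q Q' := by
  obtain ⟨δ, hδ, hgap⟩ := exists_gap (proj P)
  exact ⟨δ/16, by positivity, fun Q Q' hQ hQ' =>
    dist_incRam_eq (W_subset_WP (π := π)) (WP_subset_Wloc hP) hδ (B0_subset_W hgap)
      (fun x hx s hs _ => Wloc_inv hx hs) P rfl Q Q' hQ hQ'⟩

/-- **Local geodesics with collisions of disjoint pairs only.** -/
theorem pair_collisions (hπ : ∀ i, π (π i) = i) (x₀ : W n) {a b : ℝ} {γ : ℝ → Ram x₀}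
    (hγ : LocGeod γ a b)
    (hcol : ∀ t ∈ Icc a b, ∀ i j, i ≠ j → proj (γ t) i = proj (γ t) j → j = π i) :
    (∀ s ∈ Icc a b, ∀ t ∈ Icc a b, dist (γ s) (γ t) = |s - t|) ∧
      ∀ t ∈ Icc a b, ∀ N : Ram x₀, dist (γ a) N = t - a → dist N (γ b) = b - t → N = γ t := by
  set F : Ram x₀ → Ram (incC (W_subset_WP (π := π)) x₀) := incRam (W_subset_WP (π := π)) with hF
  have hloc : ∀ t ∈ Icc a b, ∃ r > 0, ∀ Q Q', dist Q (γ t) < r → dist Q' (γ t) < r →
      dist (F Q) (F Q') = dist Q Q' := fun t ht => exists_locIso x₀ (γ t) (hcol t ht)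
  have hlip := lip_of_loc hγ.loc
  have hY : CN (Ram (incC (W_subset_WP (π := π)) x₀)) := cn_WP hπ _
  have hFγ : LocGeod (fun t => F (γ t)) a b := by
    intro t ht
    obtain ⟨ε, hε, H⟩ := hγ t ht
    obtain ⟨r, hr, hiso⟩ := hloc t ht
    refine ⟨min ε r, lt_min hε hr, fun s hs s' hs' h1 h2 => ?_⟩
    rw [hiso (γ s) (γ s')
      ((hlip s hs t ht).trans_lt (h1.trans_le (min_le_right _ _)))
      ((hlip s' hs' t ht).trans_lt (h2.trans_le (min_le_right _ _)))]
    exact H s hs s' hs' (h1.trans_le (min_le_left _ _)) (h2.trans_le (min_le_left _ _))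
  have hFd := hFγ.dist_eq hY
  have hFle : ∀ P Q, dist (F P) (F Q) ≤ dist P Q := fun P Q => dist_incRam_le _ P Q
  refine ⟨fun s hs t ht => le_antisymm (hlip s hs t ht) ?_, fun t ht N h1 h2 => ?_⟩
  · rw [← hFd s hs t ht]
    exact hFle _ _
  · exact unique_of_locIso hY almostConn_ram hFle hlip hFd hloc ht h1.le h2.le

end Pool.Agent.BR49
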