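import Pool.Agent.BR49.Length

/-!
# The infinitely branched plane

The universal covering of the punctured plane satisfies the inequality of Bruhat and Tits (in an
approximate form).
-/

open Set Metric unitInterval Topology UniformSpace Filter
open scoped ENNReal NNReal

set_option linter.unusedSectionVars false
set_option linter.unusedVariables false

noncomputable section

namespace Pool.Agent.BR49

section general
variable {V : Type*} [NormedAddCommGroup V] [NormedSpace ℝ V] {U : Set V} {x₀ : U}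

/-- `q` is reached from `p` by a straight step. -/
def Rel (p q : Cov U x₀) : Prop := ∃ h : segment ℝ (p.pt:V) q.pt ⊆ U, p.step q.pt h = q

lemma step_self (p : Cov U x₀) (h : segment ℝ (p.pt:V) p.pt ⊆ U) : p.step p.pt h = p := by
  have h1 : seg h = Path.refl p.pt := by
    ext t; simp
  cases p with
  | mk y P =>
    unfold Cov.step
    simp only at h1 ⊢
    rw [h1, quot_mk_refl, Path.Homotopic.Quotient.trans_refl]

lemma Rel.refl (p : Cov U x₀) : Rel p p := by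
  have h : segment ℝ (p.pt:V) p.pt ⊆ U := by
    rw [segment_same]; exact singleton_subset_iff.2 p.pt.2
  exact ⟨h, step_self p h⟩

lemma step_step_convex {C : Set V} (hC : Convex ℝ C) (hCU : C ⊆ U) (p : Cov U x₀) (y z : U)
    (hp : (p.pt:V) ∈ C) (hy : (y:V) ∈ C) (hz : (z:V) ∈ C) (h : segment ℝ (p.pt:V) y ⊆ U)
    (h' : segment ℝ (y:V) z ⊆ U) (h'' : segment ℝ (p.pt:V) z ⊆ U) :
    (p.step y h).step z h' = p.step z h'' := by
  unfold Cov.step
  congr 1
  simp only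
  rw [Path.Homotopic.Quotient.trans_assoc]
  congr 1
  exact seg_trans_seg hC hCU hp hy hz h h' h''

lemma Rel.trans_convex {C : Set V} (hC : Convex ℝ C) (hCU : C ⊆ U) {p q r : Cov U x₀}
    (hp : (p.pt:V) ∈ C) (hq : (q.pt:V) ∈ C) (hr : (r.pt:V) ∈ C) (h1 : Rel p q) (h2 : Rel q r) :
    Rel p r := by
  obtain ⟨h1, e1⟩ := h1
  obtain ⟨h2, e2⟩ := h2
  have h3 : segment ℝ (p.pt:V) r.pt ⊆ U := (hC.segment_subset hp hr).trans hCU
  refine ⟨h3, ?_⟩
  rw [← step_step_convex hC hCU p q.pt r.pt hp hq hr h1 (by simpa using h2) h3]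
  have : (p.step q.pt h1).step r.pt (by simpa using h2) = q.step r.pt h2 := by
    congr 1
  rw [this, e2]

lemma step_congr_left {p q : Cov U x₀} (e : p = q) (y : U) (h : segment ℝ (p.pt:V) y ⊆ U)
    (h' : segment ℝ (q.pt:V) y ⊆ U) : p.step y h = q.step y h' := by
  subst e; rfl

lemma Rel.symm {p q : Cov U x₀} (h : Rel p q) : Rel q p := by
  obtain ⟨h1, e1⟩ := h
  have h2 : segment ℝ (q.pt:V) p.pt ⊆ U := by rw [segment_symm]; exact h1
  refine ⟨h2, ?_⟩
  have h3 : segment ℝ (p.pt:V) p.pt ⊆ U := by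
    rw [segment_same]; exact singleton_subset_iff.2 p.pt.2
  have h4 := step_step_convex (convex_segment (p.pt:V) q.pt) h1 p q.pt p.pt
    (left_mem_segment ℝ _ _) (right_mem_segment ℝ _ _) (left_mem_segment ℝ _ _) h1 h2 h3
  rw [step_self] at h4
  exact (step_congr_left e1.symm p.pt h2 h2).trans h4

lemma Rel.dist_eq [LocConvex U] {p q : Cov U x₀} (h : Rel p q) :
    dist p q = dist (p.pt:V) q.pt := by
  obtain ⟨h1, e1⟩ := h
  have := dist_step_eq p q.pt h1
  rwa [e1] at this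

lemma rel_step (p : Cov U x₀) (y : U) (h : segment ℝ (p.pt:V) y ⊆ U) : Rel p (p.step y h) :=
  ⟨h, rfl⟩

end general

/-- The punctured plane. -/
def C0 : Set ℂ := {z | z ≠ 0}

instance : LocConvex C0 := by
  refine ⟨fun x hx => ⟨‖x‖, norm_pos_iff.2 hx, ?_⟩⟩
  have : C0 ∩ ball x ‖x‖ = ball x ‖x‖ := by
    rw [inter_eq_right]
    intro y hy h0
    rw [mem_ball, h0, dist_zero_left] at hy
    exact lt_irrefl _ hy
  rw [this]
  exact convex_ball x ‖x‖

/-- Triangles. -/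
def tri (p q r : ℂ) : Set ℂ :=
  {x | ∃ a b c : ℝ, 0 ≤ a ∧ 0 ≤ b ∧ 0 ≤ c ∧ a + b + c = 1 ∧ x = a • p + b • q + c • r}

lemma convex_tri (p q r : ℂ) : Convex ℝ (tri p q r) := by
  rintro _ ⟨a, b, c, ha, hb, hc, h, rfl⟩ _ ⟨a', b', c', ha', hb', hc', h', rfl⟩ s t hs ht hst
  refine ⟨s * a + t * a', s * b + t * b', s * c + t * c', by positivity, by positivity,
    by positivity, ?_, ?_⟩
  · calc s * a + t * a' + (s * b + t * b') + (s * c + t * c') =
        s * (a + b + c) + t * (a' + b' + c') := by ring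
      _ = 1 := by rw [h, h', mul_one, mul_one, hst]
  · module

lemma mem_tri1 (p q r : ℂ) : p ∈ tri p q r :=
  ⟨1, 0, 0, zero_le_one, le_rfl, le_rfl, by norm_num, by simp⟩
lemma mem_tri2 (p q r : ℂ) : q ∈ tri p q r :=
  ⟨0, 1, 0, le_rfl, zero_le_one, le_rfl, by norm_num, by simp⟩
lemma mem_tri3 (p q r : ℂ) : r ∈ tri p q r :=
  ⟨0, 0, 1, le_rfl, le_rfl, zero_le_one, by norm_num, by simp⟩

lemma norm_add_of_zero_mem_segment {p q : ℂ} (h : (0:ℂ) ∈ segment ℝ p q) :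
    ‖p - q‖ = ‖p‖ + ‖q‖ := by
  have h1 := dist_add_dist_of_mem_segment h
  rw [dist_zero_right, dist_zero_left, dist_eq_norm] at h1
  exact h1.symm

lemma norm_add_norm_le_of_tri {p q r : ℂ} (h : (0:ℂ) ∈ tri p q r) :
    ‖p‖ + ‖r‖ ≤ ‖p - q‖ + ‖q - r‖ := by
  obtain ⟨a, b, c, ha, hb, hc, hs, h0⟩ := h
  rcases eq_or_lt_of_le (add_nonneg hb hc) with hbc | hbc
  · have hb0 : b = 0 := by linarith
    have hc0 : c = 0 := by linarith
    have ha1 : a = 1 := by linarith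
    subst hb0 hc0 ha1
    have hp : p = 0 := by simpa using h0.symm
    subst hp
    simp only [norm_zero, zero_add, zero_sub, norm_neg]
    have := norm_sub_norm_le r q
    rw [norm_sub_rev] at this
    linarith
  · set S : ℂ := ((b + c)⁻¹) • (b • q + c • r) with hS
    have hne : b + c ≠ 0 := hbc.ne'
    have h1 : a • p + (b + c) • S = 0 := by
      rw [hS, smul_smul, mul_inv_cancel₀ hne, one_smul, h0]
      abel
    have h2 : (0:ℂ) ∈ segment ℝ p S := ⟨a, b + c, ha, hbc.le, by linarith, h1⟩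
    have h3 := norm_add_of_zero_mem_segment h2
    have h4 : S ∈ segment ℝ q r := by
      refine ⟨b / (b + c), c / (b + c), by positivity, by positivity, by field_simp, ?_⟩
      rw [hS, smul_add, smul_smul, smul_smul, div_eq_inv_mul, div_eq_inv_mul]
    have h5 := dist_add_dist_of_mem_segment h4
    rw [dist_eq_norm, dist_eq_norm, dist_eq_norm] at h5
    have h6 : ‖p - S‖ ≤ ‖p - q‖ + ‖q - S‖ := norm_sub_le_norm_sub_add_norm_sub p q S
    have h7 : ‖r‖ ≤ ‖S‖ + ‖S - r‖ := by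
      have := norm_sub_norm_le r S
      rw [norm_sub_rev] at this
      linarith
    linarith

variable {x₀ : C0}

lemma Rel.trans_tri {p q r : Cov C0 x₀} (h1 : Rel p q) (h2 : Rel q r)
    (h : (0:ℂ) ∉ tri p.pt q.pt r.pt) : Rel p r :=
  Rel.trans_convex (convex_tri p.pt q.pt r.pt) (fun x hx => by
    show x ≠ 0
    rintro rfl
    exact h hx) (mem_tri1 _ _ _) (mem_tri2 _ _ _) (mem_tri3 _ _ _) h1 h2

/-- The explicit distance. -/
def DD (p q : Cov C0 x₀) : ℝ :=
  open Classical in if Rel p q then ‖(p.pt:ℂ) - q.pt‖ else ‖(p.pt:ℂ)‖ + ‖(q.pt:ℂ)‖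

lemma DD_of_rel {p q : Cov C0 x₀} (h : Rel p q) : DD p q = ‖(p.pt:ℂ) - q.pt‖ := by
  unfold DD; rw [if_pos h]

lemma DD_of_not_rel {p q : Cov C0 x₀} (h : ¬ Rel p q) : DD p q = ‖(p.pt:ℂ)‖ + ‖(q.pt:ℂ)‖ := by
  unfold DD; rw [if_neg h]

lemma DD_le (p q : Cov C0 x₀) : DD p q ≤ ‖(p.pt:ℂ)‖ + ‖(q.pt:ℂ)‖ := by
  by_cases h : Rel p q
  · rw [DD_of_rel h]; exact norm_sub_le _ _
  · rw [DD_of_not_rel h]

lemma le_DD (p q : Cov C0 x₀) : ‖(p.pt:ℂ) - q.pt‖ ≤ DD p q := by
  by_cases h : Rel p q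
  · rw [DD_of_rel h]
  · rw [DD_of_not_rel h]; exact norm_sub_le _ _

lemma DD_triangle (p q r : Cov C0 x₀) : DD p r ≤ DD p q + DD q r := by
  by_cases h1 : Rel p q
  · by_cases h2 : Rel q r
    · by_cases h3 : (0:ℂ) ∈ tri p.pt q.pt r.pt
      · rw [DD_of_rel h1, DD_of_rel h2]
        exact (DD_le p r).trans (norm_add_norm_le_of_tri h3)
      · rw [DD_of_rel h1, DD_of_rel h2, DD_of_rel (h1.trans_tri h2 h3)]
        exact norm_sub_le_norm_sub_add_norm_sub _ _ _
    · rw [DD_of_rel h1, DD_of_not_rel h2]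
      have := norm_sub_norm_le (p.pt:ℂ) q.pt
      linarith [DD_le p r]
  · rw [DD_of_not_rel h1]
    have h4 := le_DD q r
    have h5 := norm_sub_norm_le (r.pt:ℂ) q.pt
    rw [norm_sub_rev] at h5
    linarith [DD_le p r]

/-- Halving. -/
def halfC : C(C0, C0) where
  toFun x := ⟨(1/2 : ℝ) • (x : ℂ), smul_ne_zero (by norm_num) x.2⟩
  continuous_toFun := Continuous.subtype_mk (by fun_prop) _

@[simp] lemma halfC_coe (x : C0) : ((halfC x : C0) : ℂ) = (1/2 : ℝ) • (x : ℂ) := rfl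

lemma half_segment (x : C0) : segment ℝ (x:ℂ) (halfC x) ⊆ C0 := by
  rintro z ⟨a, b, ha, hb, hab, rfl⟩
  have hx : (x:ℂ) ≠ 0 := x.2
  have : a • (x:ℂ) + b • ((halfC x : C0) : ℂ) = (a + b/2) • (x:ℂ) := by
    rw [halfC_coe]
    module
  show a • (x:ℂ) + b • ((halfC x : C0) : ℂ) ≠ 0
  rw [this]
  exact smul_ne_zero (by linarith) hx

lemma dist_le_add (p q : Cov C0 x₀) : dist p q ≤ ‖(p.pt:ℂ)‖ + ‖(q.pt:ℂ)‖ := by
  have e : ∀ p : Cov C0 x₀, p.step (halfC p.pt) (half_segment p.pt) =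
      p.map halfC (.mk (seg (half_segment x₀))) := fun p => step_straight halfC half_segment p
  have h1 : ∀ p : Cov C0 x₀, dist p (p.map halfC (.mk (seg (half_segment x₀)))) =
      ‖(p.pt:ℂ)‖ / 2 := by
    intro p
    rw [← e, dist_step_eq, dist_eq_norm]
    have : (p.pt:ℂ) - (halfC p.pt : C0) = (1/2 : ℝ) • (p.pt:ℂ) := by
      rw [halfC_coe]; module
    rw [this, norm_smul]
    norm_num
    ring
  have h2 := dist_map_le halfC (.mk (seg (half_segment x₀))) (1/2) (by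
    intro x y
    have : ((halfC x : C0) : ℂ) - (halfC y : C0) = (1/2 : ℝ) • ((x:ℂ) - y) := by
      rw [halfC_coe, halfC_coe]; module
    rw [dist_eq_norm, dist_eq_norm, this, norm_smul]
    norm_num) p q
  have h3 := dist_triangle4 p (p.map halfC (.mk (seg (half_segment x₀))))
    (q.map halfC (.mk (seg (half_segment x₀)))) q
  rw [h1 p, dist_comm (q.map halfC (.mk (seg (half_segment x₀)))) q, h1 q] at h3
  have h4 : (((1/2 : ℝ≥0)) : ℝ) = 1/2 := by norm_num
  rw [h4] at h2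
  linarith

theorem dist_eq_DD (p q : Cov C0 x₀) : dist p q = DD p q := by
  apply le_antisymm
  · by_cases h : Rel p q
    · rw [h.dist_eq, DD_of_rel h, dist_eq_norm]
    · rw [DD_of_not_rel h]; exact dist_le_add p q
  · have := le_dist_of_local (DD (x₀ := x₀)) 1 zero_le_one (fun p => by
      rw [DD_of_rel (Rel.refl p), sub_self, norm_zero]) DD_triangle (fun x => ⟨1, one_pos,
      fun p y h _ _ => by
        rw [DD_of_rel (rel_step p y h), one_mul, dist_eq_norm]; rfl⟩) p q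
    rwa [one_mul] at this

/-! ### Planar inequalities -/

lemma planar0 {P M : ℂ} {b c : ℝ} (hb : 0 ≤ b) (hc : 0 ≤ c) :
    ‖b • P + c • M‖ * inner ℝ M P ≤ ‖M‖ * inner ℝ (b • P + c • M) P := by
  set μ := inner ℝ M P with hμ
  have e1 : inner ℝ (b • P + c • M) P = b * ‖P‖^2 + c * μ := by
    rw [inner_add_left, inner_smul_left, inner_smul_left, real_inner_self_eq_norm_sq]
    simp [hμ]
  have e2 : |μ| ≤ ‖M‖ * ‖P‖ := abs_real_inner_le_norm M P
  have e3 : ‖b • P + c • M‖ ≤ b * ‖P‖ + c * ‖M‖ := by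
    refine (norm_add_le _ _).trans (le_of_eq ?_)
    rw [norm_smul, norm_smul, Real.norm_eq_abs, Real.norm_eq_abs, abs_of_nonneg hb,
      abs_of_nonneg hc]
  have e4 : c * ‖M‖ - b * ‖P‖ ≤ ‖b • P + c • M‖ := by
    have h1 := norm_sub_norm_le (c • M) (-(b • P))
    rw [norm_neg, norm_smul, norm_smul, Real.norm_eq_abs, Real.norm_eq_abs, abs_of_nonneg hb,
      abs_of_nonneg hc, sub_neg_eq_add, add_comm (c • M)] at h1
    exact h1
  rw [e1]
  have hP := norm_nonneg P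
  have hM := norm_nonneg M
  rcases le_total 0 μ with h | h
  · rw [abs_of_nonneg h] at e2
    have h1 := mul_le_mul_of_nonneg_right e3 h
    have h2 := mul_le_mul_of_nonneg_left e2 (mul_nonneg hb hP)
    nlinarith
  · rw [abs_of_nonpos h] at e2
    have h1 := mul_le_mul_of_nonneg_right e4 (by linarith : 0 ≤ -μ)
    have h2 := mul_le_mul_of_nonneg_left e2 (mul_nonneg hb hP)
    nlinarith

lemma planar1 {Z P Q M : ℂ} (hM : M = (1/2 : ℝ) • (P + Q)) (hM0 : M ≠ 0)
    (hseg : (0:ℂ) ∉ segment ℝ P M) (h : (0:ℂ) ∈ tri Z P M) :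
    inner ℝ Z P + 2 * (‖Z‖ * ‖M‖) ≤ ‖Z‖ * ‖Q‖ := by
  obtain ⟨a, b, c, ha, hb, hc, hs, h0⟩ := h
  have ha0 : 0 < a := by
    rcases eq_or_lt_of_le ha with h | h
    · exfalso
      apply hseg
      refine ⟨b, c, hb, hc, by linarith, ?_⟩
      rw [h0, ← h]; simp
    · exact h
  set X : ℂ := b • P + c • M with hX
  have hZ : a • Z = -X := by
    rw [hX, eq_neg_iff_add_eq_zero, ← add_assoc]
    exact h0.symm
  have h1 := planar0 (P := P) (M := M) hb hc
  rw [← hX] at h1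
  have hMpos : 0 < ‖M‖ := norm_pos_iff.2 hM0
  have hQ : Q = (2:ℝ) • M - P := by rw [hM]; module
  have h2 : 2 * ‖M‖^2 - inner ℝ M P ≤ ‖Q‖ * ‖M‖ := by
    have := real_inner_le_norm Q M
    rw [hQ, inner_sub_left, inner_smul_left, real_inner_self_eq_norm_sq] at this
    rw [hQ]
    simp only [conj_trivial] at this
    rw [real_inner_comm] at this
    linarith
  have h3 : a * inner ℝ Z P = - inner ℝ X P := by
    have : inner ℝ (a • Z) P = a * inner ℝ Z P := by rw [inner_smul_left]; simp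
    rw [← this, hZ, inner_neg_left]
  have h4 : a * ‖Z‖ = ‖X‖ := by
    have : ‖a • Z‖ = a * ‖Z‖ := by rw [norm_smul, Real.norm_eq_abs, abs_of_pos ha0]
    rw [← this, hZ, norm_neg]
  have h5 : ‖M‖ * (-inner ℝ X P + 2 * (‖X‖ * ‖M‖)) ≤ ‖M‖ * (‖X‖ * ‖Q‖) := by
    have h6 := mul_le_mul_of_nonneg_left h2 (norm_nonneg X)
    nlinarith
  have h6 : -inner ℝ X P + 2 * (‖X‖ * ‖M‖) ≤ ‖X‖ * ‖Q‖ := le_of_mul_le_mul_left h5 hMpos
  have h7 : a * (inner ℝ Z P + 2 * (‖Z‖ * ‖M‖)) ≤ a * (‖Z‖ * ‖Q‖) := by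
    have e1 : a * (inner ℝ Z P + 2 * (‖Z‖ * ‖M‖)) = -inner ℝ X P + 2 * (‖X‖ * ‖M‖) := by
      rw [mul_add, h3, ← h4]; ring
    have e2 : a * (‖Z‖ * ‖Q‖) = ‖X‖ * ‖Q‖ := by rw [← h4]; ring
    rw [e1, e2]; exact h6
  exact le_of_mul_le_mul_left h7 ha0

lemma planar_mid (Z P Q : ℂ) : ‖Z - (1/2 : ℝ) • (P + Q)‖^2 =
    ‖Z - P‖^2/2 + ‖Z - Q‖^2/2 - ‖P - Q‖^2/4 := by
  have h1 := parallelogram_law_with_norm ℝ (Z - P) (Z - Q)
  have e1 : Z - P + (Z - Q) = (2:ℝ) • (Z - (1/2 : ℝ) • (P + Q)) := by module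
  have e2 : Z - P - (Z - Q) = -(P - Q) := by abel
  rw [e1, e2, norm_neg, norm_smul, Real.norm_eq_abs, abs_of_pos (by norm_num : (0:ℝ) < 2)] at h1
  linarith

lemma planar_mid0 (P Q : ℂ) : ‖(1/2 : ℝ) • (P + Q)‖^2 =
    ‖P‖^2/2 + ‖Q‖^2/2 - ‖P - Q‖^2/4 := by
  have := planar_mid 0 P Q
  simp only [zero_sub, norm_neg] at this
  exact this

/-- The case of two points joined by a straight segment. -/
lemma cnA {P Q M : Cov C0 x₀} (hPQ : Rel P Q) (hPM : Rel P M) (hQM : Rel Q M)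
    (hM : (M.pt : ℂ) = (1/2 : ℝ) • ((P.pt:ℂ) + Q.pt)) (Z : Cov C0 x₀) :
    dist Z M ^ 2 ≤ dist Z P ^ 2 / 2 + dist Z Q ^ 2 / 2 - dist P Q ^ 2 / 4 := by
  have hM0 : (M.pt : ℂ) ≠ 0 := M.pt.2
  have hmid := planar_mid (Z.pt:ℂ) P.pt Q.pt
  have hmid0 := planar_mid0 (P.pt:ℂ) Q.pt
  rw [← hM] at hmid hmid0
  have hzero : ∀ {A B : Cov C0 x₀}, Rel A B → (0:ℂ) ∉ segment ℝ (A.pt:ℂ) B.pt := by
    intro A B h h0
    obtain ⟨h1, _⟩ := h
    exact h1 h0 rfl
  have hz := norm_nonneg (Z.pt:ℂ)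
  have hp := norm_nonneg (P.pt:ℂ)
  have hq := norm_nonneg (Q.pt:ℂ)
  have hm := norm_nonneg (M.pt:ℂ)
  -- one sided case
  have one : ∀ {A B : Cov C0 x₀}, (M.pt : ℂ) = (1/2 : ℝ) • ((A.pt:ℂ) + B.pt) → Rel A M →
      Rel Z A → ¬ Rel Z B → ‖(M.pt:ℂ)‖^2 =
        ‖(A.pt:ℂ)‖^2/2 + ‖(B.pt:ℂ)‖^2/2 - ‖(A.pt:ℂ) - B.pt‖^2/4 →
      ‖(Z.pt:ℂ) - M.pt‖^2 = ‖(Z.pt:ℂ) - A.pt‖^2/2 + ‖(Z.pt:ℂ) - B.pt‖^2/2 -
        ‖(A.pt:ℂ) - B.pt‖^2/4 →
      DD Z M ^ 2 ≤ DD Z A ^ 2 / 2 + DD Z B ^ 2 / 2 - ‖(A.pt:ℂ) - B.pt‖ ^ 2 / 4 := by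
    intro A B hM' hAM hZA hZB e0 e1
    rw [DD_of_rel hZA, DD_of_not_rel hZB]
    by_cases hZM : Rel Z M
    · rw [DD_of_rel hZM, e1]
      have h1 := norm_sub_le (Z.pt:ℂ) B.pt
      have h2 := pow_le_pow_left₀ (norm_nonneg _) h1 2
      linarith
    · have h3 : (0:ℂ) ∈ tri Z.pt A.pt M.pt := by
        by_contra hcon
        exact hZM (hZA.trans_tri hAM hcon)
      have h4 := planar1 hM' hM0 (hzero hAM) h3
      rw [DD_of_not_rel hZM]
      have h5 := norm_sub_sq_real (Z.pt:ℂ) A.pt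
      nlinarith
  rw [dist_eq_DD, dist_eq_DD, dist_eq_DD, dist_eq_DD, DD_of_rel hPQ]
  by_cases hZP : Rel Z P
  · by_cases hZQ : Rel Z Q
    · rw [DD_of_rel hZP, DD_of_rel hZQ, ← hmid]
      apply pow_le_pow_left₀ (by unfold DD; split_ifs <;> positivity)
      by_cases h0 : (0:ℂ) ∈ segment ℝ (Z.pt:ℂ) M.pt
      · rw [norm_add_of_zero_mem_segment h0]; exact DD_le Z M
      · have hrel : Rel Z M := by
          by_cases h1 : (0:ℂ) ∈ tri Z.pt P.pt M.pt
          · by_cases h2 : (0:ℂ) ∈ tri Z.pt Q.pt M.pt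
            · exfalso
              obtain ⟨a, b, c, ha, hb, hc, hs, e1⟩ := h1
              obtain ⟨a', b', c', ha', hb', hc', hs', e2⟩ := h2
              have hb0 : 0 < b := by
                rcases eq_or_lt_of_le hb with h | h
                · exfalso; apply h0
                  refine ⟨a, c, ha, hc, by linarith, ?_⟩
                  rw [e1, ← h]; simp
                · exact h
              have hb0' : 0 < b' := by
                rcases eq_or_lt_of_le hb' with h | h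
                · exfalso; apply h0
                  refine ⟨a', c', ha', hc', by linarith, ?_⟩
                  rw [e2, ← h]; simp
                · exact h
              apply h0
              set T : ℝ := b' * a + b * a' + (b' * c + b * c' + 2 * b * b') with hT
              have hT0 : 0 < T := by positivity
              refine ⟨(b' * a + b * a') / T, (b' * c + b * c' + 2 * b * b') / T, by positivity,
                by positivity, by rw [← add_div, div_self hT0.ne'], ?_⟩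
              have e3 : (b' * a + b * a') • (Z.pt:ℂ) +
                  (b' * c + b * c' + 2 * b * b') • (M.pt:ℂ) = 0 := by
                have e4 : (2 * b * b') • (M.pt:ℂ) = (b * b') • ((P.pt:ℂ) + Q.pt) := by
                  rw [hM]; module
                rw [add_smul _ (2 * b * b'), e4]
                have e5 : (b' * a + b * a') • (Z.pt:ℂ) + ((b' * c + b * c') • (M.pt:ℂ) +
                    (b * b') • ((P.pt:ℂ) + Q.pt)) = b' • (a • (Z.pt:ℂ) + b • (P.pt:ℂ) +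
                      c • (M.pt:ℂ)) + b • (a' • (Z.pt:ℂ) + b' • (Q.pt:ℂ) + c' • (M.pt:ℂ)) := by
                  module
                rw [e5, ← e1, ← e2]
                simp
              rw [div_eq_inv_mul, div_eq_inv_mul, mul_smul, mul_smul, ← smul_add, e3, smul_zero]
            · exact hZQ.trans_tri hQM h2
          · exact hZP.trans_tri hPM h1
        rw [DD_of_rel hrel]
    · exact one hM hPM hZP hZQ hmid0 hmid
  · by_cases hZQ : Rel Z Q
    · have h1 := one (A := Q) (B := P) (by rw [hM, add_comm]) hQM hZQ hZP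
        (by rw [norm_sub_rev (Q.pt:ℂ)]; linarith) (by rw [norm_sub_rev (Q.pt:ℂ)]; linarith)
      rw [norm_sub_rev (Q.pt:ℂ)] at h1
      linarith
    · rw [DD_of_not_rel hZP, DD_of_not_rel hZQ]
      have h1 : DD Z M ≤ ‖(Z.pt:ℂ)‖ + ‖(M.pt:ℂ)‖ := DD_le Z M
      have h2 : ‖(M.pt:ℂ)‖ ≤ (‖(P.pt:ℂ)‖ + ‖(Q.pt:ℂ)‖)/2 := by
        rw [hM, norm_smul]
        norm_num
        linarith [norm_add_le (P.pt:ℂ) Q.pt]
      have h3 : 0 ≤ DD Z M := by unfold DD; split_ifs <;> positivity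
      have h4 := pow_le_pow_left₀ h3 h1 2
      nlinarith

end Pool.Agent.BR49
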