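import Pool.Agent.BR49.Maps

/-!
# Lifting firmly nonexpansive maps to the ramified covering
-/

open Set Metric unitInterval Topology UniformSpace Filter
open scoped ENNReal NNReal

set_option linter.unusedSectionVars false
set_option linter.unusedVariables false

noncomputable section

namespace Pool.Agent.BR49

lemma minkowski_sq (a b c d : ℝ) (ha : 0 ≤ a) (hb : 0 ≤ b) (hc : 0 ≤ c) (hd : 0 ≤ d) :
    √((a + c)^2 + (b + d)^2) ≤ √(a^2 + b^2) + √(c^2 + d^2) := by
  apply Real.sqrt_le_iff.2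
  refine ⟨by positivity, ?_⟩
  have h1 : √(a^2 + b^2) ^ 2 = a^2 + b^2 := Real.sq_sqrt (by positivity)
  have h2 : √(c^2 + d^2) ^ 2 = c^2 + d^2 := Real.sq_sqrt (by positivity)
  have h3 : a * c + b * d ≤ √(a^2 + b^2) * √(c^2 + d^2) := by
    rw [← Real.sqrt_mul (by positivity)]
    apply Real.le_sqrt_of_sq_le
    nlinarith [sq_nonneg (a * d - b * c)]
  nlinarith

variable {V : Type*} [NormedAddCommGroup V] [InnerProductSpace ℝ V] [CompleteSpace V]
  {U : Set V} {x₀ : U}

/-- Firmly nonexpansive maps. -/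
def Firm (T : V → V) : Prop :=
  ∀ x y, ‖T x - T y‖^2 + ‖(x - T x) - (y - T y)‖^2 ≤ ‖x - y‖^2

/-- The relaxation of `T`. -/
def relax (T : V → V) (t : ℝ) (x : V) : V := (1 - t) • x + t • T x

lemma relax_zero (T : V → V) (x : V) : relax T 0 x = x := by simp [relax]
lemma relax_one (T : V → V) (x : V) : relax T 1 x = T x := by simp [relax]

lemma Firm.inner_nonneg {T : V → V} (hT : Firm T) (x y : V) :
    0 ≤ inner ℝ (T x - T y) ((x - T x) - (y - T y)) := by
  have h := hT x y
  have h2 : x - y = (T x - T y) + ((x - T x) - (y - T y)) := by abel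
  have h3 := norm_add_sq_real (T x - T y) ((x - T x) - (y - T y))
  rw [← h2] at h3
  linarith

lemma relax_sub (T : V → V) (t : ℝ) (x y : V) : relax T t x - relax T t y =
    (T x - T y) + (1 - t) • ((x - T x) - (y - T y)) := by
  unfold relax
  module

lemma Firm.relax_le {T : V → V} (hT : Firm T) {t : ℝ} (h0 : 0 ≤ t) (h1 : t ≤ 1) (x y : V) :
    ‖relax T t x - relax T t y‖^2 + (2 * t - t^2) * ‖(x - T x) - (y - T y)‖^2 ≤ ‖x - y‖^2 := by
  have hi := hT.inner_nonneg x y
  set a := T x - T y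
  set b := (x - T x) - (y - T y)
  have h2 : x - y = a + b := by simp only [a, b]; abel
  rw [relax_sub, h2, norm_add_sq_real, norm_add_sq_real, norm_smul, inner_smul_right,
    Real.norm_eq_abs, mul_pow, sq_abs]
  have : (1 - t) * inner ℝ a b ≤ inner ℝ a b := by nlinarith
  nlinarith

lemma Firm.relax_nonexp {T : V → V} (hT : Firm T) {t : ℝ} (h0 : 0 ≤ t) (h1 : t ≤ 1) (x y : V) :
    ‖relax T t x - relax T t y‖ ≤ ‖x - y‖ := by
  have h := hT.relax_le h0 h1 x y
  have h2 : 0 ≤ (2 * t - t^2) * ‖(x - T x) - (y - T y)‖^2 := by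
    apply mul_nonneg _ (sq_nonneg _)
    nlinarith
  exact (sq_le_sq₀ (norm_nonneg _) (norm_nonneg _)).1 (by linarith)

lemma Firm.relax_ge {T : V → V} (hT : Firm T) {t : ℝ} (h0 : 0 ≤ t) (h1 : t ≤ 1) (x y : V) :
    (1 - t) * ‖x - y‖ ≤ ‖relax T t x - relax T t y‖ := by
  have hi := hT.inner_nonneg x y
  rw [← sq_le_sq₀ (mul_nonneg (by linarith) (norm_nonneg _)) (norm_nonneg _)]
  set a := T x - T y
  set b := (x - T x) - (y - T y)
  have h2 : x - y = a + b := by simp only [a, b]; abel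
  rw [relax_sub, h2, mul_pow, norm_add_sq_real, norm_add_sq_real, norm_smul, inner_smul_right,
    Real.norm_eq_abs, mul_pow, sq_abs]
  have h3 : 0 ≤ ‖a‖^2 := sq_nonneg _
  have h4 : (1-t)^2 ≤ 1 := by nlinarith
  have h5 : (1-t)^2 ≤ 1-t := by nlinarith
  have h6 : (1-t)^2 * inner ℝ a b ≤ (1-t) * inner ℝ a b := by nlinarith
  nlinarith

lemma Firm.relax_injective {T : V → V} (hT : Firm T) {t : ℝ} (h0 : 0 ≤ t) (h1 : t < 1) :
    Function.Injective (relax T t) := by
  intro x y hxy
  have h := hT.relax_ge h0 h1.le x y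
  rw [hxy, sub_self, norm_zero] at h
  have h2 : ‖x - y‖ ≤ 0 := by
    by_contra h3
    push Not at h3
    have : 0 < (1 - t) * ‖x - y‖ := mul_pos (by linarith) h3
    linarith
  exact sub_eq_zero.1 (norm_le_zero_iff.1 h2)

lemma Firm.continuous_relax {T : V → V} (hT : Firm T) {t : ℝ} (h0 : 0 ≤ t) (h1 : t ≤ 1) :
    Continuous (relax T t) := by
  have : LipschitzWith 1 (relax T t) := LipschitzWith.of_dist_le_mul fun x y => by
    rw [dist_eq_norm, dist_eq_norm, NNReal.coe_one, one_mul]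
    exact hT.relax_nonexp h0 h1 x y
  exact this.continuous

/-- `U` is preserved by the relaxations of `T`. -/
def Pres (U : Set V) (T : V → V) : Prop := ∀ t : ℝ, 0 ≤ t → t < 1 → ∀ x ∈ U, relax T t x ∈ U

/-- The relaxation as a self map of `U`. -/
def relaxC (T : V → V) (hT : Firm T) (hU : Pres U T) {t : ℝ} (h0 : 0 ≤ t) (h1 : t < 1) :
    C(U, U) where
  toFun x := ⟨relax T t x, hU t h0 h1 x x.2⟩
  continuous_toFun := Continuous.subtype_mk
    ((hT.continuous_relax h0 h1.le).comp continuous_subtype_val) _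

@[simp] lemma relaxC_coe (T : V → V) (hT : Firm T) (hU : Pres U T) {t : ℝ} (h0 : 0 ≤ t)
    (h1 : t < 1) (x : U) : ((relaxC T hT hU h0 h1 x : U) : V) = relax T t x := rfl

lemma mem_segment_relax (T : V → V) {s t : ℝ} (h0 : 0 ≤ s) (hst : s ≤ t) (x : V) :
    relax T s x ∈ segment ℝ x (relax T t x) := by
  rcases eq_or_lt_of_le (h0.trans hst) with h | h
  · have : s = 0 := le_antisymm (by linarith) h0
    subst this
    rw [relax_zero]; exact left_mem_segment ℝ _ _
  · refine ⟨1 - s/t, s/t, ?_, by positivity, by ring, ?_⟩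
    · rw [sub_nonneg, div_le_one h]; exact hst
    · unfold relax
      have : s = s / t * t := by field_simp
      nth_rewrite 4 [this]
      nth_rewrite 3 [this]
      module

lemma relax_of_mem_segment (T : V → V) {t : ℝ} (h0 : 0 ≤ t) (x z : V)
    (hz : z ∈ segment ℝ x (relax T t x)) : ∃ s, 0 ≤ s ∧ s ≤ t ∧ z = relax T s x := by
  obtain ⟨a, b, ha, hb, hab, rfl⟩ := hz
  refine ⟨b * t, by positivity, ?_, ?_⟩
  · have : b ≤ 1 := by linarith
    nlinarith
  · unfold relax
    have : a = 1 - b := by linarith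
    subst this
    module

lemma relax_segment_subset {T : V → V} (hU : Pres U T) {t : ℝ} (h0 : 0 ≤ t) (h1 : t < 1) (x : U) :
    segment ℝ (x:V) (relax T t x) ⊆ U := by
  intro z hz
  obtain ⟨s, hs0, hs1, rfl⟩ := relax_of_mem_segment T h0 _ _ hz
  exact hU s hs0 (lt_of_le_of_lt hs1 h1) x x.2

section
variable [LocConvex U] (T : V → V) (hT : Firm T) (hU : Pres U T)

/-- The lift of the relaxation to the covering. -/
def liftR (t : ℝ) (h0 : 0 ≤ t) (h1 : t < 1) (p : Cov U x₀) : Cov U x₀ :=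
  p.step (relaxC T hT hU h0 h1 p.pt) (relax_segment_subset hU h0 h1 p.pt)

lemma liftR_eq (t : ℝ) (h0 : 0 ≤ t) (h1 : t < 1) (p : Cov U x₀) :
    liftR T hT hU t h0 h1 p = p.map (relaxC T hT hU h0 h1)
      (.mk (seg (relax_segment_subset hU h0 h1 x₀))) :=
  step_straight (relaxC T hT hU h0 h1) (fun x => relax_segment_subset hU h0 h1 x) p

lemma liftR_step_local (t : ℝ) (h0 : 0 ≤ t) (h1 : t < 1) (x : U) : ∃ ε > 0,
    ∀ (p : Cov U x₀) (y : U) (h : segment ℝ (p.pt:V) y ⊆ U),
      dist (p.pt:V) x < ε → dist (y:V) x < ε →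
      dist (liftR T hT hU t h0 h1 p) (liftR T hT hU t h0 h1 (p.step y h)) ≤
        ‖relax T t p.pt - relax T t y‖ := by
  obtain ⟨ε, hε, hconv⟩ := LocConvex.exists_ball (U := U) (relax T t x) (hU t h0 h1 x x.2)
  refine ⟨ε, hε, fun p y h hp hy => ?_⟩
  have hb : ∀ z ∈ segment ℝ (p.pt:V) y, relax T t z ∈ U ∩ ball (relax T t (x:V)) ε := by
    intro z hz
    refine ⟨hU t h0 h1 z (h hz), ?_⟩
    rw [mem_ball, dist_eq_norm]
    refine lt_of_le_of_lt (hT.relax_nonexp h0 h1.le _ _) ?_
    have h3 : z ∈ ball (x:V) ε := (convex_ball (x:V) ε).segment_subset hp hy hz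
    rwa [mem_ball, dist_eq_norm] at h3
  have hs' : segment ℝ ((relaxC T hT hU h0 h1 p.pt : U) : V) (relaxC T hT hU h0 h1 y : U) ⊆ U := by
    refine (hconv.segment_subset ?_ ?_).trans inter_subset_left
    · exact hb _ (left_mem_segment ℝ _ _)
    · exact hb _ (right_mem_segment ℝ _ _)
  rw [liftR_eq, liftR_eq, map_step _ _ p y h hs']
  · rw [← dist_eq_norm]
    exact dist_step_le _ _ _
  · apply homotopic_of_segment
    intro s
    refine (hconv.segment_subset ?_ ?_).trans inter_subset_left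
    · apply hb
      rw [segment_eq_image_lineMap]
      exact ⟨s, s.2, rfl⟩
    · refine hconv.segment_subset (hb _ (left_mem_segment ℝ _ _))
        (hb _ (right_mem_segment ℝ _ _)) ?_
      rw [segment_eq_image_lineMap]
      exact ⟨s, s.2, rfl⟩

/-- The displacement of `T`. -/
def disp (T : V → V) (x y : V) : ℝ := ‖(x - T x) - (y - T y)‖

lemma disp_triangle (T : V → V) (x y z : V) : disp T x z ≤ disp T x y + disp T y z := by
  unfold disp
  have : (x - T x) - (z - T z) = ((x - T x) - (y - T y)) + ((y - T y) - (z - T z)) := by abel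
  rw [this]
  exact norm_add_le _ _

theorem liftR_firm (t : ℝ) (h0 : 0 ≤ t) (h1 : t < 1) (p q : Cov U x₀) :
    dist (liftR T hT hU t h0 h1 p) (liftR T hT hU t h0 h1 q) ^ 2 +
      (2 * t - t^2) * disp T p.pt q.pt ^ 2 ≤ dist p q ^ 2 := by
  have hκ : 0 ≤ 2 * t - t^2 := by nlinarith
  set κ := √(2 * t - t^2) with hκdef
  have hκ0 : 0 ≤ κ := Real.sqrt_nonneg _
  have hκ2 : κ ^ 2 = 2 * t - t^2 := Real.sq_sqrt hκ
  have key := le_dist_of_local (fun p q : Cov U x₀ =>
    √(dist (liftR T hT hU t h0 h1 p) (liftR T hT hU t h0 h1 q) ^ 2 +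
      (κ * disp T p.pt q.pt) ^ 2)) 1 zero_le_one (by
        intro p
        simp [disp]) (by
        intro p q r
        have h2 : dist (liftR T hT hU t h0 h1 p) (liftR T hT hU t h0 h1 r) ≤
          dist (liftR T hT hU t h0 h1 p) (liftR T hT hU t h0 h1 q) +
          dist (liftR T hT hU t h0 h1 q) (liftR T hT hU t h0 h1 r) := dist_triangle _ _ _
        have h3 : κ * disp T p.pt r.pt ≤ κ * disp T p.pt q.pt + κ * disp T q.pt r.pt := by
          rw [← mul_add]
          exact mul_le_mul_of_nonneg_left (disp_triangle T _ _ _) hκ0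
        refine le_trans (Real.sqrt_le_sqrt ?_) (minkowski_sq _ _ _ _ dist_nonneg
          (mul_nonneg hκ0 (norm_nonneg _)) dist_nonneg (mul_nonneg hκ0 (norm_nonneg _)))
        have h4 : 0 ≤ κ * disp T p.pt r.pt := mul_nonneg hκ0 (norm_nonneg _)
        apply add_le_add
        · exact pow_le_pow_left₀ dist_nonneg h2 2
        · exact pow_le_pow_left₀ h4 h3 2) (by
        intro x
        obtain ⟨ε, hε, hloc⟩ := liftR_step_local (x₀ := x₀) T hT hU t h0 h1 x
        refine ⟨ε, hε, fun p y h hp hy => ?_⟩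
        have h2 := hloc p y h hp hy
        rw [one_mul]
        apply Real.sqrt_le_iff.2
        refine ⟨dist_nonneg, ?_⟩
        have h3 := hT.relax_le h0 h1.le p.pt y
        rw [mul_pow, hκ2]
        have h4 := pow_le_pow_left₀ dist_nonneg h2 2
        rw [dist_eq_norm]
        simp only [step_pt]
        unfold disp
        linarith) p q
  rw [one_mul] at key
  have h5 := pow_le_pow_left₀ (Real.sqrt_nonneg _) key 2
  rw [Real.sq_sqrt (by positivity), mul_pow, hκ2] at h5
  exact h5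

lemma dist_liftR (t : ℝ) (h0 : 0 ≤ t) (h1 : t < 1) (p : Cov U x₀) :
    dist p (liftR T hT hU t h0 h1 p) = t * ‖(p.pt:V) - T p.pt‖ := by
  unfold liftR
  rw [dist_step_eq, dist_eq_norm, relaxC_coe]
  have : (p.pt:V) - relax T t p.pt = t • ((p.pt:V) - T p.pt) := by unfold relax; module
  rw [this, norm_smul, Real.norm_eq_abs, abs_of_nonneg h0]

lemma dist_liftR_liftR (s t : ℝ) (h0 : 0 ≤ s) (hst : s ≤ t) (h1 : t < 1) (p : Cov U x₀) :
    dist (liftR T hT hU s h0 (lt_of_le_of_lt hst h1) p)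
      (liftR T hT hU t (h0.trans hst) h1 p) = (t - s) * ‖(p.pt:V) - T p.pt‖ := by
  have hseg : segment ℝ (relax T s (p.pt:V)) (relax T t p.pt) ⊆ U := by
    refine Subset.trans ?_ (relax_segment_subset hU (h0.trans hst) h1 p.pt)
    exact (convex_segment _ _).segment_subset (mem_segment_relax T h0 hst _)
      (right_mem_segment ℝ _ _)
  have h2 : (liftR T hT hU s h0 (lt_of_le_of_lt hst h1) p).step
      (relaxC T hT hU (h0.trans hst) h1 p.pt) hseg = liftR T hT hU t (h0.trans hst) h1 p := by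
    unfold liftR
    exact step_step p _ _ _ _ _ (mem_segment_relax T h0 hst _)
  rw [← h2, dist_step_eq, dist_eq_norm]
  have : ((liftR T hT hU s h0 (lt_of_le_of_lt hst h1) p).pt : V) -
      (relaxC T hT hU (h0.trans hst) h1 p.pt : U) = (t - s) • ((p.pt:V) - T p.pt) := by
    have e1 : ((liftR T hT hU s h0 (lt_of_le_of_lt hst h1) p).pt : V) = relax T s p.pt := rfl
    rw [e1, relaxC_coe]
    unfold relax; module
  rw [this, norm_smul, Real.norm_eq_abs, abs_of_nonneg (by linarith)]

/-- Times tending to `1`. -/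
def tk (k : ℕ) : ℝ := 1 - 1 / ((k:ℝ) + 1)

lemma tk_nonneg (k : ℕ) : 0 ≤ tk k := by
  unfold tk
  rw [sub_nonneg, div_le_one (by positivity)]
  linarith [(Nat.cast_nonneg k : (0:ℝ) ≤ k)]

lemma tk_lt (k : ℕ) : tk k < 1 := by
  unfold tk
  have : 0 < 1 / ((k:ℝ) + 1) := by positivity
  linarith

lemma tk_mono {j k : ℕ} (h : j ≤ k) : tk j ≤ tk k := by
  unfold tk
  have : 1 / ((k:ℝ) + 1) ≤ 1 / ((j:ℝ) + 1) := by
    apply one_div_le_one_div_of_le (by positivity)
    have : (j:ℝ) ≤ k := by exact_mod_cast h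
    linarith
  linarith

lemma tendsto_tk : Tendsto tk atTop (𝓝 1) := by
  have : Tendsto (fun k : ℕ => 1 - 1 / ((k:ℝ) + 1)) atTop (𝓝 (1 - 0)) :=
    tendsto_const_nhds.sub tendsto_one_div_add_atTop_nhds_zero_nat
  rw [sub_zero] at this
  exact this

/-- The sequence of lifts of the relaxations at times `tk k`. -/
def liftSeq (p : Cov U x₀) (k : ℕ) : Ram x₀ :=
  ((liftR T hT hU (tk k) (tk_nonneg k) (tk_lt k) p : Cov U x₀) : Ram x₀)

lemma cauchySeq_liftSeq (p : Cov U x₀) : CauchySeq (liftSeq T hT hU p) := by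
  refine cauchySeq_of_le_tendsto_0 (fun N => (1 - tk N) * ‖(p.pt:V) - T p.pt‖) ?_ ?_
  · have key : ∀ n m N : ℕ, N ≤ n → N ≤ m → n ≤ m →
        dist (liftSeq T hT hU p n) (liftSeq T hT hU p m) ≤
          (1 - tk N) * ‖(p.pt:V) - T p.pt‖ := by
      intro n m N hn _ hnm
      unfold liftSeq
      rw [Completion.dist_eq, dist_liftR_liftR T hT hU _ _ (tk_nonneg n) (tk_mono hnm) (tk_lt m)]
      apply mul_le_mul_of_nonneg_right _ (norm_nonneg _)
      have := tk_mono hn
      have := tk_lt m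
      linarith
    intro n m N hn hm
    rcases le_total n m with h | h
    · exact key n m N hn hm h
    · rw [dist_comm]; exact key m n N hm hn h
  · have : Tendsto (fun N : ℕ => (1 - tk N) * ‖(p.pt:V) - T p.pt‖) atTop
        (𝓝 ((1 - 1) * ‖(p.pt:V) - T p.pt‖)) :=
      (tendsto_const_nhds.sub tendsto_tk).mul tendsto_const_nhds
    simpa using this

/-- The limit of the lifts. -/
def lift0 (p : Cov U x₀) : Ram x₀ :=
  Classical.choose (cauchySeq_tendsto_of_complete (cauchySeq_liftSeq T hT hU p))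

lemma tendsto_lift0 (p : Cov U x₀) :
    Tendsto (liftSeq T hT hU p) atTop (𝓝 (lift0 T hT hU p)) :=
  Classical.choose_spec (cauchySeq_tendsto_of_complete (cauchySeq_liftSeq T hT hU p))

lemma lift0_firm (p q : Cov U x₀) :
    dist (lift0 T hT hU p) (lift0 T hT hU q) ^ 2 + disp T p.pt q.pt ^ 2 ≤ dist p q ^ 2 := by
  have h1 : Tendsto (fun k => dist (liftSeq T hT hU p k) (liftSeq T hT hU q k) ^ 2 +
      (2 * tk k - tk k^2) * disp T p.pt q.pt ^ 2) atTop
      (𝓝 (dist (lift0 T hT hU p) (lift0 T hT hU q) ^ 2 +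
        (2 * 1 - 1^2) * disp T p.pt q.pt ^ 2)) :=
    (((tendsto_lift0 T hT hU p).dist (tendsto_lift0 T hT hU q)).pow 2).add
      (((tendsto_const_nhds.mul tendsto_tk).sub (tendsto_tk.pow 2)).mul tendsto_const_nhds)
  have h2 := le_of_tendsto' h1 (b := dist p q ^ 2) (fun k => by
    unfold liftSeq
    rw [Completion.dist_eq]
    exact liftR_firm T hT hU (tk k) (tk_nonneg k) (tk_lt k) p q)
  linarith

lemma dist_lift0_le (p : Cov U x₀) : dist (p : Ram x₀) (lift0 T hT hU p) ≤
    ‖(p.pt:V) - T p.pt‖ := by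
  have h1 : Tendsto (fun k => dist (p : Ram x₀) (liftSeq T hT hU p k)) atTop
      (𝓝 (dist (p : Ram x₀) (lift0 T hT hU p))) :=
    tendsto_const_nhds.dist (tendsto_lift0 T hT hU p)
  refine le_of_tendsto' h1 (fun k => ?_)
  unfold liftSeq
  rw [Completion.dist_eq, dist_liftR]
  have := tk_lt k
  have h3 := norm_nonneg ((p.pt:V) - T p.pt)
  nlinarith [tk_nonneg k]

lemma Firm.continuous {T : V → V} (hT : Firm T) : Continuous T := by
  have h := hT.continuous_relax zero_le_one le_rfl
  have h2 : relax T 1 = T := by ext x; exact relax_one T x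
  rwa [h2] at h

lemma proj_lift0 (p : Cov U x₀) : proj (lift0 T hT hU p) = T p.pt := by
  have h1 : Tendsto (fun k => proj (liftSeq T hT hU p k)) atTop
      (𝓝 (proj (lift0 T hT hU p))) :=
    (lipschitz_proj.continuous.tendsto _).comp (tendsto_lift0 T hT hU p)
  have h2 : Tendsto (fun k => proj (liftSeq T hT hU p k)) atTop (𝓝 (T p.pt)) := by
    have h3 : ∀ k, proj (liftSeq T hT hU p k) = (1 - tk k) • (p.pt:V) + tk k • T p.pt := by
      intro k
      unfold liftSeq
      rw [proj_coe]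
      rfl
    simp_rw [h3]
    have h4 : Tendsto (fun k => (1 - tk k) • (p.pt:V) + tk k • T p.pt) atTop
        (𝓝 ((1 - 1 : ℝ) • (p.pt:V) + (1:ℝ) • T p.pt)) :=
      ((tendsto_const_nhds.sub tendsto_tk).smul tendsto_const_nhds).add
        (tendsto_tk.smul tendsto_const_nhds)
    simpa using h4
  exact tendsto_nhds_unique h1 h2

lemma lipschitz_lift0 : LipschitzWith 1 (lift0 (x₀ := x₀) T hT hU) :=
  LipschitzWith.of_dist_le_mul fun p q => by
    rw [NNReal.coe_one, one_mul]
    have h := lift0_firm T hT hU p q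
    exact (sq_le_sq₀ dist_nonneg dist_nonneg).1 (by nlinarith [sq_nonneg (disp T p.pt q.pt)])

/-- The lift of a firmly nonexpansive map to the ramified covering. -/
def lift : Ram x₀ → Ram x₀ := Completion.extension (lift0 T hT hU)

lemma lift_coe (p : Cov U x₀) : lift T hT hU (p : Ram x₀) = lift0 T hT hU p :=
  Completion.extension_coe (lipschitz_lift0 T hT hU).uniformContinuous p

lemma lipschitz_lift : LipschitzWith 1 (lift (x₀ := x₀) T hT hU) :=
  (lipschitz_lift0 T hT hU).completion_extension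

lemma continuous_proj : Continuous (proj (x₀ := x₀)) := lipschitz_proj.continuous

theorem lift_firm (P Q : Ram x₀) : dist (lift T hT hU P) (lift T hT hU Q) ^ 2 +
    ‖(proj P - T (proj P)) - (proj Q - T (proj Q))‖ ^ 2 ≤ dist P Q ^ 2 := by
  have hc1 := (lipschitz_lift (x₀ := x₀) T hT hU).continuous
  have hc2 := continuous_proj (x₀ := x₀)
  have hc3 := hT.continuous
  refine Completion.induction_on₂ P Q (isClosed_le ?_ ?_) fun p q => ?_
  · fun_prop
  · fun_prop
  · rw [lift_coe, lift_coe, proj_coe, proj_coe, Completion.dist_eq]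
    exact lift0_firm T hT hU p q

theorem proj_lift (P : Ram x₀) : proj (lift T hT hU P) = T (proj P) := by
  have hc1 := (lipschitz_lift (x₀ := x₀) T hT hU).continuous
  have hc2 := continuous_proj (x₀ := x₀)
  have hc3 := hT.continuous
  refine Completion.induction_on P (isClosed_eq ?_ ?_) fun p => ?_
  · fun_prop
  · fun_prop
  · rw [lift_coe, proj_coe]
    exact proj_lift0 T hT hU p

theorem dist_lift_le (P : Ram x₀) : dist P (lift T hT hU P) ≤ ‖proj P - T (proj P)‖ := by
  have hc1 := (lipschitz_lift (x₀ := x₀) T hT hU).continuous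
  have hc2 := continuous_proj (x₀ := x₀)
  have hc3 := hT.continuous
  refine Completion.induction_on P (isClosed_le ?_ ?_) fun p => ?_
  · fun_prop
  · fun_prop
  · rw [lift_coe, proj_coe]
    exact dist_lift0_le T hT hU p

theorem lift_eq_self {P : Ram x₀} (h : T (proj P) = proj P) : lift T hT hU P = P := by
  have := dist_lift_le T hT hU P
  rw [h, sub_self, norm_zero] at this
  exact (dist_le_zero.1 this).symm

end

end Pool.Agent.BR49
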