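import Pool.Agent.BR49.Conf
import Pool.Agent.BR49.Choice

/-!
# Strata
-/

open Set Metric unitInterval Topology UniformSpace Filter
open scoped ENNReal NNReal

set_option linter.unusedSectionVars false
set_option linter.unusedVariables false

noncomputable section

namespace Pool.Agent.BR49

variable {n : ℕ}

/-- The open stratum: `z_i = z_j` if `r i j`, and `z_i ≠ z_j` if `R i j` but not `r i j`. -/
def ER (R r : Setoid (Fin n)) : Set (E n) :=
  {z | ∀ i j, (r i j → z i = z j) ∧ (R i j → ¬ r i j → z i ≠ z j)}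

instance locConvex_ER (R r : Setoid (Fin n)) : LocConvex (ER R r) := by
  set O : Set (E n) := {z | ∀ i j, R i j → ¬ r i j → z i ≠ z j} with hO
  have hopen : IsOpen O := by
    have : O = ⋂ (i : Fin n), ⋂ (j : Fin n), {z : E n | R i j → ¬ r i j → z i ≠ z j} := by
      ext z; simp [hO]
    rw [this]
    refine isOpen_iInter_of_finite fun i => isOpen_iInter_of_finite fun j => ?_
    by_cases h1 : R i j
    · by_cases h2 : r i j
      · simp [h2]
      · simp only [h1, h2, ne_eq, not_false_eq_true, forall_const]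
        exact isOpen_ne_fun (by fun_prop) (by fun_prop)
    · simp [h1]
  set L : Set (E n) := {z | ∀ i j, r i j → z i = z j} with hL
  have hconv : Convex ℝ L := by
    intro x hx y hy a b _ _ _ i j hij
    simp [hx i j hij, hy i j hij]
  have hEq : ER R r = L ∩ O := by
    ext z
    simp only [ER, hL, hO, mem_setOf_eq, mem_inter_iff]
    constructor
    · intro h; exact ⟨fun i j => (h i j).1, fun i j => (h i j).2⟩
    · intro h i j; exact ⟨h.1 i j, h.2 i j⟩
  refine ⟨fun x hx => ?_⟩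
  rw [hEq] at hx ⊢
  obtain ⟨ε, hε, hb⟩ := Metric.isOpen_iff.1 hopen x hx.2
  refine ⟨ε, hε, ?_⟩
  rw [inter_assoc, inter_eq_right.2 hb]
  exact hconv.inter (convex_ball x ε)

/-- Auxiliary function for the gap. -/
def gapF (R r : Setoid (Fin n)) (w : E n) : Option (Fin n × Fin n) → ℝ
  | none => 1
  | some (i, j) => open Classical in if R i j ∧ ¬ r i j then ‖w i - w j‖ else 1

/-- The gap of a configuration. -/
def gap (R r : Setoid (Fin n)) (w : E n) : ℝ := ⨅ k, gapF R r w k

lemma gap_le (R r : Setoid (Fin n)) (w : E n) (k) : gap R r w ≤ gapF R r w k :=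
  ciInf_le (Set.finite_range _).bddBelow k

lemma gap_le_norm (R r : Setoid (Fin n)) (w : E n) {i j : Fin n} (h : R i j) (h' : ¬ r i j) :
    gap R r w ≤ ‖w i - w j‖ := by
  have := gap_le R r w (some (i, j))
  simpa [gapF, h, h'] using this

lemma gap_pos (R r : Setoid (Fin n)) {w : E n} (hw : w ∈ ER R r) : 0 < gap R r w := by
  obtain ⟨k, hk⟩ := Finite.exists_min (gapF R r w)
  have h1 : gapF R r w k ≤ gap R r w := le_ciInf hk
  refine lt_of_lt_of_le ?_ h1
  rcases k with _ | ⟨i, j⟩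
  · simp [gapF]
  · simp only [gapF]
    split_ifs with h
    · rw [norm_pos_iff, sub_ne_zero]
      exact (hw i j).2 h.1 h.2
    · exact one_pos

lemma norm_apply_le (w : E n) (i : Fin n) : ‖w i‖ ≤ ‖w‖ := by
  have := PiLp.norm_apply_le w i
  exact this

lemma norm_sub_apply_le (w : E n) (i j : Fin n) : ‖w i - w j‖ ≤ 2 * ‖w‖ := by
  have h1 := norm_apply_le w i
  have h2 := norm_apply_le w j
  have := norm_sub_le (w i) (w j)
  linarith

lemma gap_lipschitz (R r : Setoid (Fin n)) (w w' : E n) :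
    gap R r w - gap R r w' ≤ 2 * ‖w - w'‖ := by
  have : gap R r w - 2 * ‖w - w'‖ ≤ gap R r w' := by
    apply le_ciInf
    intro k
    have h1 := gap_le R r w k
    rcases k with _ | ⟨i, j⟩
    · simp only [gapF] at h1 ⊢
      have := norm_nonneg (w - w')
      linarith
    · simp only [gapF] at h1 ⊢
      split_ifs at h1 ⊢ with h
      · have h3 := norm_sub_apply_le (w - w') i j
        have h4 : w i - w j = (w' i - w' j) + ((w - w') i - (w - w') j) := by
          simp only [PiLp.sub_apply]; ring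
        have h5 : ‖w i - w j‖ ≤ ‖w' i - w' j‖ + ‖(w - w') i - (w - w') j‖ := by
          rw [h4]; exact norm_add_le _ _
        linarith
      · have := norm_nonneg (w - w')
        linarith
  linarith

lemma abs_gap_sub_le (R r : Setoid (Fin n)) (w w' : E n) :
    |gap R r w - gap R r w'| ≤ 2 * ‖w - w'‖ := by
  rw [abs_le]
  constructor
  · have := gap_lipschitz R r w' w
    rw [norm_sub_rev] at this
    linarith
  · exact gap_lipschitz R r w w'

/-- Offsets leading from the stratum of `r` to the one of `r'`. -/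
def Off (R r r' : Setoid (Fin n)) (v : E n) : Prop :=
  (∀ i j, r' i j → v i = v j) ∧ (∀ i j, R i j → r i j → ¬ r' i j → v i ≠ v j)

lemma Off.smul {R r r' : Setoid (Fin n)} {v : E n} (h : Off R r r' v) {c : ℝ} (hc : 0 < c) :
    Off R r r' (c • v) := by
  refine ⟨fun i j hij => ?_, fun i j h1 h2 h3 => ?_⟩
  · simp [h.1 i j hij]
  · have := h.2 i j h1 h2 h3
    simp only [PiLp.smul_apply, Complex.real_smul]
    intro h4
    apply this
    have hc' : (c : ℂ) ≠ 0 := by exact_mod_cast hc.ne'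
    exact mul_left_cancel₀ hc' h4

lemma off_sub {R r r' : Setoid (Fin n)} (hr : r' ≤ r) {x y : E n} (hx : x ∈ ER R r')
    (hy : y ∈ ER R r) : Off R r r' (x - y) := by
  refine ⟨fun i j hij => ?_, fun i j h1 h2 h3 => ?_⟩
  · simp [(hx i j).1 hij, (hy i j).1 (hr hij)]
  · have := (hx i j).2 h1 h3
    simp only [PiLp.sub_apply, (hy i j).1 h2]
    intro h4
    exact this (sub_left_injective h4)

lemma add_off_mem {R r r' : Setoid (Fin n)} (hr : r' ≤ r) {w v : E n} (hw : w ∈ ER R r)
    (hv : Off R r r' v) (hn : 2 * ‖v‖ < gap R r w) : w + v ∈ ER R r' := by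
  intro i j
  refine ⟨fun hij => ?_, fun h1 h2 => ?_⟩
  · simp [(hw i j).1 (hr hij), hv.1 i j hij]
  · by_cases h3 : r i j
    · simp only [PiLp.add_apply, (hw i j).1 h3]
      intro h4
      exact hv.2 i j h1 h3 h2 (add_right_injective _ h4)
    · intro h4
      have h5 := gap_le_norm R r w h1 h3
      have h6 := norm_sub_apply_le v i j
      have h7 : w i - w j = -(v i - v j) := by
        simp only [PiLp.add_apply] at h4
        linear_combination h4
      rw [h7, norm_neg] at h5
      linarith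

section contraction

variable {R r r' : Setoid (Fin n)} (hr : r' ≤ r) (y₀ : ER R r)

/-- Contraction towards `y₀`. -/
def contr (y : E n) (s : ℝ) (x : E n) : E n := y + s • (x - y)

lemma contr_mem (hr : r' ≤ r) {y : E n} (hy : y ∈ ER R r) {x : E n} (hx : x ∈ ER R r')
    (hn : 2 * ‖x - y‖ < gap R r y) {s : ℝ} (hs : 0 < s) (hs1 : s ≤ 1) :
    contr y s x ∈ ER R r' := by
  apply add_off_mem hr hy ((off_sub hr hx hy).smul hs)
  rw [norm_smul, Real.norm_eq_abs, abs_of_pos hs]
  have := norm_nonneg (x - y)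
  nlinarith

lemma mem_segment_contr (y x : E n) {s s' : ℝ} (h1 : s ≤ s') (h2 : s' ≤ 1) :
    contr y s' x ∈ segment ℝ x (contr y s x) := by
  rcases eq_or_lt_of_le (h1.trans h2) with h | h
  · have : s' = 1 := le_antisymm h2 (by linarith)
    subst this
    have : contr y 1 x = x := by simp [contr]
    rw [this]; exact left_mem_segment ℝ _ _
  · refine ⟨(s' - s)/(1 - s), (1 - s')/(1 - s), div_nonneg (by linarith) (by linarith),
      div_nonneg (by linarith) (by linarith), ?_, ?_⟩
    · field_simp; ring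
    · unfold contr
      have e : s' = (s' - s)/(1 - s) + (1 - s')/(1 - s) * s := by
        have : 1 - s ≠ 0 := by linarith
        field_simp; ring
      have e2 : (1:ℝ) = (s' - s)/(1 - s) + (1 - s')/(1 - s) := by
        have : 1 - s ≠ 0 := by linarith
        field_simp; ring
      generalize (s' - s)/(1 - s) = a at *
      generalize (1 - s')/(1 - s) = b at *
      have hb : b = 1 - a := by linarith
      subst hb
      subst e
      module

lemma contr_of_mem_segment (y x z : E n) {s : ℝ} (h1 : s ≤ 1)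
    (hz : z ∈ segment ℝ x (contr y s x)) : ∃ s', s ≤ s' ∧ s' ≤ 1 ∧ z = contr y s' x := by
  obtain ⟨a, b, ha, hb, hab, rfl⟩ := hz
  refine ⟨a + b * s, ?_, ?_, ?_⟩
  · nlinarith
  · nlinarith
  · unfold contr
    have : b = 1 - a := by linarith
    subst this
    module

lemma contr_segment_subset (hr : r' ≤ r) {y : E n} (hy : y ∈ ER R r) {x : E n}
    (hx : x ∈ ER R r') (hn : 2 * ‖x - y‖ < gap R r y) {s : ℝ} (hs : 0 < s) (hs1 : s ≤ 1) :
    segment ℝ x (contr y s x) ⊆ ER R r' := by
  intro z hz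
  obtain ⟨s', h1, h2, rfl⟩ := contr_of_mem_segment y x z hs1 hz
  exact contr_mem hr hy hx hn (lt_of_lt_of_le hs h1) h2

variable {x₀ : ER R r'}

/-- Radial motion towards `y₀`. -/
def rad (p : Cov (ER R r') x₀) (hp : 2 * ‖(p.pt:E n) - y₀‖ < gap R r y₀) (s : ℝ) (hs : 0 < s)
    (hs1 : s ≤ 1) : Cov (ER R r') x₀ :=
  p.step ⟨contr y₀ s p.pt, contr_mem hr y₀.2 p.pt.2 hp hs hs1⟩
    (contr_segment_subset hr y₀.2 p.pt.2 hp hs hs1)

lemma dist_rad (p : Cov (ER R r') x₀) (hp : 2 * ‖(p.pt:E n) - y₀‖ < gap R r y₀) (s : ℝ)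
    (hs : 0 < s) (hs1 : s ≤ 1) :
    dist p (rad hr y₀ p hp s hs hs1) = (1 - s) * ‖(p.pt:E n) - y₀‖ := by
  unfold rad
  rw [dist_step_eq, dist_eq_norm]
  have : (p.pt:E n) - contr (y₀:E n) s (p.pt:E n) = (1 - s) • ((p.pt:E n) - (y₀:E n)) := by
    unfold contr; module
  simp only
  rw [this, norm_smul, Real.norm_eq_abs, abs_of_nonneg (by linarith)]

lemma rad_rad (p : Cov (ER R r') x₀) (hp : 2 * ‖(p.pt:E n) - y₀‖ < gap R r y₀) {s t : ℝ}
    (hs : 0 < s) (hst : s ≤ t) (ht1 : t ≤ 1) :
    ∃ h, (rad hr y₀ p hp t (hs.trans_le hst) ht1).step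
      (rad hr y₀ p hp s hs (hst.trans ht1)).pt h = rad hr y₀ p hp s hs (hst.trans ht1) := by
  have hseg : segment ℝ (contr y₀ t (p.pt:E n)) (contr y₀ s p.pt) ⊆ ER R r' := by
    refine Subset.trans ?_ (contr_segment_subset hr y₀.2 p.pt.2 hp hs (hst.trans ht1))
    exact (convex_segment _ _).segment_subset (mem_segment_contr _ _ hst ht1)
      (right_mem_segment ℝ _ _)
  exact ⟨hseg, step_step p _ _ _ _ _ (mem_segment_contr _ _ hst ht1)⟩

/-- The ball around `y₀` in the stratum of `r'`. -/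
def Ub (R r r' : Setoid (Fin n)) (y₀ : E n) : Set (E n) :=
  {x | x ∈ ER R r' ∧ 2 * ‖x - y₀‖ < gap R r y₀}

/-- The contraction as a map on the ball. -/
def contrC (s : ℝ) (hs : 0 < s) (hs1 : s ≤ 1) : C(Ub R r r' y₀, ER R r') :=
  ⟨fun x => ⟨contr y₀ s x, contr_mem hr y₀.2 x.2.1 x.2.2 hs hs1⟩,
    Continuous.subtype_mk (by unfold contr; fun_prop) _⟩

lemma contrC_coe (s : ℝ) (hs : 0 < s) (hs1 : s ≤ 1) (x : Ub R r r' y₀) :
    ((contrC hr y₀ s hs hs1 x : ER R r') : E n) = contr y₀ s x := rfl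

lemma dist_rad_rad_le (p q : Cov (ER R r') x₀) {η : ℝ}
    (hp : 2 * (‖(p.pt:E n) - y₀‖ + η) ≤ gap R r y₀) (hd : dist p q < η)
    (hp' : 2 * ‖(p.pt:E n) - y₀‖ < gap R r y₀) (hq' : 2 * ‖(q.pt:E n) - y₀‖ < gap R r y₀)
    (s : ℝ) (hs : 0 < s) (hs1 : s ≤ 1) :
    dist (rad hr y₀ p hp' s hs hs1) (rad hr y₀ q hq' s hs hs1) ≤ s * η := by
  have hη : 0 < η := lt_of_le_of_lt dist_nonneg hd
  have he : edist p q < ENNReal.ofReal η := by
    rw [edist_dist]
    exact (ENNReal.ofReal_lt_ofReal_iff hη).2 hd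
  obtain ⟨c, hc, hcl⟩ := exists_path_of_edist_lt he
  have hmem : ∀ t, ((c t : ER R r') : E n) ∈ Ub R r r' y₀ := by
    intro t
    refine ⟨(c t).2, ?_⟩
    have h1 : edist (p.pt : E n) (c t) ≤ plen c := by
      have := eVariationOn.edist_le (fun t : I => ((c t : ER R r') : E n)) (mem_univ 0)
        (mem_univ t)
      unfold plen
      simpa using this
    have h2 := h1.trans_lt hcl
    rw [edist_dist, ENNReal.ofReal_lt_ofReal_iff hη, dist_eq_norm] at h2
    have h3 : ((c t : ER R r') : E n) - y₀ =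
        ((p.pt : E n) - y₀) - ((p.pt : E n) - (c t : ER R r')) := by abel
    have h4 := norm_sub_le ((p.pt : E n) - y₀) ((p.pt : E n) - (c t : ER R r'))
    rw [← h3] at h4
    linarith
  have hpU : (p.pt : E n) ∈ Ub R r r' y₀ := ⟨p.pt.2, hp'⟩
  have hqU : (q.pt : E n) ∈ Ub R r r' y₀ := ⟨q.pt.2, hq'⟩
  have hK : ∀ x y : Ub R r r' y₀, edist ((contrC hr y₀ s hs hs1 x : ER R r') : E n)
      (contrC hr y₀ s hs hs1 y : ER R r') ≤ (s.toNNReal : ℝ≥0∞) * edist (x:E n) y := by
    intro x y
    have : ((contrC hr y₀ s hs hs1 x : ER R r') : E n) - (contrC hr y₀ s hs hs1 y : ER R r') =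
        s • ((x:E n) - y) := by
      simp only [contrC_coe]
      unfold contr; module
    rw [edist_dist, edist_dist, dist_eq_norm, this, norm_smul, Real.norm_eq_abs, abs_of_pos hs,
      ENNReal.ofReal_mul hs.le, dist_eq_norm]
    exact le_rfl
  have h5 := edist_step_step_le (fun x hx => hx.1) (contrC hr y₀ s hs hs1)
    (fun x => contr_segment_subset hr y₀.2 x.2.1 x.2.2 hs hs1) s.toNNReal hK p q c hc hmem
    hpU hqU
  have h8 : edist (rad hr y₀ p hp' s hs hs1) (rad hr y₀ q hq' s hs hs1) ≤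
      ENNReal.ofReal (s * η) := by
    refine h5.trans ?_
    rw [ENNReal.ofReal_mul hs.le]
    exact mul_le_mul_right hcl.le _
  rw [edist_dist] at h8
  exact (ENNReal.ofReal_le_ofReal_iff (by positivity)).1 h8

end contraction

end Pool.Agent.BR49
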