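import Pool.Agent.BR49.Strata

/-!
# Strata are isometrically embedded
-/

open Set Metric unitInterval Topology UniformSpace Filter
open scoped ENNReal NNReal

set_option linter.unusedSectionVars false
set_option linter.unusedVariables false

noncomputable section

namespace Pool.Agent.BR49

variable {n : ℕ} {R r r' : Setoid (Fin n)} (hr : r' ≤ r) (y₀ : ER R r) {x₀ : ER R r'}

lemma exists_rad (P₀ : Ram x₀) (h : proj P₀ = y₀) :
    ∃ (p : Cov (ER R r') x₀) (hp : 2 * ‖(p.pt:E n) - y₀‖ < gap R r y₀) (η : ℝ), 0 < η ∧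
      ∀ (s : ℝ) (hs : 0 < s) (hs1 : s ≤ 1),
        dist P₀ ((rad hr y₀ p hp s hs hs1 : Cov (ER R r') x₀) : Ram x₀) ≤ s * η := by
  have hg := gap_pos R r y₀.2
  set η := gap R r y₀ / 8 with hη
  have hη0 : 0 < η := by positivity
  obtain ⟨p, hp⟩ := Completion.denseRange_coe.exists_dist_lt P₀ (half_pos hη0)
  have hpn : ∀ (q : Cov (ER R r') x₀), ‖(q.pt:E n) - y₀‖ ≤ dist P₀ (q : Ram x₀) := by
    intro q
    have := dist_proj_le P₀ (q : Ram x₀)
    rw [h, proj_coe, dist_eq_norm, norm_sub_rev] at this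
    exact this
  have h1 := hpn p
  have hp' : 2 * ‖(p.pt:E n) - y₀‖ < gap R r y₀ := by linarith
  refine ⟨p, hp', η, hη0, fun s hs hs1 => ?_⟩
  refine le_of_forall_pos_le_add fun θ hθ => ?_
  set θ' := min (θ/2) (η/2) with hθ'
  have hθ'0 : 0 < θ' := lt_min (by positivity) (by positivity)
  have hθ'1 : θ' ≤ θ/2 := min_le_left _ _
  have hθ'2 : θ' ≤ η/2 := min_le_right _ _
  obtain ⟨q, hq⟩ := Completion.denseRange_coe.exists_dist_lt P₀ hθ'0
  have h2 := hpn q
  have hq' : 2 * ‖(q.pt:E n) - y₀‖ < gap R r y₀ := by linarith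
  have hpq : dist p q < η := by
    rw [← Completion.dist_eq]
    have := dist_triangle_left (p : Ram x₀) (q : Ram x₀) P₀
    linarith
  have h3 := dist_rad_rad_le hr y₀ p q (η := η) (by linarith) hpq hp' hq' s hs hs1
  have h4 := dist_rad hr y₀ q hq' s hs hs1
  have h5 : dist q (rad hr y₀ q hq' s hs hs1) ≤ ‖(q.pt:E n) - y₀‖ := by
    rw [h4]
    have := norm_nonneg ((q.pt:E n) - y₀)
    nlinarith
  have h6 : dist P₀ ((rad hr y₀ p hp' s hs hs1 : Cov (ER R r') x₀) : Ram x₀) ≤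
      dist P₀ (q : Ram x₀) + dist (q : Ram x₀) ((rad hr y₀ q hq' s hs hs1 : Cov (ER R r') x₀) : Ram x₀)
        + dist ((rad hr y₀ q hq' s hs hs1 : Cov (ER R r') x₀) : Ram x₀)
          ((rad hr y₀ p hp' s hs hs1 : Cov (ER R r') x₀) : Ram x₀) := dist_triangle4 _ _ _ _
  rw [Completion.dist_eq, Completion.dist_eq, dist_comm (rad hr y₀ q hq' s hs hs1)] at h6
  linarith

lemma continuous_gap : Continuous (gap R r : E n → ℝ) := by
  have : LipschitzWith 2 (gap R r : E n → ℝ) := LipschitzWith.of_dist_le_mul fun x y => by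
    rw [Real.dist_eq, dist_eq_norm]
    exact abs_gap_sub_le R r x y
  exact this.continuous

variable (u : E n) (hu : Off R r r' u) (hun : 2 * ‖u‖ < gap R r y₀)

lemma J_mem (hr : r' ≤ r) (hu : Off R r r' u) (hun : 2 * ‖u‖ < gap R r y₀) {w : E n}
    (hw : w ∈ ER R r) {s : ℝ} (hs : 0 < s) (hs1 : s ≤ 1) :
    w + (s * gap R r w / gap R r y₀) • u ∈ ER R r' := by
  have hg := gap_pos R r y₀.2
  have hgw := gap_pos R r hw
  apply add_off_mem hr hw (hu.smul (by positivity))
  rw [norm_smul, Real.norm_eq_abs, abs_of_pos (by positivity)]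
  have h1 : 2 * (s * gap R r w / gap R r y₀ * ‖u‖) =
      s * gap R r w * ((2 * ‖u‖) / gap R r y₀) := by ring
  rw [h1]
  have h2 : (2 * ‖u‖) / gap R r y₀ < 1 := (div_lt_one hg).2 hun
  have h3 : 0 ≤ (2 * ‖u‖) / gap R r y₀ := by positivity
  have h4 : s * gap R r w ≤ gap R r w := by nlinarith
  nlinarith

/-- The displaced stratum. -/
def J (hr : r' ≤ r) (hu : Off R r r' u) (hun : 2 * ‖u‖ < gap R r y₀) (s : ℝ) (hs : 0 < s)
    (hs1 : s ≤ 1) : C(ER R r, ER R r') :=
  ⟨fun w => ⟨w + (s * gap R r w / gap R r y₀) • u, J_mem y₀ u hr hu hun w.2 hs hs1⟩,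
    Continuous.subtype_mk (by
      have := continuous_gap (R := R) (r := r)
      fun_prop) _⟩

lemma J_coe (s : ℝ) (hs : 0 < s) (hs1 : s ≤ 1) (w : ER R r) :
    ((J y₀ u hr hu hun s hs hs1 w : ER R r') : E n) =
      w + (s * gap R r w / gap R r y₀) • u := rfl

lemma J_dist (s : ℝ) (hs : 0 < s) (hs1 : s ≤ 1) (w w' : ER R r) :
    dist ((J y₀ u hr hu hun s hs hs1 w : ER R r') : E n) (J y₀ u hr hu hun s hs hs1 w' : ER R r') ≤
      ((1 + s).toNNReal : ℝ≥0) * dist (w : E n) w' := by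
  have hg := gap_pos R r y₀.2
  rw [Real.coe_toNNReal _ (by positivity), J_coe, J_coe, dist_eq_norm, dist_eq_norm]
  have h1 : ((w:E n) + (s * gap R r w / gap R r y₀) • u) -
      ((w':E n) + (s * gap R r w' / gap R r y₀) • u) =
      ((w:E n) - w') + (s * (gap R r w - gap R r w') / gap R r y₀) • u := by
    rw [mul_sub, sub_div, sub_smul]; abel
  rw [h1]
  refine (norm_add_le _ _).trans ?_
  rw [norm_smul, Real.norm_eq_abs, abs_div, abs_mul, abs_of_pos hs, abs_of_pos hg]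
  have h2 := abs_gap_sub_le R r (w:E n) w'
  have h3 : s * |gap R r w - gap R r w'| / gap R r y₀ * ‖u‖ =
      s * |gap R r w - gap R r w'| * (‖u‖ / gap R r y₀) := by ring
  rw [h3]
  have h4 : ‖u‖ / gap R r y₀ ≤ 1/2 := by
    rw [div_le_iff₀ hg]; linarith
  have h5 : 0 ≤ ‖u‖ / gap R r y₀ := by positivity
  have h6 : s * |gap R r w - gap R r w'| * (‖u‖ / gap R r y₀) ≤
      s * (2 * ‖(w:E n) - w'‖) * (1/2) := by
    gcongr
  linarith

lemma J_segment (s t : ℝ) (hs : 0 < s) (hs1 : s ≤ 1) (ht : 0 < t) (ht1 : t ≤ 1) (w : ER R r) :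
    segment ℝ ((J y₀ u hr hu hun s hs hs1 w : ER R r') : E n)
      (J y₀ u hr hu hun t ht ht1 w : ER R r') ⊆ ER R r' := by
  rintro z ⟨a, b, ha, hb, hab, rfl⟩
  rw [J_coe, J_coe]
  have hc : 0 < a * s + b * t := by
    rcases eq_or_lt_of_le ha with h | h
    · have : b = 1 := by linarith
      subst this; rw [← h]; linarith
    · nlinarith [mul_pos h hs, mul_nonneg hb ht.le]
  have hc1 : a * s + b * t ≤ 1 := by nlinarith
  have : a • ((w:E n) + (s * gap R r w / gap R r y₀) • u) +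
      b • ((w:E n) + (t * gap R r w / gap R r y₀) • u) =
      w + ((a * s + b * t) * gap R r w / gap R r y₀) • u := by
    have hb' : b = 1 - a := by linarith
    subst hb'
    have e : ((a * s + (1-a) * t) * gap R r w / gap R r y₀) =
      a * (s * gap R r w / gap R r y₀) + (1 - a) * (t * gap R r w / gap R r y₀) := by ring
    rw [e]
    module
  rw [this]
  exact J_mem y₀ u hr hu hun w.2 hc hc1

end Pool.Agent.BR49
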