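import Pool.Agent.BR49.Strata2

/-!
# Strata are isometrically embedded: the embedding
-/

open Set Metric unitInterval Topology UniformSpace Filter
open scoped ENNReal NNReal

set_option linter.unusedSectionVars false
set_option linter.unusedVariables false

noncomputable section

namespace Pool.Agent.BR49

section
variable {V : Type*} [NormedAddCommGroup V] [NormedSpace ℝ V] {U : Set V} {x₀ : U}

lemma step_congr (p : Cov U x₀) {y y' : U} (h : y = y') (h1 : segment ℝ (p.pt:V) y ⊆ U)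
    (h2 : segment ℝ (p.pt:V) y' ⊆ U) : p.step y h1 = p.step y' h2 := by
  subst h; rfl

lemma map_base {V' : Type*} [NormedAddCommGroup V'] [NormedSpace ℝ V'] {U' : Set V'} {x₀' : U'}
    (f : C(U, U')) (h : Path.Homotopic.Quotient x₀' (f x₀)) :
    (⟨x₀, Path.Homotopic.Quotient.refl x₀⟩ : Cov U x₀).map f h = ⟨f x₀, h⟩ := by
  unfold Cov.map
  congr 1
  exact Path.Homotopic.Quotient.trans_refl h

lemma cls_step_step (p : Cov U x₀) (y z : U) (h : segment ℝ (p.pt:V) y ⊆ U)
    (h' : segment ℝ (y:V) z ⊆ U) (h'' : segment ℝ (p.pt:V) z ⊆ U)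
    (hy : (y:V) ∈ segment ℝ (p.pt:V) z) :
    (p.step y h).cls.trans (.mk (seg h')) = (p.step z h'').cls := by
  have := step_step p y z h h' h'' hy
  unfold Cov.step at this ⊢
  simp only [Cov.mk.injEq, heq_eq_eq, true_and] at this
  exact this

end

variable {n : ℕ} {R r r' : Setoid (Fin n)} (hr : r' ≤ r) (y₀ : ER R r) {x₀ : ER R r'}
  (u : E n) (hu : Off R r r' u) (hun : 2 * ‖u‖ < gap R r y₀)
  (p : Cov (ER R r') x₀) (hpu : (p.pt : E n) = y₀ + u)

lemma J_base (s : ℝ) (hs : 0 < s) (hs1 : s ≤ 1) :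
    ((J y₀ u hr hu hun s hs hs1 y₀ : ER R r') : E n) = y₀ + s • u := by
  have hg := gap_pos R r y₀.2
  rw [J_coe]
  congr 2
  field_simp

lemma bs_segment (hpu : (p.pt : E n) = y₀ + u) (s : ℝ) (hs : 0 < s) (hs1 : s ≤ 1) :
    segment ℝ (p.pt : E n) (J y₀ u hr hu hun s hs hs1 y₀ : ER R r') ⊆ ER R r' := by
  have h1 := J_segment hr y₀ u hu hun 1 s one_pos le_rfl hs hs1 y₀
  rw [J_base, one_smul] at h1
  rw [hpu]
  exact h1

/-- The base points of the displaced strata. -/
def bs (hpu : (p.pt : E n) = y₀ + u) (s : ℝ) (hs : 0 < s) (hs1 : s ≤ 1) : Cov (ER R r') x₀ :=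
  p.step (J y₀ u hr hu hun s hs hs1 y₀) (bs_segment hr y₀ u hu hun p hpu s hs hs1)

/-- The displaced embeddings. -/
def iota (hpu : (p.pt : E n) = y₀ + u) (s : ℝ) (hs : 0 < s) (hs1 : s ≤ 1)
    (q : Cov (ER R r) y₀) : Cov (ER R r') x₀ :=
  q.map (J y₀ u hr hu hun s hs hs1) (bs hr y₀ u hu hun p hpu s hs hs1).cls

lemma iota_pt (s : ℝ) (hs : 0 < s) (hs1 : s ≤ 1) (q : Cov (ER R r) y₀) :
    ((iota hr y₀ u hu hun p hpu s hs hs1 q).pt : E n) =
      q.pt + (s * gap R r q.pt / gap R r y₀) • u := rfl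

lemma iota_step {s t : ℝ} (ht : 0 < t) (hts : t ≤ s) (hs1 : s ≤ 1) (q : Cov (ER R r) y₀) :
    (iota hr y₀ u hu hun p hpu s (ht.trans_le hts) hs1 q).step
      (J y₀ u hr hu hun t ht (hts.trans hs1) q.pt)
      (J_segment hr y₀ u hu hun s t (ht.trans_le hts) hs1 ht (hts.trans hs1) q.pt) =
    iota hr y₀ u hu hun p hpu t ht (hts.trans hs1) q := by
  have h := map_step_straight (J y₀ u hr hu hun s (ht.trans_le hts) hs1)
    (J y₀ u hr hu hun t ht (hts.trans hs1))
    (J_segment hr y₀ u hu hun s t (ht.trans_le hts) hs1 ht (hts.trans hs1))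
    (bs hr y₀ u hu hun p hpu s (ht.trans_le hts) hs1).cls q
  unfold iota
  rw [h]
  congr 1
  unfold bs
  apply cls_step_step
  rw [J_base, J_base, hpu]
  rcases eq_or_lt_of_le hs1 with h1 | h1
  · rw [h1, one_smul]; exact left_mem_segment ℝ _ _
  · have h2 : 0 < 1 - t := by linarith
    refine ⟨(s - t)/(1 - t), (1 - s)/(1 - t), div_nonneg (by linarith) h2.le,
      div_nonneg (by linarith) h2.le, by field_simp; ring, ?_⟩
    have e : s = (s - t)/(1 - t) + (1 - s)/(1 - t) * t := by field_simp; ring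
    have e2 : (1 - s)/(1 - t) = 1 - (s - t)/(1 - t) := by field_simp; ring
    rw [e2] at e ⊢
    generalize (s - t)/(1 - t) = a at *
    rw [e]
    module

lemma dist_iota_iota {s t : ℝ} (ht : 0 < t) (hts : t ≤ s) (hs1 : s ≤ 1) (q : Cov (ER R r) y₀) :
    dist (iota hr y₀ u hu hun p hpu s (ht.trans_le hts) hs1 q)
      (iota hr y₀ u hu hun p hpu t ht (hts.trans hs1) q) =
      (s - t) * (gap R r q.pt / gap R r y₀ * ‖u‖) := by
  rw [← iota_step hr y₀ u hu hun p hpu ht hts hs1 q, dist_step_eq, dist_eq_norm, iota_pt, J_coe]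
  have hg := gap_pos R r y₀.2
  have hgq := gap_pos R r q.pt.2
  have : ((q.pt : E n) + (s * gap R r q.pt / gap R r y₀) • u) -
      (q.pt + (t * gap R r q.pt / gap R r y₀) • u) =
      ((s - t) * (gap R r q.pt / gap R r y₀)) • u := by
    have e : (s - t) * (gap R r q.pt / gap R r y₀) =
      (s * gap R r q.pt / gap R r y₀) - (t * gap R r q.pt / gap R r y₀) := by ring
    rw [e]; module
  rw [this, norm_smul, Real.norm_eq_abs, abs_of_nonneg (mul_nonneg (by linarith) (by positivity))]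
  ring

lemma dist_iota_le (s : ℝ) (hs : 0 < s) (hs1 : s ≤ 1) (q q' : Cov (ER R r) y₀) :
    dist (iota hr y₀ u hu hun p hpu s hs hs1 q) (iota hr y₀ u hu hun p hpu s hs hs1 q') ≤
      (1 + s) * dist q q' := by
  have h := dist_map_le (J y₀ u hr hu hun s hs hs1) (bs hr y₀ u hu hun p hpu s hs hs1).cls
    (1 + s).toNNReal (J_dist hr y₀ u hu hun s hs hs1) q q'
  rw [Real.coe_toNNReal _ (by positivity)] at h
  exact h

/-- The parameters `1/(k+1)`. -/
def sk (k : ℕ) : ℝ := 1 / ((k:ℝ) + 1)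
lemma sk_pos (k : ℕ) : 0 < sk k := by unfold sk; positivity
lemma sk_le (k : ℕ) : sk k ≤ 1 := by
  unfold sk; rw [div_le_one (by positivity)]; linarith [(Nat.cast_nonneg k : (0:ℝ) ≤ k)]
lemma sk_anti {j k : ℕ} (h : j ≤ k) : sk k ≤ sk j := by
  unfold sk
  apply one_div_le_one_div_of_le (by positivity)
  have : (j:ℝ) ≤ k := by exact_mod_cast h
  linarith
lemma tendsto_sk : Tendsto sk atTop (𝓝 0) := tendsto_one_div_add_atTop_nhds_zero_nat

/-- The sequence of displaced points. -/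
def iotaSeq (q : Cov (ER R r) y₀) (k : ℕ) : Ram x₀ :=
  ((iota hr y₀ u hu hun p hpu (sk k) (sk_pos k) (sk_le k) q : Cov (ER R r') x₀) : Ram x₀)

lemma dist_iotaSeq_le (q : Cov (ER R r) y₀) {k m N : ℕ} (hk : N ≤ k) (hm : N ≤ m) :
    dist (iotaSeq hr y₀ u hu hun p hpu q k) (iotaSeq hr y₀ u hu hun p hpu q m) ≤
      sk N * (gap R r q.pt / gap R r y₀ * ‖u‖) := by
  have hg := gap_pos R r y₀.2
  have hgq := gap_pos R r q.pt.2
  have key : ∀ k m : ℕ, N ≤ k → k ≤ m →
      dist (iotaSeq hr y₀ u hu hun p hpu q k) (iotaSeq hr y₀ u hu hun p hpu q m) ≤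
      sk N * (gap R r q.pt / gap R r y₀ * ‖u‖) := by
    intro k m hk hkm
    unfold iotaSeq
    rw [Completion.dist_eq, dist_iota_iota hr y₀ u hu hun p hpu (sk_pos m) (sk_anti hkm) (sk_le k)]
    apply mul_le_mul_of_nonneg_right _ (by positivity)
    have := sk_anti hk
    have := sk_pos m
    linarith
  rcases le_total k m with h | h
  · exact key k m hk h
  · rw [dist_comm]; exact key m k hm h

lemma cauchySeq_iotaSeq (q : Cov (ER R r) y₀) :
    CauchySeq (iotaSeq hr y₀ u hu hun p hpu q) := by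
  refine cauchySeq_of_le_tendsto_0 (fun N => sk N * (gap R r q.pt / gap R r y₀ * ‖u‖)) ?_ ?_
  · intro k m N hk hm
    exact dist_iotaSeq_le hr y₀ u hu hun p hpu q hk hm
  · have : Tendsto (fun N => sk N * (gap R r q.pt / gap R r y₀ * ‖u‖)) atTop
        (𝓝 (0 * (gap R r q.pt / gap R r y₀ * ‖u‖))) := tendsto_sk.mul tendsto_const_nhds
    simpa using this

/-- The limit of the displaced points. -/
def iota0 (q : Cov (ER R r) y₀) : Ram x₀ :=
  Classical.choose (cauchySeq_tendsto_of_complete (cauchySeq_iotaSeq hr y₀ u hu hun p hpu q))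

lemma tendsto_iota0 (q : Cov (ER R r) y₀) :
    Tendsto (iotaSeq hr y₀ u hu hun p hpu q) atTop (𝓝 (iota0 hr y₀ u hu hun p hpu q)) :=
  Classical.choose_spec (cauchySeq_tendsto_of_complete
    (cauchySeq_iotaSeq hr y₀ u hu hun p hpu q))

lemma dist_iota0_le (q q' : Cov (ER R r) y₀) :
    dist (iota0 hr y₀ u hu hun p hpu q) (iota0 hr y₀ u hu hun p hpu q') ≤ dist q q' := by
  have h1 := (tendsto_iota0 hr y₀ u hu hun p hpu q).dist (tendsto_iota0 hr y₀ u hu hun p hpu q')
  have h2 : Tendsto (fun k => (1 + sk k) * dist q q') atTop (𝓝 ((1 + 0) * dist q q')) :=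
    (tendsto_const_nhds.add tendsto_sk).mul tendsto_const_nhds
  rw [add_zero, one_mul] at h2
  refine le_of_tendsto_of_tendsto' h1 h2 fun k => ?_
  unfold iotaSeq
  rw [Completion.dist_eq]
  exact dist_iota_le hr y₀ u hu hun p hpu _ _ _ q q'

lemma proj_iota0 (q : Cov (ER R r) y₀) : proj (iota0 hr y₀ u hu hun p hpu q) = q.pt := by
  have h1 : Tendsto (fun k => proj (iotaSeq hr y₀ u hu hun p hpu q k)) atTop
      (𝓝 (proj (iota0 hr y₀ u hu hun p hpu q))) :=
    (lipschitz_proj.continuous.tendsto _).comp (tendsto_iota0 hr y₀ u hu hun p hpu q)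
  have h2 : Tendsto (fun k => proj (iotaSeq hr y₀ u hu hun p hpu q k)) atTop
      (𝓝 (q.pt : E n)) := by
    have h3 : ∀ k, proj (iotaSeq hr y₀ u hu hun p hpu q k) =
        q.pt + (sk k * gap R r q.pt / gap R r y₀) • u := by
      intro k
      unfold iotaSeq
      rw [proj_coe, iota_pt]
    simp_rw [h3]
    have h4 : Tendsto (fun k => (q.pt : E n) + (sk k * gap R r q.pt / gap R r y₀) • u) atTop
        (𝓝 ((q.pt : E n) + (0 * gap R r q.pt / gap R r y₀) • u)) :=
      tendsto_const_nhds.add (((tendsto_sk.mul tendsto_const_nhds).div_const _).smul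
        tendsto_const_nhds)
    simpa using h4
  exact tendsto_nhds_unique h1 h2

end Pool.Agent.BR49
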