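import Pool.Agent.BR49.Strata3

/-!
# Strata are isometrically embedded: the lower bound
-/

open Set Metric unitInterval Topology UniformSpace Filter
open scoped ENNReal NNReal

set_option linter.unusedSectionVars false
set_option linter.unusedVariables false

noncomputable section

namespace Pool.Agent.BR49

variable {n : ℕ}

/-- Select coordinates. -/
def sel (f : Fin n → Fin n) (z : E n) : E n := WithLp.toLp 2 (fun i => z (f i))

@[simp] lemma sel_apply (f : Fin n → Fin n) (z : E n) (i : Fin n) : sel f z i = z (f i) := rfl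

lemma sel_add (f : Fin n → Fin n) (z w : E n) : sel f (z + w) = sel f z + sel f w := by
  ext i; simp
lemma sel_sub (f : Fin n → Fin n) (z w : E n) : sel f (z - w) = sel f z - sel f w := by
  ext i; simp
lemma sel_smul (f : Fin n → Fin n) (c : ℝ) (z : E n) : sel f (c • z) = c • sel f z := by
  ext i; simp

lemma continuous_sel (f : Fin n → Fin n) : Continuous (sel f) := by
  unfold sel
  fun_prop

lemma norm_sel_sq (f : Fin n → Fin n) (z : E n) : ‖sel f z‖^2 = ∑ i, ‖z (f i)‖^2 := by
  rw [EuclideanSpace.norm_sq_eq]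
  rfl

variable {R r r' : Setoid (Fin n)}

/-- A choice function for `r`. -/
structure IsChoice (r : Setoid (Fin n)) (f : Fin n → Fin n) : Prop where
  rel : ∀ i, r (f i) i
  const : ∀ i j, r i j → f i = f j

lemma sel_mem (hr : r' ≤ r) (hR : r ≤ R) {f : Fin n → Fin n} (hf : IsChoice r f) {z : E n}
    (hz : z ∈ ER R r') : sel f z ∈ ER R r := by
  intro i j
  refine ⟨fun hij => by simp [hf.const i j hij], fun h1 h2 => ?_⟩
  simp only [sel_apply]
  apply (hz (f i) (f j)).2
  · exact R.trans (R.trans (hR (hf.rel i)) h1) (R.symm (hR (hf.rel j)))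
  · intro h3
    exact h2 (r.trans (r.trans (r.symm (hf.rel i)) (hr h3)) (hf.rel j))

/-- The selection map. -/
def selC (hr : r' ≤ r) (hR : r ≤ R) {f : Fin n → Fin n} (hf : IsChoice r f) :
    C(ER R r', ER R r) :=
  ⟨fun z => ⟨sel f z, sel_mem hr hR hf z.2⟩,
    Continuous.subtype_mk ((continuous_sel f).comp continuous_subtype_val) _⟩

lemma selC_coe (hr : r' ≤ r) (hR : r ≤ R) {f : Fin n → Fin n} (hf : IsChoice r f)
    (z : ER R r') : ((selC hr hR hf z : ER R r) : E n) = sel f z := rfl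

lemma sel_eq_self {f : Fin n → Fin n} (hf : IsChoice r f) {w : E n} (hw : w ∈ ER R r) :
    sel f w = w := by
  ext i
  exact (hw (f i) i).1 (hf.rel i)

lemma add_sel_mem {f : Fin n → Fin n} (hf : IsChoice r f) {w u : E n} (hw : w ∈ ER R r)
    {c : ℝ} (hc : 0 ≤ c) (hcu : 2 * (c * ‖u‖) < gap R r w) : w + c • sel f u ∈ ER R r := by
  intro i j
  refine ⟨fun hij => ?_, fun h1 h2 h4 => ?_⟩
  · simp [(hw i j).1 hij, hf.const i j hij]
  · have h5 := gap_le_norm R r w h1 h2
    have h6 := norm_sub_apply_le u (f i) (f j)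
    have h7 : w i - w j = -((c:ℂ) * (u (f i) - u (f j))) := by
      simp only [PiLp.add_apply, PiLp.smul_apply, sel_apply, Complex.real_smul] at h4
      linear_combination h4
    rw [h7, norm_neg, norm_mul, Complex.norm_real, Real.norm_eq_abs, abs_of_nonneg hc] at h5
    have h8 : c * ‖u (f i) - u (f j)‖ ≤ c * (2 * ‖u‖) := mul_le_mul_of_nonneg_left h6 hc
    linarith

lemma sel_segment (hr : r' ≤ r) (hR : r ≤ R) {f : Fin n → Fin n} (hf : IsChoice r f)
    {x y : ER R r'} (h : segment ℝ (x : E n) y ⊆ ER R r') :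
    segment ℝ ((selC hr hR hf x : ER R r) : E n) (selC hr hR hf y : ER R r) ⊆ ER R r := by
  rintro z ⟨a, b, ha, hb, hab, rfl⟩
  rw [selC_coe, selC_coe, ← sel_smul, ← sel_smul, ← sel_add]
  exact sel_mem hr hR hf (h ⟨a, b, ha, hb, hab, rfl⟩)

lemma seg_map_sel (hr : r' ≤ r) (hR : r ≤ R) {f : Fin n → Fin n} (hf : IsChoice r f)
    {x y : ER R r'} (h : segment ℝ (x : E n) y ⊆ ER R r') :
    (seg h).map (selC hr hR hf).continuous = seg (sel_segment hr hR hf h) := by
  ext t
  simp only [Path.map_coe, Function.comp_apply, selC_coe, seg_apply, AffineMap.lineMap_apply,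
    vsub_eq_sub, vadd_eq_add, sel_add, sel_smul, sel_sub]

variable (hr : r' ≤ r) (hR : r ≤ R) (y₀ : ER R r) {x₀ : ER R r'}
  (u : E n) (hu : Off R r r' u) (hun : 2 * ‖u‖ < gap R r y₀)
  (p : Cov (ER R r') x₀) (hpu : (p.pt : E n) = y₀ + u)

lemma base_segment (hun : 2 * ‖u‖ < gap R r y₀) (hpu : (p.pt : E n) = y₀ + u)
    {f : Fin n → Fin n} (hf : IsChoice r f) :
    segment ℝ (y₀ : E n) (selC hr hR hf p.pt : ER R r) ⊆ ER R r := by
  rintro z ⟨a, b, ha, hb, hab, rfl⟩
  rw [selC_coe, hpu, sel_add, sel_eq_self hf y₀.2]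
  have : a • (y₀ : E n) + b • ((y₀ : E n) + sel f u) = y₀ + b • sel f u := by
    have : a = 1 - b := by linarith
    subst this; module
  rw [this]
  apply add_sel_mem hf y₀.2 hb
  have := norm_nonneg u
  nlinarith

/-- The base class of the projection `Psi`. -/
def hbase (hun : 2 * ‖u‖ < gap R r y₀) (hpu : (p.pt : E n) = y₀ + u)
    {f : Fin n → Fin n} (hf : IsChoice r f) :
    Path.Homotopic.Quotient y₀ (selC hr hR hf x₀) :=
  (Path.Homotopic.Quotient.mk (seg (base_segment hr hR y₀ u p hun hpu hf))).trans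
    (p.cls.map (selC hr hR hf)).symm

/-- The projections to the covering of the stratum. -/
def Psi (hun : 2 * ‖u‖ < gap R r y₀) (hpu : (p.pt : E n) = y₀ + u)
    {f : Fin n → Fin n} (hf : IsChoice r f) (P : Cov (ER R r') x₀) : Cov (ER R r) y₀ :=
  P.map (selC hr hR hf) (hbase hr hR y₀ u p hun hpu hf)

lemma Psi_step {f : Fin n → Fin n} (hf : IsChoice r f) (P : Cov (ER R r') x₀)
    (y : ER R r') (h : segment ℝ (P.pt : E n) y ⊆ ER R r') :
    Psi hr hR y₀ u p hun hpu hf (P.step y h) =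
      (Psi hr hR y₀ u p hun hpu hf P).step (selC hr hR hf y) (sel_segment hr hR hf h) := by
  unfold Psi
  apply map_step
  rw [seg_map_sel]

lemma selJ_segment {f : Fin n → Fin n} (hf : IsChoice r f) (s : ℝ) (hs : 0 < s) (hs1 : s ≤ 1)
    (w : ER R r) :
    segment ℝ (w : E n) (((selC hr hR hf).comp (J y₀ u hr hu hun s hs hs1) w : ER R r) : E n) ⊆
      ER R r := by
  rintro z ⟨a, b, ha, hb, hab, rfl⟩
  have hg := gap_pos R r y₀.2
  have hgw := gap_pos R r w.2
  rw [ContinuousMap.comp_apply, selC_coe, J_coe, sel_add, sel_smul, sel_eq_self hf w.2]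
  have : a • (w : E n) + b • ((w : E n) + (s * gap R r w / gap R r y₀) • sel f u) =
      w + (b * (s * gap R r w / gap R r y₀)) • sel f u := by
    have : a = 1 - b := by linarith
    subst this; module
  rw [this]
  apply add_sel_mem hf w.2 (by positivity)
  have hb1 : b ≤ 1 := by linarith
  have h1 : 2 * (b * (s * gap R r w / gap R r y₀) * ‖u‖) =
      b * s * gap R r w * ((2 * ‖u‖) / gap R r y₀) := by ring
  rw [h1]
  have h2 : (2 * ‖u‖) / gap R r y₀ < 1 := (div_lt_one hg).2 hun
  have h3 : 0 ≤ (2 * ‖u‖) / gap R r y₀ := by positivity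
  have h5 : b * s ≤ 1 := by nlinarith
  have h4 : b * s * gap R r w ≤ gap R r w := by nlinarith
  nlinarith

lemma Psi_iota {f : Fin n → Fin n} (hf : IsChoice r f) (s : ℝ) (hs : 0 < s) (hs1 : s ≤ 1)
    (q : Cov (ER R r) y₀) :
    Psi hr hR y₀ u p hun hpu hf (iota hr y₀ u hu hun p hpu s hs hs1 q) =
      q.step ((selC hr hR hf).comp (J y₀ u hr hu hun s hs hs1) q.pt)
        (selJ_segment hr hR y₀ u hu hun hf s hs hs1 q.pt) := by
  unfold Psi iota
  rw [map_map, step_straight ((selC hr hR hf).comp (J y₀ u hr hu hun s hs hs1))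
    (selJ_segment hr hR y₀ u hu hun hf s hs hs1) q]
  congr 1
  unfold hbase bs Cov.step
  simp only
  rw [quot_map_trans, Path.Homotopic.Quotient.trans_assoc,
    ← Path.Homotopic.Quotient.trans_assoc (p.cls.map (selC hr hR hf)).symm,
    Path.Homotopic.Quotient.symm_trans, Path.Homotopic.Quotient.refl_trans,
    ← Path.Homotopic.Quotient.mk_map, seg_map_sel]
  have hC := convex_segment (𝕜 := ℝ) (y₀ : E n) (selC hr hR hf p.pt : ER R r)
  refine seg_trans_seg hC (base_segment hr hR y₀ u p hun hpu hf) (left_mem_segment ℝ _ _)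
    (right_mem_segment ℝ _ _) ?_ _ _ _
  rw [ContinuousMap.comp_apply, selC_coe, selC_coe, J_base, hpu, sel_add, sel_add, sel_smul,
    sel_eq_self hf y₀.2]
  exact ⟨1 - s, s, by linarith, hs.le, by ring, by module⟩

lemma dist_Psi_iota {f : Fin n → Fin n} (hf : IsChoice r f) (s : ℝ) (hs : 0 < s) (hs1 : s ≤ 1)
    (q : Cov (ER R r) y₀) :
    dist q (Psi hr hR y₀ u p hun hpu hf (iota hr y₀ u hu hun p hpu s hs hs1 q)) =
      s * (gap R r q.pt / gap R r y₀ * ‖sel f u‖) := by
  rw [Psi_iota, dist_step_eq, dist_eq_norm, ContinuousMap.comp_apply, selC_coe, J_coe, sel_add,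
    sel_smul, sel_eq_self hf q.pt.2]
  have hg := gap_pos R r y₀.2
  have hgw := gap_pos R r q.pt.2
  have : (q.pt : E n) - ((q.pt : E n) + (s * gap R r q.pt / gap R r y₀) • sel f u) =
      -((s * gap R r q.pt / gap R r y₀) • sel f u) := by abel
  rw [this, norm_neg, norm_smul, Real.norm_eq_abs, abs_of_nonneg (by positivity)]
  ring

end Pool.Agent.BR49
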