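import Pool.Agent.BR49.Strata4

/-!
# Strata are isometrically embedded: conclusion
-/

open Set Metric unitInterval Topology UniformSpace Filter
open scoped ENNReal NNReal

set_option linter.unusedSectionVars false
set_option linter.unusedVariables false

noncomputable section

namespace Pool.Agent.BR49

variable {n : ℕ} {R r r' : Setoid (Fin n)}

lemma sum_norm_sel_le {m : ℕ} (hm : 0 < m) (f : Fin m → Fin n → Fin n)
    (hf : ∀ g : Fin n → ℝ, ∑ a, ∑ i, g (f a i) = m * ∑ i, g i) (z : E n) :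
    ∑ a, ‖sel (f a) z‖ ≤ m * ‖z‖ := by
  have h1 : ∑ a, ‖sel (f a) z‖ ^ 2 = m * ‖z‖ ^ 2 := by
    simp_rw [norm_sel_sq]
    rw [hf (fun i => ‖z i‖ ^ 2), EuclideanSpace.norm_sq_eq]
  have h2 : (∑ a, ‖sel (f a) z‖) ^ 2 ≤ (m * ‖z‖) ^ 2 := by
    have h3 := sq_sum_le_card_mul_sum_sq (s := Finset.univ) (f := fun a => ‖sel (f a) z‖)
    rw [Finset.card_univ, Fintype.card_fin, h1] at h3
    nlinarith
  exact (sq_le_sq₀ (Finset.sum_nonneg fun _ _ => norm_nonneg _) (by positivity)).1 h2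

variable (hr : r' ≤ r) (hR : r ≤ R) (y₀ : ER R r) {x₀ : ER R r'}
  (u : E n) (hu : Off R r r' u) (hun : 2 * ‖u‖ < gap R r y₀)
  (p : Cov (ER R r') x₀) (hpu : (p.pt : E n) = y₀ + u)

theorem sum_dist_Psi_le {m : ℕ} (hm : 0 < m) (f : Fin m → Fin n → Fin n)
    (hfc : ∀ a, IsChoice r (f a))
    (hf : ∀ g : Fin n → ℝ, ∑ a, ∑ i, g (f a i) = m * ∑ i, g i) (P Q : Cov (ER R r') x₀) :
    ∑ a, dist (Psi hr hR y₀ u p hun hpu (hfc a) P) (Psi hr hR y₀ u p hun hpu (hfc a) Q) ≤
      m * dist P Q := by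
  refine le_dist_of_local (fun P Q => ∑ a, dist (Psi hr hR y₀ u p hun hpu (hfc a) P)
    (Psi hr hR y₀ u p hun hpu (hfc a) Q)) m (by positivity) ?_ ?_ ?_ P Q
  · intro P; simp
  · intro P Q S
    rw [← Finset.sum_add_distrib]
    exact Finset.sum_le_sum fun a _ => dist_triangle _ _ _
  · intro x
    refine ⟨1, one_pos, fun P y h _ _ => ?_⟩
    have h1 : ∀ a, dist (Psi hr hR y₀ u p hun hpu (hfc a) P)
        (Psi hr hR y₀ u p hun hpu (hfc a) (P.step y h)) ≤ ‖sel (f a) ((P.pt : E n) - y)‖ := by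
      intro a
      rw [Psi_step]
      refine (dist_step_le _ _ _).trans (le_of_eq ?_)
      rw [dist_eq_norm, sel_sub]
      rfl
    refine (Finset.sum_le_sum fun a _ => h1 a).trans ?_
    rw [dist_eq_norm]
    exact sum_norm_sel_le hm f hf _

lemma norm_sel_le (f : Fin n → Fin n) (z : E n) : ‖sel f z‖ ≤ √n * ‖z‖ := by
  rw [← sq_le_sq₀ (norm_nonneg _) (by positivity), norm_sel_sq, mul_pow,
    Real.sq_sqrt (by positivity)]
  calc ∑ i, ‖z (f i)‖ ^ 2 ≤ ∑ i : Fin n, ‖z‖ ^ 2 :=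
        Finset.sum_le_sum fun i _ => pow_le_pow_left₀ (norm_nonneg _) (norm_apply_le z _) 2
    _ = n * ‖z‖ ^ 2 := by simp

include hR in
theorem le_dist_iota (s : ℝ) (hs : 0 < s) (hs1 : s ≤ 1) (q q' : Cov (ER R r) y₀) :
    dist q q' ≤ dist (iota hr y₀ u hu hun p hpu s hs hs1 q)
      (iota hr y₀ u hu hun p hpu s hs hs1 q') +
      s * ((gap R r q.pt + gap R r q'.pt) / gap R r y₀ * (√n * ‖u‖)) := by
  obtain ⟨m, hm, f, hf1, hf2, hf3⟩ := exists_choices r
  have hfc : ∀ a, IsChoice r (f a) := fun a => ⟨hf1 a, hf2 a⟩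
  have hg := gap_pos R r y₀.2
  have hgq := gap_pos R r q.pt.2
  have hgq' := gap_pos R r q'.pt.2
  set Q := iota hr y₀ u hu hun p hpu s hs hs1 q
  set Q' := iota hr y₀ u hu hun p hpu s hs hs1 q'
  have h1 : ∀ a, dist q q' ≤ dist (Psi hr hR y₀ u p hun hpu (hfc a) Q)
      (Psi hr hR y₀ u p hun hpu (hfc a) Q') +
      s * ((gap R r q.pt + gap R r q'.pt) / gap R r y₀ * (√n * ‖u‖)) := by
    intro a
    have h2 := dist_Psi_iota hr hR y₀ u hu hun p hpu (hfc a) s hs hs1 q
    have h3 := dist_Psi_iota hr hR y₀ u hu hun p hpu (hfc a) s hs hs1 q'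
    have h4 := dist_triangle4 q (Psi hr hR y₀ u p hun hpu (hfc a) Q)
      (Psi hr hR y₀ u p hun hpu (hfc a) Q') q'
    have h9 := dist_comm (Psi hr hR y₀ u p hun hpu (hfc a) Q') q'
    have h5 := norm_sel_le (f a) u
    have h6 : s * (gap R r q.pt / gap R r y₀ * ‖sel (f a) u‖) ≤
        s * (gap R r q.pt / gap R r y₀ * (√n * ‖u‖)) := by gcongr
    have h7 : s * (gap R r q'.pt / gap R r y₀ * ‖sel (f a) u‖) ≤
        s * (gap R r q'.pt / gap R r y₀ * (√n * ‖u‖)) := by gcongr
    have h8 : s * ((gap R r q.pt + gap R r q'.pt) / gap R r y₀ * (√n * ‖u‖)) =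
        s * (gap R r q.pt / gap R r y₀ * (√n * ‖u‖)) +
        s * (gap R r q'.pt / gap R r y₀ * (√n * ‖u‖)) := by ring
    rw [h8]
    linarith
  have h2 := sum_dist_Psi_le hr hR y₀ u hun p hpu hm f hfc hf3 Q Q'
  have h3 : (m : ℝ) * dist q q' ≤ m * (dist Q Q' +
      s * ((gap R r q.pt + gap R r q'.pt) / gap R r y₀ * (√n * ‖u‖))) := by
    calc (m : ℝ) * dist q q' = ∑ a : Fin m, dist q q' := by simp
      _ ≤ ∑ a : Fin m, (dist (Psi hr hR y₀ u p hun hpu (hfc a) Q)
          (Psi hr hR y₀ u p hun hpu (hfc a) Q') +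
          s * ((gap R r q.pt + gap R r q'.pt) / gap R r y₀ * (√n * ‖u‖))) :=
        Finset.sum_le_sum fun a _ => h1 a
      _ = ∑ a : Fin m, dist (Psi hr hR y₀ u p hun hpu (hfc a) Q)
          (Psi hr hR y₀ u p hun hpu (hfc a) Q') +
          m * (s * ((gap R r q.pt + gap R r q'.pt) / gap R r y₀ * (√n * ‖u‖))) := by
        rw [Finset.sum_add_distrib]; simp
      _ ≤ _ := by rw [mul_add]; linarith
  have hm' : (0:ℝ) < m := by exact_mod_cast hm
  exact le_of_mul_le_mul_left h3 hm'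

include hR in
theorem isometry_iota0 : Isometry (iota0 hr y₀ u hu hun p hpu) := by
  refine Isometry.of_dist_eq fun q q' => le_antisymm
    (dist_iota0_le hr y₀ u hu hun p hpu q q') ?_
  have h1 := (tendsto_iota0 hr y₀ u hu hun p hpu q).dist (tendsto_iota0 hr y₀ u hu hun p hpu q')
  have h2 : Tendsto (fun k => dist (iotaSeq hr y₀ u hu hun p hpu q k)
      (iotaSeq hr y₀ u hu hun p hpu q' k) +
      sk k * ((gap R r q.pt + gap R r q'.pt) / gap R r y₀ * (√n * ‖u‖))) atTop
      (𝓝 (dist (iota0 hr y₀ u hu hun p hpu q) (iota0 hr y₀ u hu hun p hpu q') +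
        0 * ((gap R r q.pt + gap R r q'.pt) / gap R r y₀ * (√n * ‖u‖)))) :=
    h1.add (tendsto_sk.mul tendsto_const_nhds)
  rw [zero_mul, add_zero] at h2
  refine ge_of_tendsto' h2 fun k => ?_
  unfold iotaSeq
  rw [Completion.dist_eq]
  exact le_dist_iota hr hR y₀ u hu hun p hpu _ _ _ q q'

/-- **Strata are isometrically embedded.** Let `r' ≤ r ≤ R` be partitions of the set of strands and
let `P₀` be a point of the ramified covering of the stratum of `r'` (ramified along the hyperplanes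
`z_i = z_j` with `R i j`) which lies over a point `y₀` of the open stratum of `r`. Then the
(intrinsically defined) ramified covering of the stratum of `r` embeds isometrically, through `P₀`
and over the inclusion of the strata. -/
theorem exists_isometry (hr : r' ≤ r) (hR : r ≤ R) (x₀ : ER R r') (P₀ : Ram x₀) (y₀ : ER R r)
    (h : proj P₀ = y₀) :
    ∃ ι : Ram y₀ → Ram x₀, Isometry ι ∧
      ι ((⟨y₀, Path.Homotopic.Quotient.refl y₀⟩ : Cov (ER R r) y₀) : Ram y₀) = P₀ ∧
      ∀ Q, proj (ι Q) = proj Q := by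
  obtain ⟨p, hp, η, hη, hrad⟩ := exists_rad hr y₀ P₀ h
  set u : E n := (p.pt : E n) - y₀ with hu_def
  have hu : Off R r r' u := off_sub hr p.pt.2 y₀.2
  have hpu : (p.pt : E n) = y₀ + u := by rw [hu_def]; abel
  have hiso := isometry_iota0 hr hR y₀ u hu hp p hpu
  refine ⟨Completion.extension (iota0 hr y₀ u hu hp p hpu), hiso.completion_extension, ?_, ?_⟩
  · rw [Completion.extension_coe hiso.uniformContinuous]
    have h1 := tendsto_iota0 hr y₀ u hu hp p hpu ⟨y₀, Path.Homotopic.Quotient.refl y₀⟩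
    have h2 : Tendsto (iotaSeq hr y₀ u hu hp p hpu ⟨y₀, Path.Homotopic.Quotient.refl y₀⟩) atTop
        (𝓝 P₀) := by
      rw [tendsto_iff_dist_tendsto_zero]
      have h3 : Tendsto (fun k => sk k * η) atTop (𝓝 (0 * η)) := tendsto_sk.mul tendsto_const_nhds
      rw [zero_mul] at h3
      refine squeeze_zero (fun _ => dist_nonneg) (fun k => ?_) h3
      have h4 := hrad (sk k) (sk_pos k) (sk_le k)
      rw [dist_comm]
      refine le_trans (le_of_eq ?_) h4
      congr 1
      unfold iotaSeq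
      congr 1
      unfold iota
      rw [map_base]
      have h5 : (bs hr y₀ u hu hp p hpu (sk k) (sk_pos k) (sk_le k)) =
          rad hr y₀ p hp (sk k) (sk_pos k) (sk_le k) := by
        unfold bs rad
        apply step_congr
        apply Subtype.ext
        rw [J_base]
        simp only [contr, hu_def]
      rw [← h5]
      rfl
    exact tendsto_nhds_unique h1 h2
  · intro Q
    refine Completion.induction_on Q (isClosed_eq ?_ ?_) fun q => ?_
    · exact lipschitz_proj.continuous.comp hiso.completion_extension.continuous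
    · exact lipschitz_proj.continuous
    · rw [Completion.extension_coe hiso.uniformContinuous, proj_iota0, proj_coe]

end Pool.Agent.BR49
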