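import Pool.Agent.BR49.Strata5
import Pool.Agent.BR49.Length

/-!
# Weighted braid spaces
-/

open Set Metric unitInterval Topology UniformSpace Filter
open scoped ENNReal NNReal

set_option linter.unusedSectionVars false
set_option linter.unusedVariables false

noncomputable section

namespace Pool.Agent.BR49

section maps
variable {V : Type*} [NormedAddCommGroup V] [NormedSpace ℝ V] {U : Set V} {x₀ : U}
variable {V' : Type*} [NormedAddCommGroup V'] [NormedSpace ℝ V'] {U' : Set V'}

lemma cast_aux {X : Type*} [TopologicalSpace X] {a b a' b' : X} (ha : a' = a) (hb : b' = b)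
    (P : Path.Homotopic.Quotient a b) :
    (((Path.Homotopic.Quotient.refl a).cast rfl ha).trans (P.cast ha hb)).cast rfl hb.symm = P := by
  subst ha hb
  simp

lemma map_leftInv (f : C(U, U')) (g : C(U', U)) (hgf : ∀ x, g (f x) = x) (p : Cov U x₀) :
    (p.map f (Path.Homotopic.Quotient.refl (f x₀))).map g
      ((Path.Homotopic.Quotient.refl x₀).cast rfl (hgf x₀)) = p := by
  refine Cov.ext' (hgf p.pt) ?_
  obtain ⟨y, P⟩ := p
  induction P using Path.Homotopic.Quotient.ind with
  | mk c =>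
    simp only [Cov.map]
    rw [Path.Homotopic.Quotient.refl_trans, ← Path.Homotopic.Quotient.mk_map,
      ← Path.Homotopic.Quotient.mk_map]
    have h : (c.map f.continuous).map g.continuous = c.cast (hgf x₀) (hgf y) := by
      ext t
      simp [hgf]
    rw [h, Path.Homotopic.Quotient.mk_cast]
    exact cast_aux (hgf x₀) (hgf y) _

/-- Two sided estimate for the map between coverings induced by a bi-Lipschitz map. -/
theorem dist_le_dist_map [LocConvex U] [LocConvex U'] (f : C(U, U')) (g : C(U', U))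
    (hgf : ∀ x, g (f x) = x) (K : ℝ≥0)
    (hg : ∀ x y : U', dist ((g x : U) : V) (g y) ≤ K * dist (x:V') y) (p q : Cov U x₀) :
    dist p q ≤ K * dist (p.map f (Path.Homotopic.Quotient.refl (f x₀)))
      (q.map f (Path.Homotopic.Quotient.refl (f x₀))) := by
  have h := dist_map_le g ((Path.Homotopic.Quotient.refl x₀).cast rfl (hgf x₀)) K hg
    (p.map f (Path.Homotopic.Quotient.refl (f x₀))) (q.map f (Path.Homotopic.Quotient.refl (f x₀)))
  rwa [map_leftInv f g hgf, map_leftInv f g hgf] at h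

theorem isometry_map [LocConvex U] [LocConvex U'] (f : C(U, U')) (g : C(U', U))
    (hgf : ∀ x, g (f x) = x)
    (hf : ∀ x y : U, dist ((f x : U') : V') (f y) ≤ dist (x:V) y)
    (hg : ∀ x y : U', dist ((g x : U) : V) (g y) ≤ dist (x:V') y) :
    Isometry (fun p : Cov U x₀ => p.map f (Path.Homotopic.Quotient.refl (f x₀))) := by
  refine Isometry.of_dist_eq fun p q => le_antisymm ?_ ?_
  · have := dist_map_le f (Path.Homotopic.Quotient.refl (f x₀)) 1 (by simpa using hf) p q
    simpa using this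
  · have := dist_le_dist_map f g hgf 1 (by simpa using hg) p q
    simpa using this

end maps

/-- All ramified universal coverings of `U` satisfy the inequality of Bruhat and Tits. -/
def AllCN {V : Type*} [NormedAddCommGroup V] [NormedSpace ℝ V] (U : Set V) [LocConvex U] : Prop :=
  ∀ x₀ : U, CN (Ram x₀)

lemma AllCN.congr {V : Type*} [NormedAddCommGroup V] [NormedSpace ℝ V] {U U' : Set V}
    [LocConvex U] [LocConvex U'] (h : U = U') (hU : AllCN U) : AllCN U' := by
  subst h; exact hU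

variable {n : ℕ}

/-- A stratum of the braid arrangement inherits the inequality from the braid space. -/
theorem allCN_stratum (h : AllCN (ER (⊤ : Setoid (Fin n)) ⊥)) (r : Setoid (Fin n)) :
    AllCN (ER ⊤ r) := by
  intro y₀
  set v : E n := WithLp.toLp 2 (fun i => ((i : ℕ) : ℂ)) with hv
  have hg := gap_pos ⊤ r y₀.2
  set c : ℝ := gap ⊤ r y₀ / (4 * (‖v‖ + 1)) with hc
  have hc0 : 0 < c := by positivity
  have hoff : Off ⊤ r ⊥ (c • v) := by
    apply Off.smul _ hc0
    refine ⟨fun i j hij => ?_, fun i j _ _ hij => ?_⟩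
    · have : i = j := hij
      rw [this]
    · intro h4
      apply hij
      simp only [hv] at h4
      have h5 : (i : ℕ) = (j : ℕ) := by exact_mod_cast h4
      show i = j
      exact Fin.ext h5
  have hnorm : 2 * ‖c • v‖ < gap ⊤ r y₀ := by
    rw [norm_smul, Real.norm_eq_abs, abs_of_pos hc0]
    have h1 : c * (4 * (‖v‖ + 1)) = gap ⊤ r y₀ := by rw [hc]; field_simp
    nlinarith [norm_nonneg v]
  set x₀ : ER (⊤ : Setoid (Fin n)) ⊥ := ⟨y₀ + c • v, add_off_mem bot_le y₀.2 hoff hnorm⟩ with hx₀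
  set p : Cov (ER (⊤ : Setoid (Fin n)) ⊥) x₀ := ⟨x₀, Path.Homotopic.Quotient.refl x₀⟩ with hp
  have hiso := isometry_iota0 (bot_le : (⊥ : Setoid (Fin n)) ≤ r) le_top y₀ (c • v) hoff hnorm p rfl
  exact (h x₀).of_isometry approxMid_ram hiso.completion_extension

/-- The configurations of distinct points of the plane with masses `m i`, in the coordinates
`u i = √(m i) z i`, in which the kinetic energy metric is the standard one. -/
def WM (m : Fin n → ℝ) : Set (E n) :=
  {u | ∀ i j, i ≠ j → (√(m i))⁻¹ • u i ≠ (√(m j))⁻¹ • u j}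

lemma isOpen_WM (m : Fin n → ℝ) : IsOpen (WM m) := by
  have : WM m = ⋂ (i : Fin n), ⋂ (j : Fin n),
      {u : E n | i ≠ j → (√(m i))⁻¹ • u i ≠ (√(m j))⁻¹ • u j} := by
    ext z; simp [WM]
  rw [this]
  refine isOpen_iInter_of_finite fun i => isOpen_iInter_of_finite fun j => ?_
  by_cases h1 : i ≠ j
  · simp only [h1, ne_eq, not_false_eq_true, forall_const]
    exact isOpen_ne_fun (by fun_prop) (by fun_prop)
  · simp [h1]

instance (m : Fin n → ℝ) : LocConvex (WM m) := locConvex_of_isOpen (isOpen_WM m)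

section integer
variable {k : ℕ} (N : Fin k → ℕ)

/-- The strand `x` belongs to the cluster `cl N x`. -/
def cl (x : Fin (∑ i, N i)) : Fin k := (finSigmaFinEquiv.symm x).1

lemma sum_cl (F : Fin k → ℝ) : ∑ x, F (cl N x) = ∑ i, (N i : ℝ) * F i := by
  unfold cl
  rw [← Equiv.sum_comp finSigmaFinEquiv]
  simp only [Equiv.symm_apply_apply]
  rw [Finset.univ_sigma_univ.symm, Finset.sum_sigma]
  simp

lemma exists_cl (hN : ∀ i, 0 < N i) (i : Fin k) : ∃ x, cl N x = i :=
  ⟨finSigmaFinEquiv ⟨i, ⟨0, hN i⟩⟩, by simp [cl]⟩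

/-- The partition into clusters. -/
def clS : Setoid (Fin (∑ i, N i)) := Setoid.ker (cl N)

lemma clS_iff (x y) : clS N x y ↔ cl N x = cl N y := Iff.rfl

/-- Spreading the weights. -/
def spr (u : E k) : E (∑ i, N i) :=
  WithLp.toLp 2 (fun x => (√(N (cl N x) : ℝ))⁻¹ • u (cl N x))

lemma spr_apply (u : E k) (x) : spr N u x = (√(N (cl N x) : ℝ))⁻¹ • u (cl N x) := rfl

/-- Collecting the weights. -/
def col (s : Fin k → Fin (∑ i, N i)) (z : E (∑ i, N i)) : E k :=
  WithLp.toLp 2 (fun i => √(N i : ℝ) • z (s i))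

lemma norm_spr_sub (hN : ∀ i, 0 < N i) (u u' : E k) : ‖spr N u - spr N u'‖ = ‖u - u'‖ := by
  rw [EuclideanSpace.norm_eq, EuclideanSpace.norm_eq]
  congr 1
  have h1 : ∀ x, ‖(spr N u - spr N u') x‖ ^ 2 =
      (fun i => (N i : ℝ)⁻¹ * ‖(u - u') i‖ ^ 2) (cl N x) := by
    intro x
    have e : (spr N u - spr N u') x = (√(N (cl N x) : ℝ))⁻¹ • ((u - u') (cl N x)) := by
      simp only [PiLp.sub_apply, spr_apply, smul_sub]
    rw [e, norm_smul, mul_pow, Real.norm_eq_abs, sq_abs, inv_pow,
      Real.sq_sqrt (by positivity)]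
  rw [Finset.sum_congr rfl (fun x _ => h1 x),
    sum_cl N (fun i => (N i : ℝ)⁻¹ * ‖(u - u') i‖ ^ 2)]
  apply Finset.sum_congr rfl
  intro i _
  have : (N i : ℝ) ≠ 0 := by exact_mod_cast (hN i).ne'
  field_simp

lemma norm_col_sub {s : Fin k → Fin (∑ i, N i)} (hs : ∀ i, cl N (s i) = i)
    {z z' : E (∑ i, N i)} (hz : z ∈ ER ⊤ (clS N)) (hz' : z' ∈ ER ⊤ (clS N)) :
    ‖col N s z - col N s z'‖ = ‖z - z'‖ := by
  rw [EuclideanSpace.norm_eq, EuclideanSpace.norm_eq]
  congr 1
  have h1 : ∀ x, ‖(z - z') x‖ ^ 2 = (fun i => ‖(z - z') (s i)‖ ^ 2) (cl N x) := by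
    intro x
    have hx : clS N x (s (cl N x)) := by rw [clS_iff, hs]
    simp only [PiLp.sub_apply]
    rw [(hz _ _).1 hx, (hz' _ _).1 hx]
  rw [Finset.sum_congr rfl (fun x _ => h1 x), sum_cl N (fun i => ‖(z - z') (s i)‖ ^ 2)]
  apply Finset.sum_congr rfl
  intro i _
  have e : (col N s z - col N s z') i = √(N i : ℝ) • ((z - z') (s i)) := by
    simp only [col, PiLp.sub_apply, smul_sub]
  rw [e, norm_smul, mul_pow, Real.norm_eq_abs, sq_abs, Real.sq_sqrt (by positivity)]

theorem allCN_integer (hN : ∀ i, 0 < N i)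
    (h : AllCN (ER (⊤ : Setoid (Fin (∑ i, N i))) ⊥)) (t : ℝ) (ht : 0 < t) :
    AllCN (WM (fun i => (N i : ℝ) / t)) := by
  choose s hs using exists_cl N hN
  have hsq : ∀ i, √((N i : ℝ) / t) = √(N i : ℝ) / √t := fun i => Real.sqrt_div (by positivity) t
  have hN0 : ∀ i, √(N i : ℝ) ≠ 0 := fun i =>
    (Real.sqrt_pos.2 (by exact_mod_cast hN i)).ne'
  have ht0 : √t ≠ 0 := (Real.sqrt_pos.2 ht).ne'
  have hmem : ∀ u ∈ WM (fun i => (N i : ℝ) / t), spr N u ∈ ER ⊤ (clS N) := by
    intro u hu x y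
    refine ⟨fun hxy => ?_, fun _ hxy => ?_⟩
    · rw [clS_iff] at hxy
      rw [spr_apply, spr_apply, hxy]
    · rw [clS_iff] at hxy
      intro h4
      apply hu _ _ hxy
      rw [spr_apply, spr_apply] at h4
      simp only [hsq, inv_div]
      rw [div_eq_mul_inv, div_eq_mul_inv, mul_smul, mul_smul, h4]
  have hmem' : ∀ z ∈ ER ⊤ (clS N), col N s z ∈ WM (fun i => (N i : ℝ) / t) := by
    intro z hz i j hij h4
    have h5 : ∀ i, (√((N i : ℝ) / t))⁻¹ • (col N s z) i = √t • z (s i) := by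
      intro i
      simp only [col]
      rw [hsq, inv_div, smul_smul, div_mul_cancel₀ _ (hN0 i)]
    rw [h5, h5] at h4
    have h6 : z (s i) = z (s j) := smul_right_injective ℂ ht0 h4
    refine (hz (s i) (s j)).2 trivial ?_ h6
    rw [clS_iff, hs, hs]
    exact hij
  set f : C(WM (fun i => (N i : ℝ) / t), ER ⊤ (clS N)) :=
    ⟨fun u => ⟨spr N u, hmem u u.2⟩, Continuous.subtype_mk (by unfold spr; fun_prop) _⟩ with hf
  set g : C(ER ⊤ (clS N), WM (fun i => (N i : ℝ) / t)) :=
    ⟨fun z => ⟨col N s z, hmem' z z.2⟩, Continuous.subtype_mk (by unfold col; fun_prop) _⟩ with hg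
  have hgf : ∀ u, g (f u) = u := by
    intro u
    apply Subtype.ext
    ext i
    simp only [hf, hg, ContinuousMap.coe_mk, col, spr_apply, hs]
    rw [smul_smul, mul_inv_cancel₀ (hN0 i), one_smul]
  intro u₀
  have hiso := isometry_map (x₀ := u₀) f g hgf (fun x y => by
      rw [dist_eq_norm, dist_eq_norm]; exact (norm_spr_sub N hN x y).le) (fun x y => by
      rw [dist_eq_norm, dist_eq_norm]; exact (norm_col_sub N hs x.2 y.2).le)
  have h2 := allCN_stratum h (clS N) (f u₀)
  exact h2.of_isometry approxMid_ram (ι := Completion.map _) hiso.completion_map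

end integer

end Pool.Agent.BR49
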