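import Pool.Agent.BR49.Weighted

/-!
# Real weights
-/

open Set Metric unitInterval Topology UniformSpace Filter
open scoped ENNReal NNReal

set_option linter.unusedSectionVars false
set_option linter.unusedVariables false

noncomputable section

namespace Pool.Agent.BR49

variable {k : ℕ}

/-- Coordinatewise scaling. -/
def scl (l : Fin k → ℝ) (u : E k) : E k := WithLp.toLp 2 (fun i => l i • u i)

lemma scl_apply (l : Fin k → ℝ) (u : E k) (i : Fin k) : scl l u i = l i • u i := rfl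

lemma norm_scl_sub_le {l : Fin k → ℝ} {K : ℝ} (hK : 0 ≤ K) (hl : ∀ i, |l i| ≤ K) (u v : E k) :
    ‖scl l u - scl l v‖ ≤ K * ‖u - v‖ := by
  refine (sq_le_sq₀ (norm_nonneg _) (mul_nonneg hK (norm_nonneg _))).1 ?_
  rw [mul_pow, EuclideanSpace.norm_eq, EuclideanSpace.norm_eq, Real.sq_sqrt (by positivity),
    Real.sq_sqrt (by positivity), Finset.mul_sum]
  apply Finset.sum_le_sum
  intro i _
  have e : (scl l u - scl l v) i = l i • ((u - v) i) := by
    simp only [PiLp.sub_apply, scl_apply, smul_sub]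
  rw [e, norm_smul, mul_pow, Real.norm_eq_abs]
  apply mul_le_mul_of_nonneg_right _ (sq_nonneg _)
  exact pow_le_pow_left₀ (abs_nonneg _) (hl i) 2

lemma sqrt_le_one_add {x : ℝ} (hx : 0 ≤ x) : √(1 + x) ≤ 1 + x := by
  rw [Real.sqrt_le_left (by linarith)]
  nlinarith

/-- Approximation of real masses by commensurable ones. -/
lemma exists_masses (m : Fin k → ℝ) (hm : ∀ i, 0 < m i) {η : ℝ} (hη : 0 < η) :
    ∃ (N : Fin k → ℕ) (t : ℝ), 0 < t ∧ (∀ i, 0 < N i) ∧
      ∀ i, 1 ≤ √((N i : ℝ) / t) / √(m i) ∧ √((N i : ℝ) / t) / √(m i) ≤ 1 + η := by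
  obtain ⟨t, ht0, ht⟩ : ∃ t : ℝ, 0 < t ∧ ∀ i, 1 / (η * m i) ≤ t := by
    refine ⟨1 + ∑ i, 1 / (η * m i), ?_, fun i => ?_⟩
    · have : 0 ≤ ∑ i, 1 / (η * m i) := Finset.sum_nonneg fun i _ => by
        have := hm i; positivity
      linarith
    · have := Finset.single_le_sum (f := fun i => 1 / (η * m i)) (s := Finset.univ)
        (fun i _ => by have := hm i; positivity) (Finset.mem_univ i)
      linarith
  refine ⟨fun i => ⌈t * m i⌉₊, t, ht0, fun i => Nat.ceil_pos.2 (mul_pos ht0 (hm i)), fun i => ?_⟩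
  have hmi := hm i
  have h1 : t * m i ≤ (⌈t * m i⌉₊ : ℝ) := Nat.le_ceil _
  have h2 : (⌈t * m i⌉₊ : ℝ) < t * m i + 1 := Nat.ceil_lt_add_one (by positivity)
  rw [← Real.sqrt_div (by positivity)]
  set x : ℝ := (⌈t * m i⌉₊ : ℝ) / t / m i with hx
  have hx1 : 1 ≤ x := by
    rw [hx, div_div, le_div_iff₀ (by positivity)]; linarith
  have hx2 : x ≤ 1 + η := by
    rw [hx, div_div, div_le_iff₀ (by positivity)]
    have h3 : 1 / (η * m i) * (η * m i) ≤ t * (η * m i) :=
      mul_le_mul_of_nonneg_right (ht i) (by positivity)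
    rw [div_mul_cancel₀ _ (by positivity)] at h3
    nlinarith
  constructor
  · rw [Real.one_le_sqrt]; exact hx1
  · calc √x ≤ √(1 + η) := Real.sqrt_le_sqrt hx2
      _ ≤ 1 + η := sqrt_le_one_add hη.le

theorem allCN_real (h : ∀ (N : Fin k → ℕ) (t : ℝ), 0 < t → (∀ i, 0 < N i) →
    AllCN (WM (fun i => (N i : ℝ) / t))) (m : Fin k → ℝ) (hm : ∀ i, 0 < m i) : AllCN (WM m) := by
  intro u₀
  apply (ApproxCN.completion ?_).cn
  intro p q ε hε
  set D := dist p q with hD
  have hD0 : 0 ≤ D := dist_nonneg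
  obtain ⟨η, hη0, hη1, hηε⟩ : ∃ η > 0, η ≤ 1 ∧ η * (8 * (1 + D)^2) ≤ ε := by
    refine ⟨min 1 (ε / (8 * (1 + D)^2)), by positivity, min_le_left _ _, ?_⟩
    have h2 : min 1 (ε / (8 * (1 + D)^2)) ≤ ε / (8 * (1 + D)^2) := min_le_right _ _
    rwa [le_div_iff₀ (by positivity)] at h2
  obtain ⟨N, t, ht, hN, hl⟩ := exists_masses m hm hη0
  set l : Fin k → ℝ := fun i => √((N i : ℝ) / t) / √(m i) with hldef
  set m' : Fin k → ℝ := fun i => (N i : ℝ) / t with hm'
  have hm'0 : ∀ i, 0 < m' i := fun i => by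
    have := hN i
    have : (0:ℝ) < N i := by exact_mod_cast hN i
    positivity
  have hl1 : ∀ i, 1 ≤ l i := fun i => (hl i).1
  have hl2 : ∀ i, l i ≤ 1 + η := fun i => (hl i).2
  have hl0 : ∀ i, l i ≠ 0 := fun i => by linarith [hl1 i]
  have hsm : ∀ i, √(m i) ≠ 0 := fun i => (Real.sqrt_pos.2 (hm i)).ne'
  have hsm' : ∀ i, √(m' i) ≠ 0 := fun i => (Real.sqrt_pos.2 (hm'0 i)).ne'
  have hli : ∀ i, (√(m' i))⁻¹ * l i = (√(m i))⁻¹ := by
    intro i
    have h1 := hsm i
    have h2 := hsm' i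
    have h3 : l i = √(m' i) / √(m i) := rfl
    rw [h3]
    field_simp
  have hli' : ∀ i, (√(m i))⁻¹ * (l i)⁻¹ = (√(m' i))⁻¹ := by
    intro i
    have h3 := hl0 i
    rw [← hli i]
    field_simp
  have hmem : ∀ u ∈ WM m, scl l u ∈ WM m' := by
    intro u hu i j hij h4
    apply hu i j hij
    rw [scl_apply, scl_apply, smul_smul, smul_smul, hli, hli] at h4
    exact h4
  have hmem' : ∀ u ∈ WM m', scl (fun i => (l i)⁻¹) u ∈ WM m := by
    intro u hu i j hij h4
    apply hu i j hij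
    rw [scl_apply, scl_apply, smul_smul, smul_smul, hli', hli'] at h4
    exact h4
  set f : C(WM m, WM m') :=
    ⟨fun u => ⟨scl l u, hmem u u.2⟩, Continuous.subtype_mk (by unfold scl; fun_prop) _⟩ with hf
  set g : C(WM m', WM m) :=
    ⟨fun u => ⟨scl (fun i => (l i)⁻¹) u, hmem' u u.2⟩,
      Continuous.subtype_mk (by unfold scl; fun_prop) _⟩ with hg
  have hgf : ∀ u, g (f u) = u := by
    intro u
    apply Subtype.ext
    ext i
    simp only [hf, hg, ContinuousMap.coe_mk, scl_apply]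
    rw [smul_smul, inv_mul_cancel₀ (hl0 i), one_smul]
  have hfL : ∀ x y : WM m, dist ((f x : WM m') : E k) (f y) ≤
      ((1 + η).toNNReal : ℝ≥0) * dist (x : E k) y := by
    intro x y
    rw [Real.coe_toNNReal _ (by positivity), dist_eq_norm, dist_eq_norm]
    exact norm_scl_sub_le (by positivity) (fun i => by
      rw [abs_of_nonneg (by linarith [hl1 i])]; exact hl2 i) _ _
  have hgL : ∀ x y : WM m', dist ((g x : WM m) : E k) (g y) ≤ ((1:ℝ≥0):ℝ) * dist (x : E k) y := by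
    intro x y
    rw [dist_eq_norm, dist_eq_norm, NNReal.coe_one]
    exact norm_scl_sub_le (by positivity) (fun i => by
      rw [abs_of_nonneg (inv_nonneg.2 (by linarith [hl1 i]))]
      exact inv_le_one_of_one_le₀ (hl1 i)) _ _
  set F : Cov (WM m) u₀ → Cov (WM m') (f u₀) :=
    fun p => p.map f (Path.Homotopic.Quotient.refl (f u₀)) with hF
  set G : Cov (WM m') (f u₀) → Cov (WM m) u₀ :=
    fun p => p.map g ((Path.Homotopic.Quotient.refl u₀).cast rfl (hgf u₀)) with hG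
  have hGF : ∀ p, G (F p) = p := fun p => map_leftInv f g hgf p
  have hFle : ∀ p q, dist (F p) (F q) ≤ (1 + η) * dist p q := by
    intro p q
    have := dist_map_le f (Path.Homotopic.Quotient.refl (f u₀)) (1 + η).toNNReal hfL p q
    rwa [Real.coe_toNNReal _ (by positivity)] at this
  have hGle : ∀ p q, dist (G p) (G q) ≤ dist p q := by
    intro p q
    have := dist_map_le g ((Path.Homotopic.Quotient.refl u₀).cast rfl (hgf u₀)) 1 hgL p q
    simpa using this
  obtain ⟨M, hM⟩ := h N t ht hN (f u₀) (F p : Ram (f u₀)) (F q : Ram (f u₀))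
  obtain ⟨m₁, hm₁⟩ := Metric.denseRange_iff.1
    (Completion.denseRange_coe (α := Cov (WM m') (f u₀))) M η hη0
  refine ⟨G m₁, fun z => ?_⟩
  have h1 := hM (F z : Ram (f u₀))
  simp only [Completion.dist_eq] at h1
  have h2 : dist z (G m₁) ≤ dist (F z : Ram (f u₀)) M + η := by
    have e : dist z (G m₁) = dist (G (F z)) (G m₁) := by rw [hGF]
    rw [e]
    refine (hGle _ _).trans ?_
    rw [← Completion.dist_eq]
    exact (dist_triangle _ M _).trans (by linarith)
  have h3 : D ≤ dist (F p) (F q) := by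
    have := hGle (F p) (F q)
    rwa [hGF, hGF] at this
  have h4 := hFle z p
  have h5 := hFle z q
  set a := dist z p with ha
  set b := dist z q with hb
  have ha0 : 0 ≤ a := dist_nonneg
  have hb0 : 0 ≤ b := dist_nonneg
  have hba : b ≤ a + D := dist_triangle z p q
  set A := dist (F z : Ram (f u₀)) M with hA
  have hA0 : 0 ≤ A := dist_nonneg
  have h6 := pow_le_pow_left₀ dist_nonneg h4 2
  have h7 := pow_le_pow_left₀ dist_nonneg h5 2
  have h8 := pow_le_pow_left₀ hD0 h3 2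
  have h9 : A^2 ≤ (1 + η)^2 * (a^2/2 + b^2/2) - D^2/4 := by
    rw [mul_pow] at h6 h7
    linarith
  have h10 : a^2/2 + b^2/2 ≤ (a + D)^2 := by
    have : b^2 ≤ (a+D)^2 := pow_le_pow_left₀ hb0 hba 2
    have : a^2 ≤ (a+D)^2 := pow_le_pow_left₀ ha0 (by linarith) 2
    linarith
  have hη2 : (1 + η)^2 ≤ 1 + 3 * η := by nlinarith
  have hη3 : (1 + η)^2 ≤ 4 := by nlinarith
  have hs0 : 0 ≤ a^2/2 + b^2/2 := by positivity
  have h11 : A ≤ 2 * (a + D) := by
    refine (sq_le_sq₀ hA0 (by positivity)).1 ?_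
    have : (1 + η)^2 * (a^2/2 + b^2/2) ≤ 4 * (a + D)^2 := by
      apply mul_le_mul hη3 h10 hs0 (by norm_num)
    nlinarith
  have h12 : A^2 ≤ (a^2/2 + b^2/2) - D^2/4 + 3 * η * (a + D)^2 := by
    have e1 : (1 + η)^2 * (a^2/2 + b^2/2) ≤ (1 + 3 * η) * (a^2/2 + b^2/2) :=
      mul_le_mul_of_nonneg_right hη2 hs0
    have e2 : 3 * η * (a^2/2 + b^2/2) ≤ 3 * η * (a + D)^2 :=
      mul_le_mul_of_nonneg_left h10 (by positivity)
    linarith
  have h13 : dist z (G m₁) ^ 2 ≤ (A + η)^2 := pow_le_pow_left₀ dist_nonneg h2 2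
  have h14 : (A + η)^2 ≤ (a^2/2 + b^2/2) - D^2/4 + η * (3 * (a + D)^2 + 4 * (a + D) + 1) := by
    have e1 : 2 * η * A ≤ 2 * η * (2 * (a + D)) := mul_le_mul_of_nonneg_left h11 (by positivity)
    nlinarith
  have h15 : 3 * (a + D)^2 + 4 * (a + D) + 1 ≤ 8 * (1 + D)^2 * (1 + a)^2 := by
    have e1 : 1 + (a + D) ≤ (1 + D) * (1 + a) := by nlinarith [mul_nonneg ha0 hD0]
    have e2 : (1 + (a + D))^2 ≤ ((1 + D) * (1 + a))^2 := pow_le_pow_left₀ (by positivity) e1 2
    nlinarith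
  have h16 : η * (3 * (a + D)^2 + 4 * (a + D) + 1) ≤ ε * (1 + a)^2 := by
    calc η * (3 * (a + D)^2 + 4 * (a + D) + 1) ≤ η * (8 * (1 + D)^2 * (1 + a)^2) :=
          mul_le_mul_of_nonneg_left h15 hη0.le
      _ = η * (8 * (1 + D)^2) * (1 + a)^2 := by ring
      _ ≤ ε * (1 + a)^2 := mul_le_mul_of_nonneg_right hηε (sq_nonneg _)
  linarith

/-- The complement `W^n` of the braid arrangement. -/
def W (n : ℕ) : Set (E n) := {z | ∀ i j, i ≠ j → z i ≠ z j}

lemma isOpen_W (n : ℕ) : IsOpen (W n) := by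
  have : W n = ⋂ (i : Fin n), ⋂ (j : Fin n), {u : E n | i ≠ j → u i ≠ u j} := by
    ext z; simp [W]
  rw [this]
  refine isOpen_iInter_of_finite fun i => isOpen_iInter_of_finite fun j => ?_
  by_cases h1 : i ≠ j
  · simp only [h1, ne_eq, not_false_eq_true, forall_const]
    exact isOpen_ne_fun (by fun_prop) (by fun_prop)
  · simp [h1]

instance (n : ℕ) : LocConvex (W n) := locConvex_of_isOpen (isOpen_W n)

lemma W_eq_ER (n : ℕ) : W n = ER (⊤ : Setoid (Fin n)) ⊥ := by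
  ext z
  constructor
  · intro hz i j
    refine ⟨fun h => ?_, fun _ h => ?_⟩
    · have : i = j := h
      rw [this]
    · exact hz i j h
  · intro hz i j hij
    exact (hz i j).2 trivial hij

lemma W_eq_WM (n : ℕ) : WM (fun _ : Fin n => (1:ℝ)) = W n := by
  ext z
  simp [WM, W]

theorem allCN_weighted (h : ∀ n, 1 ≤ n → AllCN (W n)) (n : ℕ) (hn : 1 ≤ n) (m : Fin n → ℝ)
    (hm : ∀ i, 0 < m i) : AllCN (WM m) := by
  apply allCN_real _ m hm
  intro N t ht hN
  apply allCN_integer N hN _ t ht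
  refine (h (∑ i, N i) ?_).congr (W_eq_ER _)
  have h1 := hN ⟨0, hn⟩
  have h2 := Finset.single_le_sum (f := N) (s := Finset.univ) (fun i _ => Nat.zero_le _)
    (Finset.mem_univ ⟨0, hn⟩)
  omega

end Pool.Agent.BR49
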